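import Pool.Agent.Work.MP_0b08b2_co.Defs

set_option autoImplicit false

/-! Without gaps and long chains the fields satisfy the local relations.

`found j x → lb j' x = lb j x` for `j ≤ j'`; `stop j x k → ch j' x k = ch j x k` for `j ≤ j'`.
With `Lb = L0 + 1`: if not (`o x` and `act x`) then `kap x = xor (o x) (kap (bk x))`. Hence
`kap (tau x) = kap x` for every `x` (one of `x`, `tau x` has `o = false`; `tau` is an involution),
so `kap (s (m x)) = kap (s x)`; and `kap (m x) = !kap x` if `¬ act x` (`act` is `m`-invariant).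
With `Lc = L1 + 1` and `¬ act x`: `bitv i x = !bitv i (nx (turn i (kap x) (kap (s x))) x)` because
`kap (nx t x) = kap (s x)`. -/

namespace Pool.Agent.TC

section
variable {V : Type} [Fintype V] [DecidableEq V] {n : ℕ}

theorem good_lb (F : Frame V) (c : V → Fin (n + 1)) :
    ∀ (j j' : ℕ) (x : V), F.found c j x → j ≤ j' → F.lb c j' x = F.lb c j x
  | 0, _, _, h, _ => h.elim
  | _ + 1, 0, _, _, h => by omega
  | j + 1, j' + 1, x, h, hj => by
    by_cases hx : F.o x = true ∧ F.act c x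
    · simp only [Frame.lb, if_pos hx]
    · simp only [Frame.lb, if_neg hx, good_lb F c j j' (F.bk x) (h.resolve_left hx) (by omega)]

omit [Fintype V] [DecidableEq V] in
theorem good_ch (G : Str V) (a : V → Prop) (κ : V → Bool) (i : Bool) :
    ∀ (j j' : ℕ) (x : V) (k : Bool), G.stop a κ i j x k → j ≤ j' →
      G.ch a κ i j' x k = G.ch a κ i j x k
  | 0, _, _, _, h, _ => h.elim
  | _ + 1, 0, _, _, _, h => by omega
  | j + 1, j' + 1, x, k, h, hj => by
    by_cases hx : a x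
    · simp only [Str.ch, if_pos hx]
    · simp only [Str.ch, if_neg hx, good_ch G a κ i j j' _ _ (h.resolve_left hx) (by omega)]

theorem good_kap (F : Frame V) (hb : 1 ≤ F.Lb) (c : V → Fin (n + 1)) (p : V → Bool)
    (hgap : ∀ x, F.found c (F.Lb - 1) x) (x : V) (hx : ¬(F.o x = true ∧ F.act c x)) :
    F.kap c p x = xor (F.o x) (F.kap c p (F.bk x)) := by
  have h1 := good_lb F c _ F.Lb _ (hgap (F.bk x)) (by omega)
  have h2 : F.lb c F.Lb x = ((F.lb c (F.Lb - 1) (F.bk x)).1,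
      xor (F.o x) (F.lb c (F.Lb - 1) (F.bk x)).2) := by
    obtain ⟨L0, hL⟩ : ∃ L0, F.Lb = L0 + 1 := ⟨F.Lb - 1, by omega⟩
    rw [hL, Nat.add_sub_cancel, Frame.lb, if_neg hx]
  simp only [Frame.kap, h1, h2]
  exact Bool.xor_left_comm _ _ _

theorem good_tau (F : Frame V) (hb : 1 ≤ F.Lb) (c : V → Fin (n + 1)) (p : V → Bool)
    (hgap : ∀ x, F.found c (F.Lb - 1) x) (x : V) : F.kap c p (F.toStr.tau x) = F.kap c p x := by
  cases ho : F.o x with
  | false =>
    rw [good_kap F hb c p hgap x (by simp [ho]), ho, Bool.false_xor, Frame.bk, ho]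
    rfl
  | true =>
    have ho' : F.o (F.toStr.tau x) = false := by rw [F.ot, ho, Bool.not_true]
    have ht : F.toStr.tau (F.toStr.tau x) = x := by
      simp only [Str.tau, Equiv.symm_apply_apply, F.mm, Equiv.apply_symm_apply]
    rw [good_kap F hb c p hgap _ (by simp [ho']), ho', Bool.false_xor, Frame.bk, ho']
    exact congrArg _ ht

theorem good_m (F : Frame V) (hb : 1 ≤ F.Lb) (c : V → Fin (n + 1)) (p : V → Bool)
    (hgap : ∀ x, F.found c (F.Lb - 1) x) (x : V) (hx : ¬F.act c x) :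
    F.kap c p (F.m x) = !F.kap c p x := by
  cases ho : F.o x with
  | true =>
    rw [good_kap F hb c p hgap x fun h => hx h.2, ho, Bool.true_xor, Bool.not_not, Frame.bk, ho]
    rfl
  | false =>
    have ho' : F.o (F.m x) = true := by rw [F.om, ho, Bool.not_false]
    have hx' : ¬F.act c (F.m x) := fun h => hx (by
      rcases h with h | h
      · exact Or.inr h
      · exact Or.inl (by rwa [F.mm] at h))
    rw [good_kap F hb c p hgap _ fun h => hx' h.2, ho', Bool.true_xor, Frame.bk, ho', if_pos rfl,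
      F.mm]

end

theorem good_rel {V : Type} [Fintype V] [DecidableEq V] {n : ℕ} (F : Frame V) (hb : 1 ≤ F.Lb)
    (hc : 1 ≤ F.Lc) (ω : Om3 V n) (hgap : ∀ x, ¬ F.gap x ω)
    (hlong : ∀ i k x, ¬ F.long i k x ω) (x : V) (hx : ¬ F.act ω.1 x) :
    F.toStr.Rel (F.kap ω.1 ω.2.1) (F.bits ω.1 ω.2.1 ω.2.2) x := by
  have hg : ∀ x, F.found ω.1 (F.Lb - 1) x := fun x => not_not.1 (hgap x)
  have hs : ∀ x, F.kap ω.1 ω.2.1 (F.s (F.m x)) = F.kap ω.1 ω.2.1 (F.s x) := fun x => by
    rw [← good_tau F hb ω.1 ω.2.1 hg (F.s x), Str.tau, Equiv.symm_apply_apply]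
  have hn : ∀ t, F.kap ω.1 ω.2.1 (F.toStr.nx t x) = F.kap ω.1 ω.2.1 (F.s x) := fun t => by
    cases t
    · rfl
    · exact hs x
  have hv : ∀ i, F.bitv ω.1 ω.2.1 ω.2.2 i x = !F.bitv ω.1 ω.2.1 ω.2.2 i
      (F.toStr.nx (turn i (F.kap ω.1 ω.2.1 x) (F.kap ω.1 ω.2.1 (F.s x))) x) := fun i => by
    have h1 := good_ch F.toStr _ _ i _ F.Lc _ _ (not_not.1 (hlong i (F.kap ω.1 ω.2.1 (F.s x))
      (F.toStr.nx (turn i (F.kap ω.1 ω.2.1 x) (F.kap ω.1 ω.2.1 (F.s x))) x))) (by omega)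
    obtain ⟨L1, hL⟩ : ∃ L1, F.Lc = L1 + 1 := ⟨F.Lc - 1, by omega⟩
    rw [Frame.bitv, Frame.bitv, hn, h1, hL, Nat.add_sub_cancel, Str.ch, if_neg hx]
    exact Bool.xor_not _ _
  refine ⟨good_m F hb _ _ hg x hx, hs x, Prod.ext ?_ ?_⟩
  · refine (hv false).trans ?_
    simp only [nb]
    cases turn false (F.kap ω.1 ω.2.1 x) (F.kap ω.1 ω.2.1 (F.s x)) <;> rfl
  · refine (hv true).trans ?_
    simp only [nb]
    cases turn true (F.kap ω.1 ω.2.1 x) (F.kap ω.1 ω.2.1 (F.s x)) <;> rfl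

end Pool.Agent.TC
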