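import Pool.Agent.Work.MP_0b08b2_co.Prob

set_option autoImplicit false

/-! A local lemma for events with adaptive query sets.

Proof of `lll_fun`: put `lam = 1 + 1 / M`, `Good U ω := ∀ i, B i ω → ¬ Q i ω ⊆ U` (it is `Det` on
`U` by `h1`). Show by strong induction on `U.card`: for all `v ∉ U`,
`pr (Good U) ≤ lam * pr (Good (insert v U))`. Iterating the induction hypothesis gives
`pr (Good (U \ S)) ≤ lam ^ S.card * pr (Good U)` for all `S` (remove one point at a time; only sets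
of smaller cardinality are used). Now `Good U ω ∧ ¬ Good (insert v U) ω` gives `i` and
`S = Q i ω` with `v ∈ S ⊆ insert v U`, `B i ω`, and `Good (U \ S) ω` (Good is antitone in `U`).
The event `B i ω ∧ Q i ω = S` is `Det` on `S`, so by `pr_indep` its intersection with
`Good (U \ S)` has probability at most `pr (B i ∧ Q i = S) * lam ^ (M - 1) * pr (Good U)`
(`U \ S = U \ (S.erase v)`, `(S.erase v).card ≤ M - 1`). Summing over `S` (`pr_eq_sum_fiber`) and `i`:
`pr (Good U) - pr (Good (insert v U)) ≤ lam ^ (M - 1) / (3 * M) * pr (Good U)`, and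
`lam ^ M ≤ exp 1 ≤ 3` gives `lam * (1 - lam ^ (M - 1) / (3 * M)) ≥ lam - 1 / M = 1`.
Finally `pr (Good ∅) = 1` (query sets are nonempty), so `pr (Good univ) > 0`.
`lll` follows by transport along the obvious equivalence
`Om3 V n ≃ (V → Fin (n + 1) × Bool × (Bool → Bool))`. -/

namespace Pool.Agent.TC

theorem lll_iter {V : Type} [DecidableEq V] (G : Finset V → ℝ) (hG : ∀ U, 0 ≤ G U) (lam : ℝ)
    (hl : 1 ≤ lam) (U : Finset V)
    (ih : ∀ W : Finset V, W.card < U.card → ∀ v, v ∉ W → G W ≤ lam * G (insert v W))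
    (S : Finset V) : G (U \ S) ≤ lam ^ S.card * G U := by
  induction S using Finset.induction_on with
  | empty => simp
  | insert a S ha hS =>
    rw [Finset.card_insert_of_notMem ha, pow_succ', mul_assoc, Finset.sdiff_insert]
    by_cases h : a ∈ U \ S
    · have h1 : ((U \ S).erase a).card < U.card :=
        (Finset.card_erase_lt_of_mem h).trans_le (Finset.card_le_card Finset.sdiff_subset)
      have h2 := ih _ h1 a (Finset.notMem_erase a _)
      rw [Finset.insert_erase h] at h2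
      exact h2.trans (mul_le_mul_of_nonneg_left hS (by linarith))
    · rw [Finset.erase_eq_of_notMem h]
      have h0 : 0 ≤ lam ^ S.card * G U := mul_nonneg (pow_nonneg (by linarith) _) (hG U)
      nlinarith

theorem lll_pow (M : ℕ) (hM : 0 < M) : (1 + 1 / (M : ℝ)) ^ M ≤ 3 := by
  have hM' : (0 : ℝ) < M := by exact_mod_cast hM
  have h1 : (1 + 1 / (M : ℝ)) ≤ Real.exp (1 / M) := by
    have := Real.add_one_le_exp (1 / (M : ℝ))
    linarith
  have h2 : (1 + 1 / (M : ℝ)) ^ M ≤ Real.exp (1 / M) ^ M :=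
    pow_le_pow_left₀ (by positivity) h1 M
  rw [← Real.exp_nat_mul, mul_one_div_cancel hM'.ne'] at h2
  have := Real.exp_one_lt_d9
  linarith

/-- No bad event with query set inside `U` occurs. -/
def lll_Good {V A I : Type} (B : I → (V → A) → Prop) (Q : I → (V → A) → Finset V)
    (U : Finset V) (ω : V → A) : Prop := ∀ i, B i ω → ¬ Q i ω ⊆ U

theorem lll_step {V A I : Type} [Fintype V] [DecidableEq V] [Fintype A] [Nonempty A] [Fintype I]
    (B : I → (V → A) → Prop) (Q : I → (V → A) → Finset V) (M : ℕ)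
    (h1 : ∀ i ω ω', B i ω → (∀ v ∈ Q i ω, ω v = ω' v) → B i ω' ∧ Q i ω' = Q i ω)
    (h2 : ∀ i ω, B i ω → (Q i ω).Nonempty ∧ (Q i ω).card ≤ M)
    (U : Finset V) (v : V) (hv : v ∉ U) (c : ℝ)
    (hc : ∀ S : Finset V, S.card ≤ M - 1 → pr (lll_Good B Q (U \ S)) ≤ c) :
    pr (lll_Good B Q U) ≤ pr (lll_Good B Q (insert v U)) +
      (∑ i, pr (fun ω => B i ω ∧ v ∈ Q i ω)) * c := by
  have hdet : ∀ W, Det (lll_Good B Q W) W := by
    intro W ω ω' hW hg i hB hsub
    obtain ⟨hB', hQ⟩ := h1 i ω' ω hB fun x hx => (hW x (hsub hx)).symm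
    exact hg i hB' (hQ ▸ hsub)
  have e1 : pr (lll_Good B Q U) ≤ pr (fun ω => lll_Good B Q (insert v U) ω ∨
      ∃ i ∈ (Finset.univ : Finset I),
        (B i ω ∧ v ∈ Q i ω) ∧ lll_Good B Q (U \ Q i ω) ω) := by
    refine pr_mono fun ω hg => ?_
    by_cases hg' : lll_Good B Q (insert v U) ω
    · exact Or.inl hg'
    · right
      simp only [lll_Good, not_forall, not_not] at hg'
      obtain ⟨i, hB, hsub⟩ := hg'
      refine ⟨i, Finset.mem_univ _, ⟨hB, ?_⟩, fun j hj hs => hg j hj (hs.trans Finset.sdiff_subset)⟩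
      by_contra hvQ
      exact hg i hB ((Finset.subset_insert_iff_of_notMem hvQ).mp hsub)
  refine e1.trans ((pr_or_le _ _).trans (add_le_add le_rfl ((pr_exists_le _ _).trans ?_)))
  rw [Finset.sum_mul]
  refine Finset.sum_le_sum fun i _ => ?_
  rw [pr_eq_sum_fiber Finset.univ (Q i) _ fun _ _ => Finset.mem_univ _,
    pr_eq_sum_fiber Finset.univ (Q i) (fun ω => B i ω ∧ v ∈ Q i ω) fun _ _ => Finset.mem_univ _,
    Finset.sum_mul]
  refine Finset.sum_le_sum fun S _ => ?_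
  have hE : Det (fun ω => (B i ω ∧ v ∈ Q i ω) ∧ Q i ω = S) S := by
    rintro ω ω' hS ⟨⟨hB, hvQ⟩, hQ⟩
    obtain ⟨hB', hQ'⟩ := h1 i ω ω' hB (hQ ▸ hS)
    exact ⟨⟨hB', hQ' ▸ hvQ⟩, hQ'.trans hQ⟩
  have e2 : pr (fun ω => ((B i ω ∧ v ∈ Q i ω) ∧ lll_Good B Q (U \ Q i ω) ω) ∧ Q i ω = S) =
      pr (fun ω => ((B i ω ∧ v ∈ Q i ω) ∧ Q i ω = S) ∧ lll_Good B Q (U \ S) ω) := by
    refine pr_congr fun ω => ⟨?_, ?_⟩
    · rintro ⟨⟨h, hg⟩, rfl⟩
      exact ⟨⟨h, rfl⟩, hg⟩
    · rintro ⟨⟨h, rfl⟩, hg⟩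
      exact ⟨⟨h, hg⟩, rfl⟩
  rw [e2, pr_indep hE (hdet _) Finset.disjoint_sdiff]
  by_cases hex : ∃ ω, (B i ω ∧ v ∈ Q i ω) ∧ Q i ω = S
  · obtain ⟨ω, ⟨hB, hvQ⟩, rfl⟩ := hex
    refine mul_le_mul_of_nonneg_left ?_ (pr_nonneg _)
    have e3 : U \ Q i ω = U \ (Q i ω).erase v := by
      ext x
      simp only [Finset.mem_sdiff, Finset.mem_erase, not_and]
      constructor
      · exact fun h => ⟨h.1, fun _ => h.2⟩
      · exact fun h => ⟨h.1, h.2 fun hx => hv (hx ▸ h.1)⟩
    rw [e3]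
    refine hc _ ?_
    rw [Finset.card_erase_of_mem hvQ]
    exact Nat.sub_le_sub_right (h2 i ω hB).2 1
  · rw [pr_eq_zero fun ω h => hex ⟨ω, h⟩]
    simp

theorem lll_fun {V A I : Type} [Fintype V] [DecidableEq V] [Fintype A] [Nonempty A] [Fintype I]
    (B : I → (V → A) → Prop) (Q : I → (V → A) → Finset V) (M : ℕ) (hM : 0 < M)
    (h1 : ∀ i ω ω', B i ω → (∀ v ∈ Q i ω, ω v = ω' v) → B i ω' ∧ Q i ω' = Q i ω)
    (h2 : ∀ i ω, B i ω → (Q i ω).Nonempty ∧ (Q i ω).card ≤ M)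
    (h3 : ∀ v, ∑ i, pr (fun ω => B i ω ∧ v ∈ Q i ω) ≤ 1 / (3 * (M : ℝ))) :
    ∃ ω, ∀ i, ¬ B i ω := by
  have hM' : (0 : ℝ) < M := by exact_mod_cast hM
  set lam : ℝ := 1 + 1 / (M : ℝ) with hlam
  have hl : 1 ≤ lam := by
    have : (0 : ℝ) ≤ 1 / M := by positivity
    linarith
  have hG : ∀ U, 0 ≤ pr (lll_Good B Q U) := fun U => pr_nonneg _
  have key : ∀ k, ∀ U : Finset V, U.card = k → ∀ v, v ∉ U →
      pr (lll_Good B Q U) ≤ lam * pr (lll_Good B Q (insert v U)) := by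
    intro k
    induction k using Nat.strong_induction_on with
    | _ k ih =>
      intro U hU v hv
      have hit := lll_iter (fun W => pr (lll_Good B Q W)) hG lam hl U
        fun W hW => ih W.card (hU ▸ hW) W rfl
      have hc0 : 0 ≤ lam ^ (M - 1) * pr (lll_Good B Q U) :=
        mul_nonneg (pow_nonneg (by linarith) _) (hG U)
      have hs := lll_step B Q M h1 h2 U v hv (lam ^ (M - 1) * pr (lll_Good B Q U))
        fun S hS => (hit S).trans
          (mul_le_mul_of_nonneg_right (pow_le_pow_right₀ hl hS) (hG U))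
      have hs2 := mul_le_mul_of_nonneg_right (h3 v) hc0
      have hp : lam * lam ^ (M - 1) ≤ 3 := by
        rw [← pow_succ', Nat.sub_add_cancel hM]
        exact lll_pow M hM
      have hq : lam * (1 / (3 * (M : ℝ)) * (lam ^ (M - 1) * pr (lll_Good B Q U))) ≤
          1 / M * pr (lll_Good B Q U) := by
        have e : lam * (1 / (3 * (M : ℝ)) * (lam ^ (M - 1) * pr (lll_Good B Q U))) =
            (lam * lam ^ (M - 1)) / 3 * (1 / M * pr (lll_Good B Q U)) := by
          field_simp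
        rw [e]
        exact mul_le_of_le_one_left (mul_nonneg (by positivity) (hG U)) (by linarith)
      have hr := mul_le_mul_of_nonneg_left (hs.trans (add_le_add le_rfl hs2))
        (show 0 ≤ lam by linarith)
      rw [mul_add] at hr
      have e : lam * pr (lll_Good B Q U) = pr (lll_Good B Q U) + 1 / M * pr (lll_Good B Q U) := by
        rw [hlam]
        ring
      linarith
  have hit := lll_iter (fun W => pr (lll_Good B Q W)) hG lam hl Finset.univ
    (fun W _ => key W.card W rfl) Finset.univ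
  have h0 : pr (lll_Good B Q (Finset.univ \ Finset.univ)) = 1 := by
    rw [← pr_true (Ω := V → A)]
    refine pr_congr fun ω => ⟨fun _ => trivial, fun _ i hB hs => ?_⟩
    obtain ⟨x, hx⟩ := (h2 i ω hB).1
    simpa using hs hx
  have hpos : 0 < pr (lll_Good B Q Finset.univ) := by
    refine lt_of_le_of_ne (hG _) fun h => ?_
    simp only [h0, ← h, mul_zero] at hit
    linarith
  obtain ⟨ω, hω⟩ := exists_of_pr_pos hpos
  exact ⟨ω, fun i hB => hω i hB (Finset.subset_univ _)⟩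

/-- Regrouping of the sample space by vertices. -/
def lll_eqv (V : Type) (n : ℕ) : (V → Fin (n + 1) × Bool × (Bool → Bool)) ≃ Om3 V n where
  toFun ω := (fun v => (ω v).1, fun v => (ω v).2.1, fun z => (ω z.1).2.2 z.2)
  invFun ω := fun v => (ω.1 v, ω.2.1 v, fun i => ω.2.2 (v, i))
  left_inv _ := rfl
  right_inv _ := rfl

theorem lll {V I : Type} [Fintype V] [DecidableEq V] [Fintype I] {n : ℕ}
    (B : I → Om3 V n → Prop) (Q : I → Om3 V n → Finset V) (M : ℕ) (hM : 0 < M)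
    (h1 : ∀ i ω ω', B i ω → Agree ω ω' (Q i ω) → B i ω' ∧ Q i ω' = Q i ω)
    (h2 : ∀ i ω, B i ω → (Q i ω).Nonempty ∧ (Q i ω).card ≤ M)
    (h3 : ∀ v, ∑ i, pr (fun ω => B i ω ∧ v ∈ Q i ω) ≤ 1 / (3 * (M : ℝ))) :
    ∃ ω, ∀ i, ¬ B i ω := by
  obtain ⟨ω, hω⟩ := lll_fun (fun i ω => B i (lll_eqv V n ω)) (fun i ω => Q i (lll_eqv V n ω)) M hM
    (fun i ω ω' hB h => h1 i _ _ hB fun v hv => by
      have := h v hv
      simp only [lll_eqv, Equiv.coe_fn_mk, this, and_self, implies_true])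
    (fun i ω hB => h2 i _ hB)
    (fun v => by
      refine le_of_eq_of_le (Finset.sum_congr rfl fun i _ => ?_) (h3 v)
      exact pr_equiv (lll_eqv V n) fun ω => B i ω ∧ v ∈ Q i ω)
  exact ⟨_, hω⟩

end Pool.Agent.TC
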