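import Pool.Agent.Work.MP_0b08b2_co.Defs

set_option autoImplicit false

/-! Probability by counting. -/

namespace Pool.Agent.TC

section
variable {Ω : Type} [Fintype Ω]

theorem pr_nonneg (E : Ω → Prop) : 0 ≤ pr E :=
  div_nonneg (Nat.cast_nonneg _) (Nat.cast_nonneg _)

theorem pr_le_one (E : Ω → Prop) : pr E ≤ 1 :=
  div_le_one_of_le₀ (Nat.cast_le.2 (Finset.card_le_univ _)) (Nat.cast_nonneg _)

theorem pr_mono {E E' : Ω → Prop} (h : ∀ ω, E ω → E' ω) : pr E ≤ pr E' := by
  classical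
  refine div_le_div_of_nonneg_right (Nat.cast_le.2 (Finset.card_le_card fun ω hω => ?_))
    (Nat.cast_nonneg _)
  exact Finset.mem_filter.2 ⟨Finset.mem_univ _, h ω (Finset.mem_filter.1 hω).2⟩

theorem pr_congr {E E' : Ω → Prop} (h : ∀ ω, E ω ↔ E' ω) : pr E = pr E' :=
  congrArg pr (funext fun ω => propext (h ω))

theorem pr_eq_zero {E : Ω → Prop} (h : ∀ ω, ¬ E ω) : pr E = 0 := by
  simp [pr, h]

theorem pr_true [Nonempty Ω] : pr (fun _ : Ω => True) = 1 := by
  simp [pr]

theorem exists_of_pr_pos {E : Ω → Prop} (h : 0 < pr E) : ∃ ω, E ω := by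
  by_contra h0
  exact h.ne' (pr_eq_zero (not_exists.1 h0))

open Classical in
theorem prob_sum (E : Ω → Prop) :
    pr E = (∑ ω, if E ω then (1 : ℝ) else 0) / (Fintype.card Ω : ℝ) := by
  rw [pr, Finset.sum_boole]

theorem pr_or_le (E E' : Ω → Prop) : pr (fun ω => E ω ∨ E' ω) ≤ pr E + pr E' := by
  classical
  rw [prob_sum, prob_sum, prob_sum, ← add_div, ← Finset.sum_add_distrib]
  refine div_le_div_of_nonneg_right (Finset.sum_le_sum fun ω _ => ?_) (Nat.cast_nonneg _)
  by_cases h1 : E ω <;> by_cases h2 : E' ω <;> simp [h1, h2]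

theorem pr_not [Nonempty Ω] (E : Ω → Prop) : pr (fun ω => ¬ E ω) = 1 - pr E := by
  classical
  rw [eq_sub_iff_add_eq, ← pr_true (Ω := Ω), prob_sum, prob_sum, prob_sum, ← add_div,
    ← Finset.sum_add_distrib]
  congr 1
  refine Finset.sum_congr rfl fun ω _ => ?_
  by_cases h1 : E ω <;> simp [h1]

theorem pr_exists_le {ι : Type} (s : Finset ι) (E : ι → Ω → Prop) :
    pr (fun ω => ∃ i ∈ s, E i ω) ≤ ∑ i ∈ s, pr (E i) := by
  classical
  induction s using Finset.induction_on with
  | empty => exact (pr_eq_zero (by simp)).le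
  | insert a s ha ih =>
    rw [Finset.sum_insert ha, pr_congr (E' := fun ω => E a ω ∨ ∃ i ∈ s, E i ω) (by simp)]
    exact (pr_or_le _ _).trans (add_le_add_right ih _)

/-- Decomposition according to the value of a function with values in a finite set. -/
theorem pr_eq_sum_fiber {ι : Type} [DecidableEq ι] (s : Finset ι) (g : Ω → ι) (E : Ω → Prop)
    (h : ∀ ω, E ω → g ω ∈ s) : pr E = ∑ i ∈ s, pr (fun ω => E ω ∧ g ω = i) := by
  classical
  simp only [prob_sum]
  rw [← Finset.sum_div, Finset.sum_comm]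
  congr 1
  refine Finset.sum_congr rfl fun ω _ => ?_
  by_cases h1 : E ω
  · simp [h1, h ω h1]
  · simp [h1]

theorem pr_equiv {Ω' : Type} [Fintype Ω'] (e : Ω ≃ Ω') (E : Ω' → Prop) :
    pr (fun ω => E (e ω)) = pr E := by
  classical
  rw [prob_sum, prob_sum, Fintype.card_congr e]
  congr 1
  exact Fintype.sum_equiv e _ _ fun _ => rfl

theorem pr_eq_card_mul [Nonempty Ω] (E : Ω → Prop) [DecidablePred E] :
    pr E * (Fintype.card Ω : ℝ) = ((Finset.univ.filter E).card : ℝ) := by
  rw [pr, div_mul_cancel₀ _ (Nat.cast_ne_zero.2 Fintype.card_ne_zero)]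
  congr

end

section
variable {A B : Type} [Fintype A] [Fintype B]

theorem pr_prod_mul (E : A → Prop) (F : B → Prop) :
    pr (fun ω : A × B => E ω.1 ∧ F ω.2) = pr E * pr F := by
  classical
  rw [prob_sum, prob_sum, prob_sum, div_mul_div_comm, Finset.sum_mul_sum, Fintype.sum_prod_type,
    Fintype.card_prod, Nat.cast_mul]
  congr 1
  refine Finset.sum_congr rfl fun a _ => Finset.sum_congr rfl fun b _ => ?_
  by_cases h1 : E a <;> by_cases h2 : F b <;> simp [h1, h2]

theorem pr_fst [Nonempty B] (E : A → Prop) : pr (fun ω : A × B => E ω.1) = pr E := by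
  rw [← mul_one (pr E), ← pr_true (Ω := B), ← pr_prod_mul]
  exact pr_congr (by simp)

theorem prob_snd [Nonempty A] (E : B → Prop) : pr (fun ω : A × B => E ω.2) = pr E := by
  rw [← one_mul (pr E), ← pr_true (Ω := A), ← pr_prod_mul]
  exact pr_congr (by simp)

theorem pr_prod_le (E : A × B → Prop) (F : A → Prop) (δ : ℝ) (hδ : 0 ≤ δ)
    (h0 : ∀ a b, E (a, b) → F a) (h : ∀ a, F a → pr (fun b => E (a, b)) ≤ δ) :
    pr E ≤ δ * pr F := by
  classical
  have h1 : pr E = (∑ a, pr fun b => E (a, b)) / (Fintype.card A : ℝ) := by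
    simp only [prob_sum]
    rw [← Finset.sum_div, Fintype.sum_prod_type, Fintype.card_prod, Nat.cast_mul, div_div,
      mul_comm]
  have h2 := mul_nonneg hδ (pr_nonneg F)
  rw [h1, prob_sum F, ← mul_div_assoc, Finset.mul_sum]
  refine div_le_div_of_nonneg_right (Finset.sum_le_sum fun a _ => ?_) (Nat.cast_nonneg _)
  by_cases ha : F a
  · rw [if_pos ha, mul_one]
    exact h a ha
  · rw [if_neg ha, mul_zero]
    exact (pr_eq_zero fun b hb => ha (h0 a b hb)).le

end

theorem prob_indep {V A : Type} [Fintype V] [DecidableEq V] [Fintype A] [Nonempty A]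
    {E E' : (V → A) → Prop} {S T : Finset V}
    (hE : ∀ ω ω', (∀ v ∈ S, ω v = ω' v) → E ω → E ω')
    (hE' : ∀ ω ω', (∀ v ∈ T, ω v = ω' v) → E' ω → E' ω')
    (hST : Disjoint S T) : pr (fun ω => E ω ∧ E' ω) = pr E * pr E' := by
  obtain ⟨a⟩ := ‹Nonempty A›
  let e := Equiv.piEquivPiSubtypeProd (· ∈ S) fun _ : V => A
  let E₁ : ({x // x ∈ S} → A) → Prop := fun x => E (e.symm (x, fun _ => a))
  let E₂ : ({x // x ∉ S} → A) → Prop := fun y => E' (e.symm (fun _ => a, y))
  have h1 : ∀ ω, E ω ↔ E₁ (e ω).1 := fun ω =>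
    ⟨hE _ _ fun v hv => by simp [e, hv], hE _ _ fun v hv => by simp [e, hv]⟩
  have h2 : ∀ ω, E' ω ↔ E₂ (e ω).2 := fun ω =>
    ⟨hE' _ _ fun v hv => by simp [e, Finset.disjoint_right.1 hST hv],
      hE' _ _ fun v hv => by simp [e, Finset.disjoint_right.1 hST hv]⟩
  rw [pr_congr fun ω => and_congr (h1 ω) (h2 ω), pr_congr h1, pr_congr h2,
    pr_equiv e fun p => E₁ p.1 ∧ E₂ p.2, pr_equiv e fun p => E₁ p.1, pr_equiv e fun p => E₂ p.2,
    pr_prod_mul, pr_fst, prob_snd]

theorem prob_coord {V A : Type} [Fintype V] [DecidableEq V] [Fintype A] [Nonempty A] (v : V)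
    (a : A) : pr (fun ω : V → A => ω v = a) = 1 / (Fintype.card A : ℝ) := by
  classical
  have h := pr_equiv (Equiv.funSplitAt v A) fun p => p.1 = a
  rw [pr_fst fun x : A => x = a] at h
  refine h.trans ?_
  simp [prob_sum]

/-- Cylinder sets of fair bits. -/
theorem pr_cyl {J I : Type} [Fintype J] [DecidableEq J] (s : Finset I) (ι : I → J)
    (hι : Set.InjOn ι s) (t : I → Bool) :
    pr (fun f : J → Bool => ∀ i ∈ s, f (ι i) = t i) ≤ (1 / 2 : ℝ) ^ s.card := by
  classical
  induction s using Finset.induction_on with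
  | empty => exact (pr_le_one _).trans_eq (pow_zero _).symm
  | insert a s ha ih =>
    rw [pr_congr (E' := fun f : J → Bool => f (ι a) = t a ∧ ∀ i ∈ s, f (ι i) = t i) (by simp),
      prob_indep (S := {ι a}) (T := s.image ι), prob_coord, Finset.card_insert_of_notMem ha,
      pow_succ', Fintype.card_bool, Nat.cast_ofNat]
    · exact mul_le_mul_of_nonneg_left (ih (hι.mono (by simp))) (by norm_num)
    · intro ω ω' h1 h2
      rw [← h1 _ (Finset.mem_singleton_self _), h2]
    · intro ω ω' h1 h2 i hi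
      rw [← h1 _ (Finset.mem_image_of_mem ι hi), h2 i hi]
    · rw [Finset.disjoint_singleton_left, Finset.mem_image]
      rintro ⟨i, hi, e⟩
      exact ha (hι (by simp [hi]) (by simp) e ▸ hi)

/-- The event only depends on the coordinates in `S`. -/
def Det {V A : Type} (E : (V → A) → Prop) (S : Finset V) : Prop :=
  ∀ ω ω', (∀ v ∈ S, ω v = ω' v) → E ω → E ω'

/-- Hint: `Equiv.piEquivPiSubtypeProd (· ∈ S)`, `pr_equiv`, `pr_prod_mul`. -/
theorem pr_indep {V A : Type} [Fintype V] [DecidableEq V] [Fintype A] [Nonempty A]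
    {E E' : (V → A) → Prop} {S T : Finset V} (hE : Det E S) (hE' : Det E' T)
    (hST : Disjoint S T) : pr (fun ω => E ω ∧ E' ω) = pr E * pr E' :=
  prob_indep hE hE' hST

theorem pr_coord {V A : Type} [Fintype V] [DecidableEq V] [Fintype A] [Nonempty A] (v : V)
    (a : A) : pr (fun ω : V → A => ω v = a) = 1 / (Fintype.card A : ℝ) :=
  prob_coord v a

end Pool.Agent.TC
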