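import Pool.Agent.Work.MP_0b08b2_co.Defs

set_option autoImplicit false

/-! Soundness of the tables. -/

namespace Pool.Agent.TC

def opts : List (Fin 4 × Fin 4 × List (Fin 4 × Fin 4 × Fin 4)) :=
  [(0, 1, [(2, 1, 3), (2, 3, 1), (3, 1, 2), (3, 2, 1)]),
   (0, 2, [(1, 2, 3), (1, 3, 2), (3, 1, 2), (3, 2, 1)]),
   (0, 3, [(1, 2, 3), (1, 3, 2), (2, 1, 3), (2, 3, 1)]),
   (1, 0, [(2, 0, 3), (2, 3, 0), (3, 0, 2), (3, 2, 0)]),
   (1, 2, [(0, 2, 3), (0, 3, 2), (3, 0, 2), (3, 2, 0)]),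
   (1, 3, [(0, 2, 3), (0, 3, 2), (2, 0, 3), (2, 3, 0)]),
   (2, 0, [(1, 0, 3), (1, 3, 0), (3, 0, 1), (3, 1, 0)]),
   (2, 1, [(0, 1, 3), (0, 3, 1), (3, 0, 1), (3, 1, 0)]),
   (2, 3, [(0, 1, 3), (0, 3, 1), (1, 0, 3), (1, 3, 0)]),
   (3, 0, [(1, 0, 2), (1, 2, 0), (2, 0, 1), (2, 1, 0)]),
   (3, 1, [(0, 1, 2), (0, 2, 1), (2, 0, 1), (2, 1, 0)]),
   (3, 2, [(0, 1, 2), (0, 2, 1), (1, 0, 2), (1, 2, 0)])]

def okPair (q1 q2 : Fin 4 → Fin 4) (j j1 j2 : ℕ) : Bool :=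
  j == 0 || opts.all fun o => !(mem j o.1 o.2.1) || o.2.2.any fun t =>
    mem j1 (q1 t.2.1) (q1 t.1) && mem j2 (q2 t.2.2) (q2 t.1)

def okT (T : ℕ) (q1 q2 : Fin 4 → Fin 4) : Bool :=
  (List.range 64).all fun j1 => (List.range 64).all fun j2 => okPair q1 q2 (tab T j1 j2) j1 j2

/-- Ones at the multiples of 16. -/
def spOnes : ℕ := (2 ^ 1024 - 1) / 65535

/-- The messages of row `R` of a table, 16 bits each. -/
def spNeed (R n : ℕ) : ℕ :=
  Nat.rec 0 (fun j ih => Nat.lor ih (Nat.shiftLeft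
    (Nat.mod (Nat.shiftRight NM (Nat.mul 16 (Nat.mod (Nat.shiftRight R (Nat.mul 6 j)) 64))) 65536)
    (Nat.mul 16 j))) n

def spVec (q1 q2 : Fin 4 → Fin 4) (j1 : ℕ) : List (Fin 4 × Fin 4 × Fin 4) → ℕ
  | [] => 0
  | t :: l => cond (mem j1 (q1 t.2.1) (q1 t.1))
      (Nat.lor (Nat.shiftRight NM (4 * (q2 t.2.2).val + (q2 t.1).val)) (spVec q1 q2 j1 l))
      (spVec q1 q2 j1 l)

def spSub (N V : ℕ) : Bool := Nat.beq (Nat.land N V) N

def spRow (q1 q2 : Fin 4 → Fin 4) (j1 E : ℕ) : Bool :=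
  opts.all fun o =>
    spSub (Nat.land (Nat.shiftRight E (4 * o.1.val + o.2.1.val)) spOnes) (spVec q1 q2 j1 o.2.2)

def spOk (T : ℕ) (q1 q2 : Fin 4 → Fin 4) : Bool :=
  (List.range 64).all fun j1 => spRow q1 q2 j1 (spNeed (Nat.shiftRight T (Nat.mul 384 j1)) 64)

theorem spOnes_bit : ∀ j < 64, spOnes.testBit (16 * j) = true := by decide +kernel

theorem spNeed_bit (R n j b : ℕ) (hj : j < n) (hb : b < 16)
    (h : NM.testBit (16 * ((R >>> (6 * j)) % 64) + b) = true) :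
    (spNeed R n).testBit (16 * j + b) = true := by
  induction n with
  | zero => omega
  | succ n ih =>
    change (spNeed R n ||| ((NM >>> (16 * ((R >>> (6 * n)) % 64))) % 2 ^ 16) <<< (16 * n)).testBit
      (16 * j + b) = true
    rw [Nat.testBit_or, Bool.or_eq_true]
    rcases Nat.lt_succ_iff_lt_or_eq.1 hj with h1 | rfl
    · exact Or.inl (ih h1)
    · right
      rw [Nat.testBit_shiftLeft, Nat.add_sub_cancel_left, Nat.testBit_mod_two_pow,
        Nat.testBit_shiftRight, h]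
      simp [hb]

theorem spVec_bit (q1 q2 : Fin 4 → Fin 4) (j1 j2 : ℕ) (l : List (Fin 4 × Fin 4 × Fin 4))
    (h : (spVec q1 q2 j1 l).testBit (16 * j2) = true) :
    (l.any fun t => mem j1 (q1 t.2.1) (q1 t.1) && mem j2 (q2 t.2.2) (q2 t.1)) = true := by
  induction l with
  | nil => simp [spVec] at h
  | cons t l ih =>
    rw [List.any_cons, Bool.or_eq_true]
    unfold spVec at h
    cases hm : mem j1 (q1 t.2.1) (q1 t.1)
    · rw [hm] at h
      exact Or.inr (ih h)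
    · rw [hm] at h
      change (NM >>> (4 * (q2 t.2.2).val + (q2 t.1).val) ||| spVec q1 q2 j1 l).testBit (16 * j2) =
        true at h
      rw [Nat.testBit_or, Bool.or_eq_true, Nat.testBit_shiftRight] at h
      rcases h with h | h
      · left
        rw [Bool.true_and, mem, ← h]
        congr 1
        omega
      · exact Or.inr (ih h)

theorem okT_of_sp {T : ℕ} {q1 q2 : Fin 4 → Fin 4} (h : spOk T q1 q2 = true) :
    okT T q1 q2 = true := by
  simp only [spOk, spRow, List.all_eq_true, List.mem_range] at h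
  simp only [okT, List.all_eq_true, List.mem_range]
  intro j1 h1 j2 h2
  rw [okPair, Bool.or_eq_true]
  right
  rw [List.all_eq_true]
  intro o ho
  cases hm : mem (tab T j1 j2) o.1 o.2.1
  · rfl
  · rw [Bool.not_true, Bool.false_or]
    apply spVec_bit
    have h3 := Nat.eq_of_beq_eq_true (h j1 h1 o ho)
    have h4 : (spNeed (T >>> (384 * j1)) 64).testBit (16 * j2 + (4 * o.1.val + o.2.1.val)) = true := by
      apply spNeed_bit _ _ _ _ h2 (by omega)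
      rw [← Nat.shiftRight_add, ← Nat.add_assoc,
        show 384 * j1 + 6 * j2 = 6 * (64 * j1 + j2) by omega]
      exact hm
    have h5 : ((spNeed (T >>> (384 * j1)) 64 >>> (4 * o.1.val + o.2.1.val)) &&& spOnes).testBit
        (16 * j2) = true := by
      rw [Nat.testBit_and, Nat.testBit_shiftRight, Nat.add_comm, h4, spOnes_bit j2 h2]
      rfl
    change ((spNeed (T >>> (384 * j1)) 64 >>> (4 * o.1.val + o.2.1.val)) &&& spOnes) &&&
      spVec q1 q2 j1 o.2.2 =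
      (spNeed (T >>> (384 * j1)) 64 >>> (4 * o.1.val + o.2.1.val)) &&& spOnes at h3
    rw [← h3, Nat.testBit_and, Bool.and_eq_true] at h5
    exact h5.2

theorem okM : ∀ s : Bool, ∀ δ : Bool × Bool, okT (TM s δ) (qM1 s δ) (qM2 s δ) = true :=
  fun s δ => okT_of_sp ((by decide +kernel :
    ∀ s : Bool, ∀ δ : Bool × Bool, spOk (TM s δ) (qM1 s δ) (qM2 s δ) = true) s δ)
theorem okF : ∀ s : Bool, ∀ δ : Bool × Bool, okT (TF s δ) (qF1 s δ) (qF2 s δ) = true :=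
  fun s δ => okT_of_sp ((by decide +kernel :
    ∀ s : Bool, ∀ δ : Bool × Bool, spOk (TF s δ) (qF1 s δ) (qF2 s δ) = true) s δ)
theorem okB : ∀ s : Bool, ∀ δ : Bool × Bool, okT (TB s δ) (qB1 s δ) (qB2 s δ) = true :=
  fun s δ => okT_of_sp ((by decide +kernel :
    ∀ s : Bool, ∀ δ : Bool × Bool, spOk (TB s δ) (qB1 s δ) (qB2 s δ) = true) s δ)

theorem mem_diag : ∀ j < 64, ∀ a : Fin 4, mem j a a = false := by decide +kernel
theorem mem_zero : ∀ a c : Fin 4, mem 0 a c = false := by decide +kernel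
theorem opts_cover : ∀ a c : Fin 4, a ≠ c → ∃ o ∈ opts, o.1 = a ∧ o.2.1 = c := by decide +kernel
theorem opts_ok : ∀ o ∈ opts, ∀ t ∈ o.2.2, [o.1, t.1, t.2.1, t.2.2].Nodup ∧ t.1 ≠ o.2.1 := by
  decide +kernel
theorem gS_inj : ∀ σ : St, ∀ a c : Fin 4, gS σ a = gS σ c → a = c := by decide +kernel
theorem gS_surj : ∀ σ : St, ∀ A : Fin 4, ∃ a, gS σ a = A := by decide +kernel

theorem tab_lt (T j1 j2 : ℕ) : tab T j1 j2 < 64 := Nat.mod_lt _ (by norm_num)

theorem cmb_of_ok {T : ℕ} {q1 q2 : Fin 4 → Fin 4} (h : okT T q1 q2 = true) (σ σ1 σ2 : St)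
    (h1 : ∀ x, gS σ1 (q1 x) = gS σ x) (h2 : ∀ x, gS σ2 (q2 x) = gS σ x) {j1 j2 : ℕ}
    (hj1 : j1 < 64) (hj2 : j2 < 64) : Cmb (sem σ (tab T j1 j2)) (sem σ1 j1) (sem σ2 j2) := by
  rintro A C ⟨a, c, hm, rfl, rfl⟩
  have hp : okPair q1 q2 (tab T j1 j2) j1 j2 = true := by
    unfold okT at h
    rw [List.all_eq_true] at h
    have := h j1 (List.mem_range.2 hj1)
    rw [List.all_eq_true] at this
    exact this j2 (List.mem_range.2 hj2)
  have hac : a ≠ c := by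
    rintro rfl
    rw [mem_diag _ (tab_lt _ _ _)] at hm
    exact Bool.noConfusion hm
  unfold okPair at hp
  rw [Bool.or_eq_true] at hp
  rcases hp with hp | hp
  · have : tab T j1 j2 = 0 := by simpa using hp
    rw [this, mem_zero] at hm
    exact Bool.noConfusion hm
  · rw [List.all_eq_true] at hp
    obtain ⟨o, ho, rfl, rfl⟩ := opts_cover a c hac
    have h3 := hp o ho
    rw [hm] at h3
    simp only [Bool.not_true, Bool.false_or, List.any_eq_true, Bool.and_eq_true] at h3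
    obtain ⟨t, ht, m1, m2⟩ := h3
    obtain ⟨hnd, hne⟩ := opts_ok o ho t ht
    refine ⟨gS σ t.1, gS σ t.2.1, gS σ t.2.2, ?_, fun e => hne (gS_inj _ _ _ e),
      ⟨_, _, m1, h1 _, h1 _⟩, ⟨_, _, m2, h2 _, h2 _⟩⟩
    have : ([o.1, t.1, t.2.1, t.2.2].map (gS σ)).Nodup :=
      hnd.map (fun a c e => gS_inj σ a c e)
    simpa using this

theorem q_ok : ∀ (k y : Bool) (β1 β2 : Bool × Bool) (x : Fin 4),
    gS (y, β2) (qM1 (k == y) (rel y β1 β2) x) = gS (!k, nb (!k) y β2 β1) x ∧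
    gS (!k, nb (!k) y β2 β1) (qM2 (k == y) (rel y β1 β2) x) = gS (!k, nb (!k) y β2 β1) x ∧
    gS (y, β1) (qF1 (k == y) (rel y β1 β2) x) = gS (k, nb k y β1 β2) x ∧
    gS (!k, nb (!k) y β2 β1) (qF2 (k == y) (rel y β1 β2) x) = gS (k, nb k y β1 β2) x ∧
    gS (k, nb k y β1 β2) (qB1 (k == y) (rel y β1 β2) x) = gS (y, β1) x ∧
    gS (!k, nb (!k) y β2 β1) (qB2 (k == y) (rel y β1 β2) x) = gS (y, β1) x := by
  decide +kernel

theorem semM (k y : Bool) (β1 β2 : Bool × Bool) {j2 j3 : ℕ} (h2 : j2 < 64) (h3 : j3 < 64) :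
    Cmb (sem (!k, nb (!k) y β2 β1) (tab (TM (k == y) (rel y β1 β2)) j2 j3))
      (sem (y, β2) j2) (sem (!k, nb (!k) y β2 β1) j3) :=
  cmb_of_ok (okM _ _) _ _ _ (fun x => (q_ok k y β1 β2 x).1) (fun x => (q_ok k y β1 β2 x).2.1) h2 h3

theorem semF (k y : Bool) (β1 β2 : Bool × Bool) {j1 jm : ℕ} (h1 : j1 < 64) (hm : jm < 64) :
    Cmb (sem (k, nb k y β1 β2) (tab (TF (k == y) (rel y β1 β2)) j1 jm))
      (sem (y, β1) j1) (sem (!k, nb (!k) y β2 β1) jm) :=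
  cmb_of_ok (okF _ _) _ _ _ (fun x => (q_ok k y β1 β2 x).2.2.1)
    (fun x => (q_ok k y β1 β2 x).2.2.2.1) h1 hm

theorem semB (k y : Bool) (β1 β2 : Bool × Bool) {j1 jm : ℕ} (h1 : j1 < 64) (hm : jm < 64) :
    Cmb (sem (y, β1) (tab (TB (k == y) (rel y β1 β2)) j1 jm))
      (sem (k, nb k y β1 β2) j1) (sem (!k, nb (!k) y β2 β1) jm) :=
  cmb_of_ok (okB _ _) _ _ _ (fun x => (q_ok k y β1 β2 x).2.2.2.2.1)
    (fun x => (q_ok k y β1 β2 x).2.2.2.2.2) h1 hm

theorem leafF_aux : ∀ (σ : St) (a c : Fin 4), mem jF a c = true →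
    gS σ a = caS σ ∧ gS σ c ≠ cvS σ := by decide +kernel

theorem sem_leafF (σ : St) (A C : Fin 4) (h : sem σ jF A C) : A = caS σ ∧ C ≠ cvS σ := by
  obtain ⟨a, c, hm, rfl, rfl⟩ := h
  exact leafF_aux σ a c hm

theorem leafB_aux : ∀ (k y : Bool) (β β' : Bool × Bool) (a c : Fin 4),
    mem (if k = y then jB1 else jB3) a c = true →
    gS (y, β) a = caS (y, β) ∧ gS (y, β) c ≠ cvS (k, nb k y β β') := by decide +kernel

theorem sem_leafB (k y : Bool) (β β' : Bool × Bool) (A C : Fin 4)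
    (h : sem (y, β) (if k = y then jB1 else jB3) A C) :
    A = caS (y, β) ∧ C ≠ cvS (k, nb k y β β') := by
  obtain ⟨a, c, hm, rfl, rfl⟩ := h
  exact leafB_aux k y β β' a c hm

theorem mem_one : ∀ a c : Fin 4, a ≠ c → mem 1 a c = true := by decide +kernel

theorem sem_full (σ : St) (A C : Fin 4) (h : A ≠ C) : sem σ 1 A C := by
  obtain ⟨a, rfl⟩ := gS_surj σ A
  obtain ⟨c, rfl⟩ := gS_surj σ C
  exact ⟨a, c, mem_one a c (fun e => h (by rw [e])), rfl, rfl⟩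

theorem outF_lt (d : ℕ) (k : Bool) (ω : Om d true) : (outF d k ω).2 < 64 := by
  cases d with
  | zero => exact (by decide : jF < 64)
  | succ d =>
    obtain ⟨y, ω1, ω2, ω3⟩ := ω
    rw [outF_succ]
    exact tab_lt _ _ _

theorem outB_lt (d : ℕ) (σ : St) (ω : Om d false) : outB d σ ω < 64 := by
  cases d with
  | zero =>
    show (if (show Bool from ω) = σ.1 then jB1 else jB3) < 64
    split_ifs <;> decide
  | succ d =>
    obtain ⟨y, β⟩ := σ
    obtain ⟨k, ω2, ω1, ω3⟩ := ω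
    rw [outB_succ]
    exact tab_lt _ _ _

/-- The base colouring is proper at a vertex satisfying the relations. -/
theorem base_proper : ∀ (k y : Bool) (β1 β2 : Bool × Bool),
    cmS y (nb (!k) y β2 β1) = cmS y (nb k y β1 β2) ∧
    [cvS (k, nb k y β1 β2), caS (k, nb k y β1 β2), caS (y, β1), cmS y (nb k y β1 β2)].Nodup ∧
    cvS (k, nb k y β1 β2) ≠ cvS (y, β1) ∧
    cvS (k, nb k y β1 β2) ≠ cvS (!k, nb (!k) y β2 β1) := by decide +kernel

end Pool.Agent.TC
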