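import Pool.Agent.Work.MP_0b08b2_co.Defs
import Pool.Agent.Work.MP_0b08b2_co.Prob
import Pool.Agent.Work.MP_0b08b2_co.TabSound
import Mathlib
import Pool.Agent.Work.MP_0b08b2_co.LLL
import Pool.Agent.Work.MP_0b08b2_co.Good

-- merged part: Pool.Agent.Work.MP_0b08b2_co.Words
section
set_option autoImplicit false

/-! Words: evaluation, reduction, lines. -/

namespace Pool.Agent.TC

variable {V : Type}

def invW (W : List L) : List L := (W.map L.inv).reverse

theorem words_inv_inv (l : L) : l.inv.inv = l := by cases l <;> rfl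

theorem ev_append (G : Str V) (z : V) (A B : List L) :
    G.ev z (A ++ B) = G.ev (G.ev z B) A := by
  induction A with
  | nil => rfl
  | cons a A ih => simp only [List.cons_append, Str.ev, ih]

theorem ap_inv (G : Str V) (l : L) (x : V) : G.ap l.inv (G.ap l x) = x := by
  cases l <;> simp [Str.ap, L.inv, G.mm]

theorem ev_cc (G : Str V) (z : V) (l : L) (W : List L) :
    G.ev z (cc l W) = G.ap l (G.ev z W) := by
  cases W with
  | nil => rfl
  | cons a W =>
    rw [cc]
    split_ifs with h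
    · subst h
      have := ap_inv G l.inv (G.ev z W)
      rw [words_inv_inv] at this
      exact this.symm
    · rfl

theorem red_cc (l : L) {W : List L} (h : Red W) : Red (cc l W) := by
  cases W with
  | nil => trivial
  | cons a W =>
    rw [cc]
    split_ifs with h'
    · cases W with
      | nil => trivial
      | cons b W => exact h.2
    · exact ⟨h', h⟩

theorem length_cc (l : L) (W : List L) : (cc l W).length ≤ W.length + 1 := by
  cases W with
  | nil => exact le_rfl
  | cons a W =>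
    rw [cc]
    split_ifs
    · simp only [List.length_cons]; omega
    · exact le_rfl

theorem Red.tail {a : L} {W : List L} (h : Red (a :: W)) : Red W := by
  cases W with
  | nil => trivial
  | cons b W => exact h.2

theorem Red.suffix {W X : List L} (h : Red X) (hs : W <:+ X) : Red W := by
  obtain ⟨A, rfl⟩ := hs
  induction A with
  | nil => exact h
  | cons a A ih => exact ih (Red.tail h)

theorem red_cons {a : L} {W : List L} (h : Red W) (ha : W.head? ≠ some a.inv) : Red (a :: W) := by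
  cases W with
  | nil => trivial
  | cons b W => exact ⟨fun hb => ha (by rw [hb]; rfl), h⟩

theorem ev_injective (G : Str V) (W : List L) : Function.Injective fun z => G.ev z W := by
  induction W with
  | nil => exact fun _ _ h => h
  | cons a W ih =>
    intro x y h
    have h' := congrArg (G.ap a.inv) h
    simp only [Str.ev, ap_inv] at h'
    exact ih h'

theorem ev_invW (G : Str V) (z : V) (W : List L) : G.ev (G.ev z W) (invW W) = z := by
  induction W with
  | nil => rfl
  | cons a W ih =>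
    have e : invW (a :: W) = invW W ++ [a.inv] := by simp [invW]
    rw [e, ev_append]
    simp only [Str.ev, ap_inv]
    exact ih

theorem length_invW (W : List L) : (invW W).length = W.length := by
  simp [invW]

theorem Str.Free.mono {G : Str V} {g g' : ℕ} (h : G.Free g) (hg : g' ≤ g) : G.Free g' := by
  exact fun z W h1 h2 h3 => h z W h1 h2 (h3.trans hg)

/-- Hint: induct on `W2` generalizing `W1`, moving the head of `W2` to the other side; or strip the
common suffix of `W1`, `W2` and apply freeness to `invW W2' ++ W1'` (it is reduced, because the last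
letters of `W1'` and `W2'`... careful: the word to use is `W1' ++ invW W2'` based at the common
endpoint `ev z W2`: `ev (ev z W2) (W1' ++ invW W2') = ev (ev z U) W1' = ev z W1`, where `U` is the
common suffix; it is reduced since the last letters of `W1'`, `W2'` differ). -/
theorem free_inj {G : Str V} {g : ℕ} (h : G.Free g) {z : V} {W1 W2 : List L} (h1 : Red W1)
    (h2 : Red W2) (hl : W1.length + W2.length ≤ g) (he : G.ev z W1 = G.ev z W2) : W1 = W2 := by
  induction W2 generalizing W1 with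
  | nil =>
    by_contra h0
    exact h z W1 h1 h0 hl he
  | cons a W2 ih =>
    have hlen := length_cc a.inv W1
    have key : cc a.inv W1 = W2 := by
      refine ih (red_cc _ h1) h2.tail (by rw [List.length_cons] at hl; omega) ?_
      rw [ev_cc, he]
      exact ap_inv G a _
    subst key
    cases W1 with
    | nil => exact absurd rfl h2.1
    | cons b W1 =>
      rw [cc] at h2 ⊢
      rw [words_inv_inv] at h2 ⊢
      split_ifs at h2 ⊢ with hb
      · rw [hb]
      · exact absurd rfl h2.1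

theorem length_le_wt {W : List L} (h : Red W) : W.length ≤ 2 * wt W + 1 := by
  induction W using List.twoStepInduction with
  | nil => simp
  | singleton a => simp
  | cons_cons a b W ih1 ih2 =>
    have i1 := ih1 h.tail.tail
    have i2 := ih2 b h.tail
    have h1 := h.1
    cases a <;> cases b <;> simp only [wt, List.length_cons] at i2 ⊢ <;>
      first | omega | exact absurd rfl h1

theorem wt_le_of_suffix {W X : List L} (h : W <:+ X) : wt W ≤ wt X := by
  obtain ⟨A, rfl⟩ := h
  induction A with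
  | nil => exact le_rfl
  | cons a A ih => cases a <;> simp only [List.cons_append, wt] <;> omega

/-- A proper extension whose head is not `M` has larger weight. -/
theorem eq_of_suffix_of_wt {W X : List L} (h : W <:+ X) (hw : wt X ≤ wt W)
    (hX : X.head? ≠ some .M) : W = X := by
  obtain ⟨A, rfl⟩ := h
  cases A with
  | nil => rfl
  | cons a A =>
    have := wt_le_of_suffix (List.suffix_append A W)
    cases a <;> simp only [List.cons_append, wt] at hw <;>
      first | omega | exact absurd rfl hX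

theorem ell_ccM {W : List L} (h : Red W) : ell (cc .M W) = ell W := by
  rcases W with _ | ⟨_ | _ | _, W⟩ <;> simp [cc, ell, L.inv]

theorem ell_tau {W : List L} (h : Red W) : ell (cc .S (cc .M (cc .P W))) = ell W := by
  rcases W with _ | ⟨_ | _ | _, W⟩
  · simp [cc, ell, L.inv]
  · rcases W with _ | ⟨_ | _ | _, W⟩
    · simp [cc, ell, L.inv]
    · simp [cc, ell, L.inv]
    · exact absurd rfl h.1
    · rcases W with _ | ⟨_ | _ | _, W⟩
      · simp [cc, ell, L.inv]
      · simp [cc, ell, L.inv]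
      · simp [cc, ell, L.inv]
      · exact absurd rfl h.2.1
  · simp [cc, ell, L.inv]
  · simp [cc, ell, L.inv]

theorem mem_wordsLe {r : ℕ} {W : List L} : W ∈ wordsLe r ↔ W.length ≤ r := by
  induction r generalizing W with
  | zero => simp [wordsLe]
  | succ r ih => cases W <;> simp [wordsLe, ih]

theorem card_wordsLe (r : ℕ) : (wordsLe r).card ≤ 3 ^ (r + 1) := by
  have key : 2 * (wordsLe r).card + 1 ≤ 3 ^ (r + 1) := by
    induction r with
    | zero => simp [wordsLe]
    | succ r ih =>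
      have h1 : (wordsLe (r + 1)).card ≤ 3 * (wordsLe r).card + 1 :=
        (Finset.card_insert_le _ _).trans (Nat.succ_le_succ
          (Finset.card_biUnion_le_card_mul _ _ _ fun _ _ => Finset.card_image_le))
      rw [pow_succ]
      omega
  omega

theorem mem_ball [Fintype V] [DecidableEq V] {G : Str V} {r : ℕ} {x y : V} :
    y ∈ G.ball r x ↔ ∃ W : List L, W.length ≤ r ∧ G.ev x W = y := by
  simp only [Str.ball, Finset.mem_image, mem_wordsLe]

theorem card_ball [Fintype V] [DecidableEq V] (G : Str V) (r : ℕ) (x : V) :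
    (G.ball r x).card ≤ 3 ^ (r + 1) := by
  exact Finset.card_image_le.trans (card_wordsLe r)

theorem card_ball_rev [Fintype V] [DecidableEq V] (G : Str V) (r : ℕ) (y : V) :
    (Finset.univ.filter fun x => y ∈ G.ball r x).card ≤ 3 ^ (r + 1) := by
  refine (Finset.card_le_card fun x hx => ?_).trans (card_ball G r y)
  obtain ⟨W, hW, rfl⟩ := mem_ball.1 (Finset.mem_filter.1 hx).2
  exact mem_ball.2 ⟨invW W, (length_invW W).trans_le hW, ev_invW G x W⟩

end Pool.Agent.TC
end

-- merged part: Pool.Agent.Work.MP_0b08b2_co.Coords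
section
set_option autoImplicit false

/-! Coordinate words of the subtrees and of the routes. All proofs are inductions on `d`
(generalizing `f` and `W`) or on `ys`. For `Nodup`: the three children roots are pairwise not
suffixes of a common word (two suffixes of one list are comparable: `List.suffix_or_suffix_of_suffix`
or compare lengths), and the own coordinate is shorter than / different from all others. -/

namespace Pool.Agent.TC

variable {V : Type}

theorem coords_suf {a b : L} {W X : List L} (h : a :: W <:+ X) (h' : b :: W <:+ X) : a = b :=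
  (List.cons.inj ((List.suffix_of_suffix_length_le h h' le_rfl).eq_of_length rfl)).1

theorem coords_tl {a : L} {W X : List L} (h : a :: W <:+ X) : W <:+ X :=
  (List.suffix_cons a W).trans h

theorem coords_cI_suf (d : ℕ) (f : Bool) (W : List L) : ∀ X ∈ cI d f W, W <:+ X := by
  induction d generalizing f W with
  | zero => cases f <;> simp [cI]
  | succ d ih =>
    intro X hX
    cases f <;> simp only [cI, List.mem_cons, List.mem_append] at hX <;>
      rcases hX with rfl | (h | h) | h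
    exacts [List.suffix_rfl, coords_tl (coords_tl (ih _ _ X h)), coords_tl (ih _ _ X h),
      coords_tl (coords_tl (ih _ _ X h)), List.suffix_cons _ _, coords_tl (ih _ _ X h),
      coords_tl (coords_tl (ih _ _ X h)), coords_tl (coords_tl (ih _ _ X h))]

theorem coords_cJ_suf (d : ℕ) (f : Bool) (W : List L) : ∀ X ∈ cJ d f W, W <:+ X := by
  induction d generalizing f W with
  | zero => cases f <;> simp [cJ]
  | succ d ih =>
    intro X hX
    cases f <;> simp only [cJ, List.mem_append] at hX <;> rcases hX with (h | h) | h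
    exacts [coords_tl (coords_tl (ih _ _ X h)), coords_tl (ih _ _ X h),
      coords_tl (coords_tl (ih _ _ X h)), coords_tl (ih _ _ X h),
      coords_tl (coords_tl (ih _ _ X h)), coords_tl (coords_tl (ih _ _ X h))]

theorem coords_not_mem (d : ℕ) (W : List L) : W ∉ cI d true W := by
  cases d with
  | zero => simp [cI]
  | succ d =>
    intro hX
    simp only [cI, List.mem_cons, List.mem_append] at hX
    rcases hX with h | (h | h) | h
    · simpa using congrArg List.length h
    all_goals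
      have := (coords_cI_suf _ _ _ _ h).length_le
      simp only [List.length_cons] at this
      omega

theorem coords_nodup3 {A B C : List (List L)} (hA : A.Nodup) (hB : B.Nodup) (hC : C.Nodup)
    (h1 : ∀ X ∈ A, X ∉ B) (h2 : ∀ X ∈ A, X ∉ C) (h3 : ∀ X ∈ B, X ∉ C) : (A ++ B ++ C).Nodup := by
  refine List.Nodup.append (List.Nodup.append hA hB h1) hC fun X hX => ?_
  exact (List.mem_append.1 hX).elim (h2 X) (h3 X)

theorem coords_cI_nodup (d : ℕ) (f : Bool) (W : List L) : (cI d f W).Nodup := by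
  induction d generalizing f W with
  | zero => cases f <;> simp [cI]
  | succ d ih =>
    have s := coords_cI_suf d
    cases f
    · refine List.nodup_cons.2 ⟨fun hX => ?_, coords_nodup3 (ih _ _) (ih _ _) (ih _ _)
        (fun X h h' => L.noConfusion (coords_suf (coords_tl (s _ _ X h)) (s _ _ X h')))
        (fun X h h' => L.noConfusion (coords_suf (s _ _ X h) (s _ _ X h')))
        fun X h h' => L.noConfusion (coords_suf (s _ _ X h) (coords_tl (s _ _ X h')))⟩
      simp only [List.mem_append] at hX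
      rcases hX with (h | h) | h <;>
      · have := (s _ _ _ h).length_le
        simp only [List.length_cons] at this
        omega
    · refine List.nodup_cons.2 ⟨fun hX => ?_, coords_nodup3 (ih _ _) (ih _ _) (ih _ _)
        (fun X h h' => L.noConfusion (coords_suf (s _ _ X h) (coords_tl (s _ _ X h'))))
        (fun X h h' => L.noConfusion (coords_suf (s _ _ X h) (coords_tl (s _ _ X h'))))
        fun X h h' => L.noConfusion (coords_suf (s _ _ X h) (s _ _ X h'))⟩
      simp only [List.mem_append] at hX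
      rcases hX with (h | h) | h
      · exact coords_not_mem _ _ h
      all_goals
        have := (s _ _ _ h).length_le
        simp only [List.length_cons] at this
        omega

theorem coords_cJ_nodup (d : ℕ) (f : Bool) (W : List L) : (cJ d f W).Nodup := by
  induction d generalizing f W with
  | zero => cases f <;> simp [cJ]
  | succ d ih =>
    have s := coords_cJ_suf d
    cases f
    · exact coords_nodup3 (ih _ _) (ih _ _) (ih _ _)
        (fun X h h' => L.noConfusion (coords_suf (coords_tl (s _ _ X h)) (s _ _ X h')))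
        (fun X h h' => L.noConfusion (coords_suf (s _ _ X h) (s _ _ X h')))
        fun X h h' => L.noConfusion (coords_suf (s _ _ X h) (coords_tl (s _ _ X h')))
    · exact coords_nodup3 (ih _ _) (ih _ _) (ih _ _)
        (fun X h h' => L.noConfusion (coords_suf (s _ _ X h) (coords_tl (s _ _ X h'))))
        (fun X h h' => L.noConfusion (coords_suf (s _ _ X h) (coords_tl (s _ _ X h'))))
        fun X h h' => L.noConfusion (coords_suf (s _ _ X h) (s _ _ X h'))

theorem coords_head {W : List L} {a : L} (h : W.head? = some a) : ∃ W', W = a :: W' := by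
  cases W with
  | nil => simp at h
  | cons b W => exact ⟨W, by simpa using h⟩

theorem coords_len (i : Bool) (ys : List Bool) (W : List L) (k : Bool) :
    ∀ q ∈ rw_ i ys W k, W.length < q.1.length := by
  induction ys generalizing W k with
  | nil => simp [rw_]
  | cons y ys ih =>
    intro q hq
    rcases List.mem_cons.1 hq with rfl | h
    · simp
    · have := ih _ _ q h
      split_ifs at this <;> simp only [List.length_cons] at this <;> omega

theorem cI_prop (d : ℕ) (f : Bool) {W : List L} (hW : Red W) (hh : W.head? = some (hd f)) :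
    ∀ X ∈ cI d f W, Red X ∧ ell X = X ∧ wt X ≤ wt W + d ∧ W <:+ X := by
  induction d generalizing f W with
  | zero =>
    obtain ⟨W, rfl⟩ := coords_head hh
    cases f
    · simpa [cI, hd, ell] using hW
    · simp [cI]
  | succ d ih =>
    intro X hX
    refine (and_assoc.1 (and_assoc.1 ⟨?_, coords_cI_suf _ _ _ X hX⟩))
    obtain ⟨W, rfl⟩ := coords_head hh
    have key : ∀ {f' W'}, X ∈ cI d f' W' → Red W' → W'.head? = some (hd f') →
        wt W' = wt (hd f :: W) + 1 → (Red X ∧ ell X = X) ∧ wt X ≤ wt (hd f :: W) + (d + 1) :=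
      fun {f' W'} h4 h1 h2 h3 => by
        obtain ⟨k1, k2, k3, -⟩ := ih f' h1 h2 X h4
        exact ⟨⟨k1, k2⟩, by omega⟩
    cases f <;> simp only [cI, List.mem_cons, List.mem_append] at hX <;>
      rcases hX with rfl | (h | h) | h
    · exact ⟨⟨hW, rfl⟩, by omega⟩
    · exact key h ⟨by decide, by decide, hW⟩ rfl rfl
    · exact key h ⟨by decide, hW⟩ rfl rfl
    · exact key h ⟨by decide, by decide, hW⟩ rfl rfl
    · exact ⟨⟨⟨by decide, hW⟩, rfl⟩, Nat.add_le_add_left (Nat.le_add_left 1 d) _⟩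
    · exact key h ⟨by decide, hW⟩ rfl rfl
    · exact key h ⟨by decide, by decide, hW⟩ rfl rfl
    · exact key h ⟨by decide, by decide, hW⟩ rfl rfl

theorem cJ_prop (d : ℕ) (f : Bool) {W : List L} (hW : Red W) (hh : W.head? = some (hd f)) :
    ∀ X ∈ cJ d f W, Red X ∧ X.head? = some .S ∧ wt X = wt W + d ∧ W <:+ X := by
  induction d generalizing f W with
  | zero =>
    obtain ⟨W, rfl⟩ := coords_head hh
    cases f
    · simp [cJ]
    · simpa [cJ, hd] using hW
  | succ d ih =>
    intro X hX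
    refine (and_assoc.1 (and_assoc.1 ⟨?_, coords_cJ_suf _ _ _ X hX⟩))
    obtain ⟨W, rfl⟩ := coords_head hh
    have key : ∀ {f' W'}, X ∈ cJ d f' W' → Red W' → W'.head? = some (hd f') →
        wt W' = wt (hd f :: W) + 1 →
        (Red X ∧ X.head? = some .S) ∧ wt X = wt (hd f :: W) + (d + 1) :=
      fun {f' W'} h4 h1 h2 h3 => by
        obtain ⟨k1, k2, k3, -⟩ := ih f' h1 h2 X h4
        exact ⟨⟨k1, k2⟩, by omega⟩
    cases f <;> simp only [cJ, List.mem_append] at hX <;> rcases hX with (h | h) | h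
    · exact key h ⟨by decide, by decide, hW⟩ rfl rfl
    · exact key h ⟨by decide, hW⟩ rfl rfl
    · exact key h ⟨by decide, by decide, hW⟩ rfl rfl
    · exact key h ⟨by decide, hW⟩ rfl rfl
    · exact key h ⟨by decide, by decide, hW⟩ rfl rfl
    · exact key h ⟨by decide, by decide, hW⟩ rfl rfl

theorem cI_nodup (d : ℕ) (f : Bool) {W : List L} (hW : Red W) (hh : W.head? = some (hd f)) :
    (cI d f W).Nodup := by
  have _ := hW
  have _ := hh
  exact coords_cI_nodup d f W

theorem cJ_nodup (d : ℕ) (f : Bool) {W : List L} (hW : Red W) (hh : W.head? = some (hd f)) :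
    (cJ d f W).Nodup := by
  have _ := hW
  have _ := hh
  exact coords_cJ_nodup d f W

theorem cI_length (d : ℕ) (f : Bool) (W : List L) : (cI d f W).length ≤ 3 ^ (d + 1) := by
  suffices h : 2 * (cI d f W).length + 1 ≤ 3 ^ (d + 1) by omega
  induction d generalizing f W with
  | zero => cases f <;> simp [cI]
  | succ d ih =>
    have h1 := ih true (.S :: W)
    have h2 := ih true (.S :: .M :: W)
    have h3 := ih false (.P :: .M :: W)
    have h4 := ih false (.P :: W)
    cases f <;> simp only [cI, List.length_cons, List.length_append, pow_succ 3 (d + 1)] <;> omega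

theorem cJ_length (d : ℕ) (f : Bool) (W : List L) : (cJ d f W).length ≤ 3 ^ d := by
  induction d generalizing f W with
  | zero => cases f <;> simp [cJ]
  | succ d ih =>
    have h1 := ih true (.S :: W)
    have h2 := ih true (.S :: .M :: W)
    have h3 := ih false (.P :: .M :: W)
    have h4 := ih false (.P :: W)
    cases f <;> simp only [cJ, List.length_append, pow_succ 3 d] <;> omega

theorem card_Om (d : ℕ) (f : Bool) (W : List L) :
    Fintype.card (Om d f) = 2 ^ (cI d f W).length * 4 ^ (cJ d f W).length := by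
  induction d generalizing f W with
  | zero => cases f <;> rfl
  | succ d ih =>
    cases f
    · have e : Fintype.card (Om (d + 1) false) =
          Fintype.card (Bool × Om d true × Om d false × Om d false) :=
        Fintype.card_congr (Equiv.refl _)
      rw [e, Fintype.card_prod, Fintype.card_prod, Fintype.card_prod, ih true (.S :: .M :: W)]
      nth_rewrite 1 [ih false (.P :: W)]
      rw [ih false (.P :: .M :: W)]
      simp only [cI, cJ, List.length_cons, List.length_append, Fintype.card_bool]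
      ring
    · have e : Fintype.card (Om (d + 1) true) =
          Fintype.card (Bool × Om d true × Om d true × Om d false) :=
        Fintype.card_congr (Equiv.refl _)
      rw [e, Fintype.card_prod, Fintype.card_prod, Fintype.card_prod, ih false (.P :: .M :: W)]
      nth_rewrite 1 [ih true (.S :: W)]
      rw [ih true (.S :: .M :: W)]
      simp only [cI, cJ, List.length_cons, List.length_append, Fintype.card_bool]
      ring

theorem rd_eq_iff (G : Str V) (κ κ' : V → Bool) (b b' : V → Bool × Bool) (z : V) (d : ℕ)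
    (f : Bool) (W : List L) :
    G.rd κ b d f (G.ev z W) = G.rd κ' b' d f (G.ev z W) ↔
      (∀ X ∈ cI d f W, κ (G.ev z X) = κ' (G.ev z X)) ∧
        ∀ X ∈ cJ d f W, b (G.ev z X) = b' (G.ev z X) := by
  induction d generalizing f W with
  | zero => cases f <;> simp [cI, cJ, Str.rd] <;> rfl
  | succ d ih =>
    have h1 := ih true (.S :: W)
    have h2 := ih true (.S :: .M :: W)
    have h3 := ih false (.P :: .M :: W)
    have h4 := ih false (.P :: W)
    cases f
    · refine (Prod.ext_iff.trans (and_congr Iff.rfl (Prod.ext_iff.trans (and_congr h2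
        (Prod.ext_iff.trans (and_congr h4 h3)))))).trans ?_
      simp only [cI, cJ, List.forall_mem_cons, List.forall_mem_append]
      exact ⟨fun ⟨a, ⟨b, c⟩, ⟨e, g⟩, i, j⟩ => ⟨⟨a, ⟨b, e⟩, i⟩, ⟨c, g⟩, j⟩,
        fun ⟨⟨a, ⟨b, e⟩, i⟩, ⟨c, g⟩, j⟩ => ⟨a, ⟨b, c⟩, ⟨e, g⟩, i, j⟩⟩
    · refine (Prod.ext_iff.trans (and_congr Iff.rfl (Prod.ext_iff.trans (and_congr h1
        (Prod.ext_iff.trans (and_congr h2 h3)))))).trans ?_
      simp only [cI, cJ, List.forall_mem_cons, List.forall_mem_append]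
      exact ⟨fun ⟨a, ⟨b, c⟩, ⟨e, g⟩, i, j⟩ => ⟨⟨a, ⟨b, e⟩, i⟩, ⟨c, g⟩, j⟩,
        fun ⟨⟨a, ⟨b, e⟩, i⟩, ⟨c, g⟩, j⟩ => ⟨a, ⟨b, c⟩, ⟨e, g⟩, i, j⟩⟩

theorem ev_base (G : Str V) (f : Bool) (x : V) : G.ev (G.base f x) [hd f] = x := by
  cases f <;> simp [Str.ev, Str.base, hd, Str.ap]

theorem base_injective (G : Str V) (f : Bool) : Function.Injective (G.base f) := by
  cases f
  · exact G.s.injective
  · exact G.s.symm.injective

theorem mt_iff (G : Str V) (κ : V → Bool) (i : Bool) (z : V) (ys : List Bool) (W : List L)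
    (k : Bool) :
    G.mt κ i ys (G.ev z W) k ↔ ∀ q ∈ rw_ i ys W k, κ (G.ev z q.1) = q.2 := by
  induction ys generalizing W k with
  | nil => simp [Str.mt, rw_]
  | cons y ys ih =>
    rw [rw_, List.forall_mem_cons, ← ih, Str.mt]
    cases turn i k y <;> rfl

theorem rw_prop (i : Bool) (ys : List Bool) {W : List L} (k : Bool) (hW : Red W)
    (hh : W.head? = some .S) :
    ∀ q ∈ rw_ i ys W k, Red q.1 ∧ ell q.1 = q.1 ∧ wt W < wt q.1 ∧
      q.1.length ≤ W.length + 2 * ys.length := by
  induction ys generalizing W k with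
  | nil => simp [rw_]
  | cons y ys ih =>
    obtain ⟨W, rfl⟩ := coords_head hh
    intro q hq
    rcases List.mem_cons.1 hq with rfl | h
    · exact ⟨⟨by decide, hW⟩, rfl, Nat.lt_succ_self _, by simp only [List.length_cons]; omega⟩
    · split_ifs at h
      · obtain ⟨k1, k2, k3, k4⟩ := ih y (W := .S :: .M :: .S :: W) ⟨by decide, by decide, hW⟩ rfl q h
        simp only [wt, List.length_cons] at k3 k4 ⊢
        exact ⟨k1, k2, by omega, by omega⟩
      · obtain ⟨k1, k2, k3, k4⟩ := ih y (W := .S :: .S :: W) ⟨by decide, hW⟩ rfl q h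
        simp only [wt, List.length_cons] at k3 k4 ⊢
        exact ⟨k1, k2, by omega, by omega⟩

theorem rw_nodup (i : Bool) (ys : List Bool) (W : List L) (k : Bool) :
    ((rw_ i ys W k).map Prod.fst).Nodup := by
  induction ys generalizing W k with
  | nil => simp [rw_]
  | cons y ys ih =>
    rw [rw_, List.map_cons]
    refine List.nodup_cons.2 ⟨fun h => ?_, ih _ _⟩
    obtain ⟨q, hq, e⟩ := List.mem_map.1 h
    have := coords_len _ _ _ _ q hq
    rw [e] at this
    split_ifs at this <;> simp only [List.length_cons] at this <;> omega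

theorem rw_length (i : Bool) (ys : List Bool) (W : List L) (k : Bool) :
    (rw_ i ys W k).length = ys.length := by
  induction ys generalizing W k with
  | nil => rfl
  | cons y ys ih => rw [rw_, List.length_cons, ih, List.length_cons]

/-- On the event `mt`, the true route is the prescribed one. -/
theorem rt_eq_dr (G : Str V) (κ : V → Bool) (i : Bool) (ys : List Bool) (x : V) (k : Bool)
    (h : G.mt κ i ys x k) (t : ℕ) (ht : t ≤ ys.length) :
    G.rt κ i t x k = G.dr i (ys.take t) x k := by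
  induction ys generalizing x k t with
  | nil =>
    obtain rfl : t = 0 := Nat.le_zero.1 ht
    rfl
  | cons y ys ih =>
    cases t with
    | zero => rfl
    | succ t =>
      obtain ⟨rfl, h⟩ := h
      exact ih _ _ h t (Nat.le_of_succ_le_succ ht)

theorem exists_mt (G : Str V) (κ : V → Bool) (i : Bool) (t : ℕ) (x : V) (k : Bool) :
    ∃ ys : List Bool, ys.length = t ∧ G.mt κ i ys x k := by
  induction t generalizing x k with
  | zero => exact ⟨[], rfl, trivial⟩
  | succ t ih =>
    obtain ⟨ys, h1, h2⟩ := ih (G.nx (turn i k (κ (G.s x))) x) (κ (G.s x))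
    exact ⟨κ (G.s x) :: ys, congrArg (· + 1) h1, rfl, h2⟩

theorem dr_injective (G : Str V) (i : Bool) (ys : List Bool) (k : Bool) :
    Function.Injective fun x => G.dr i ys x k := by
  induction ys generalizing k with
  | nil => exact fun _ _ h => h
  | cons y ys ih =>
    intro x x' h
    have h1 : G.nx (turn i k y) x = G.nx (turn i k y) x' := ih y h
    unfold Str.nx at h1
    split_ifs at h1
    · exact G.m.injective (G.s.injective h1)
    · exact G.s.injective h1

/-- A chain that does not stop meets no active vertex. -/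
theorem not_act_of_not_stop (G : Str V) (a : V → Prop) (κ : V → Bool) (i : Bool) (j : ℕ) (x : V)
    (k : Bool) (h : ¬ G.stop a κ i j x k) (t : ℕ) (ht : t < j) : ¬ a (G.rt κ i t x k) := by
  induction j generalizing x k t with
  | zero => omega
  | succ j ih =>
    cases t with
    | zero => exact fun h' => h (Or.inl h')
    | succ t => exact ih _ _ (fun h' => h (Or.inr h')) t (by omega)

end Pool.Agent.TC
end

-- merged part: Pool.Agent.Work.MP_0b08b2_co.Iso
section
set_option autoImplicit false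

/-! A large set contains an isolated candidate with overwhelming probability.

Put `K = 3 ^ (D + 1)`, `n + 1 = 2 * K`. (1) `act0 c y` is `Det` on `ball D y` (which contains `y`,
empty word). (2) `pr (act0 · y) ≥ 1 / (2K) - K / (2K) ^ 2 = 1 / (4K)`: the event `c y = 0` is
contained in `act0 ∨ ∃ y' ∈ (ball D y).erase y, c y = 0 ∧ c y' = 0` (`pr_coord`, `pr_indep`).
(3) For each `y` at most `K ^ 2` vertices `y'` have a ball meeting the ball of `y` (`card_ball`,
`card_ball_rev`), so greedily (induction on the number wanted) `Y` has a subset `Y'` of size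
`4 K N` with pairwise disjoint balls. (4) Induction on `Y'` with `pr_indep`, and
`(1 - 1 / (4K)) ^ (4K) ≤ exp (-1) ≤ 1 / 2`. -/

namespace Pool.Agent.TC

section
variable {V : Type} [Fintype V] [DecidableEq V] {n : ℕ}

theorem iso_self (G : Str V) (r : ℕ) (y : V) : y ∈ G.ball r y :=
  mem_ball.2 ⟨[], Nat.zero_le _, rfl⟩

theorem iso_det (F : Frame V) (y : V) :
    Det (fun c : V → Fin (n + 1) => ¬ F.act0 c y) (F.toStr.ball F.D y) := by
  intro c c' h hc hc'
  refine hc ⟨?_, fun z hz hzy => ?_⟩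
  · rw [h y (iso_self _ _ y)]; exact hc'.1
  · rw [h z hz]; exact hc'.2 z hz hzy

theorem iso_pair {y z : V} (h : z ≠ y) :
    pr (fun c : V → Fin (n + 1) => c y = 0 ∧ c z = 0) = (1 / ((n : ℝ) + 1)) ^ 2 := by
  rw [pr_indep (E := fun c : V → Fin (n + 1) => c y = 0) (E' := fun c => c z = 0) (S := {y})
    (T := {z}) (fun c c' hc e => (hc y (Finset.mem_singleton_self y)).symm.trans e)
    (fun c c' hc e => (hc z (Finset.mem_singleton_self z)).symm.trans e)
    (Finset.disjoint_singleton.2 h.symm), pr_coord, pr_coord, Fintype.card_fin, sq]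
  push_cast
  rfl

theorem iso_one (F : Frame V) (hn : n + 1 = 2 * 3 ^ (F.D + 1)) (y : V) :
    pr (fun c : V → Fin (n + 1) => ¬ F.act0 c y) ≤ 1 - 1 / (4 * (3 : ℝ) ^ (F.D + 1)) := by
  have h1 : pr (fun c : V → Fin (n + 1) => c y = 0) ≤ pr (fun c : V → Fin (n + 1) =>
      F.act0 c y ∨ ∃ z ∈ (F.toStr.ball F.D y).erase y, c y = 0 ∧ c z = 0) := by
    refine pr_mono fun c hc => ?_
    by_cases h : F.act0 c y
    · exact Or.inl h
    · refine Or.inr ?_
      by_contra h'
      exact h ⟨hc, fun z hz hzy e => h' ⟨z, Finset.mem_erase.2 ⟨hzy, hz⟩, hc, e⟩⟩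
  have h2 := h1.trans (pr_or_le _ _)
  have h3 := pr_exists_le ((F.toStr.ball F.D y).erase y)
    (fun z (c : V → Fin (n + 1)) => c y = 0 ∧ c z = 0)
  rw [Finset.sum_congr rfl fun z hz => iso_pair (Finset.ne_of_mem_erase hz), Finset.sum_const,
    nsmul_eq_mul] at h3
  have h4 : ((((F.toStr.ball F.D y).erase y).card : ℕ) : ℝ) ≤ (3 : ℝ) ^ (F.D + 1) := by
    exact_mod_cast Finset.card_erase_le.trans (card_ball F.toStr F.D y)
  have h5 : (n : ℝ) + 1 = 2 * 3 ^ (F.D + 1) := by exact_mod_cast hn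
  rw [pr_coord, Fintype.card_fin] at h2
  push_cast at h2
  rw [h5] at h2 h3
  rw [pr_not]
  have hK : (0 : ℝ) < 3 ^ (F.D + 1) := by positivity
  generalize (3 : ℝ) ^ (F.D + 1) = K at *
  have h6 := mul_le_mul_of_nonneg_right h4 (sq_nonneg (1 / (2 * K)))
  have h7 : 1 / (2 * K) - K * (1 / (2 * K)) ^ 2 = 1 / (4 * K) := by
    field_simp
    ring
  linarith

omit [Fintype V] in
theorem iso_greedy (Nb : V → Finset V) (M : ℕ) (hM0 : 0 < M) (hM : ∀ y, (Nb y).card ≤ M)
    (hs : ∀ y, y ∈ Nb y) (hsym : ∀ y z, y ∈ Nb z → z ∈ Nb y) (k : ℕ) (Y : Finset V)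
    (hY : M * k ≤ Y.card) :
    ∃ Y' ⊆ Y, Y'.card = k ∧ ∀ y ∈ Y', ∀ z ∈ Y', y ≠ z → y ∉ Nb z := by
  induction k generalizing Y with
  | zero => exact ⟨∅, Finset.empty_subset _, rfl, by simp⟩
  | succ k ih =>
    rw [Nat.mul_succ] at hY
    obtain ⟨y, hy⟩ := Finset.card_pos.1 (show 0 < Y.card by omega)
    have h1 := Finset.le_card_sdiff (Nb y) Y
    have h2 := hM y
    obtain ⟨Y', h3, h4, h5⟩ := ih (Y \ Nb y) (by omega)
    have h6 : ∀ z ∈ Y', z ∉ Nb y := fun z hz => (Finset.mem_sdiff.1 (h3 hz)).2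
    have h7 : y ∉ Y' := fun h => h6 y h (hs y)
    refine ⟨insert y Y', Finset.insert_subset hy (h3.trans Finset.sdiff_subset), ?_, ?_⟩
    · rw [Finset.card_insert_of_notMem h7, h4]
    · intro a ha b hb hab
      rcases Finset.mem_insert.1 ha with ea | ha
      · rcases Finset.mem_insert.1 hb with eb | hb
        · exact absurd (ea.trans eb.symm) hab
        · rw [ea]; exact fun h => h6 b hb (hsym _ _ h)
      · rcases Finset.mem_insert.1 hb with eb | hb
        · rw [eb]; exact h6 a ha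
        · exact h5 a ha b hb hab

theorem iso_card (G : Str V) (r : ℕ) (y : V) :
    (Finset.univ.filter fun z => ¬ Disjoint (G.ball r z) (G.ball r y)).card ≤
      3 ^ (r + 1) * 3 ^ (r + 1) := by
  have h : (Finset.univ.filter fun z => ¬ Disjoint (G.ball r z) (G.ball r y)) ⊆
      (G.ball r y).biUnion fun x => Finset.univ.filter fun z => x ∈ G.ball r z := by
    intro z hz
    obtain ⟨x, h1, h2⟩ := Finset.not_disjoint_iff.1 (Finset.mem_filter.1 hz).2
    exact Finset.mem_biUnion.2 ⟨x, h2, Finset.mem_filter.2 ⟨Finset.mem_univ _, h1⟩⟩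
  refine (Finset.card_le_card h).trans
    ((Finset.card_biUnion_le_card_mul _ _ _ fun x _ => card_ball_rev G r x).trans ?_)
  exact Nat.mul_le_mul_right _ (card_ball G r y)

theorem iso_prod {A : Type} [Fintype A] [Nonempty A] (E : V → (V → A) → Prop) (S : V → Finset V)
    (hE : ∀ y, Det (E y) (S y)) {δ : ℝ} (hδ : ∀ y, pr (E y) ≤ δ) (Y : Finset V)
    (hY : ∀ y ∈ Y, ∀ z ∈ Y, y ≠ z → Disjoint (S y) (S z)) :
    pr (fun c => ∀ y ∈ Y, E y c) ≤ δ ^ Y.card := by
  induction Y using Finset.induction_on with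
  | empty => rw [Finset.card_empty, pow_zero]; exact pr_le_one _
  | insert y Y hy ih =>
    have h1 := ih fun a ha b hb =>
      hY a (Finset.mem_insert_of_mem ha) b (Finset.mem_insert_of_mem hb)
    have h2 : Det (fun c : V → A => ∀ z ∈ Y, E z c) (Y.biUnion S) := fun c c' h hc z hz =>
      hE z c c' (fun v hv => h v (Finset.mem_biUnion.2 ⟨z, hz, hv⟩)) (hc z hz)
    have h3 : Disjoint (S y) (Y.biUnion S) := (Finset.disjoint_biUnion_right _ _ _).2 fun z hz =>
      hY y (Finset.mem_insert_self _ _) z (Finset.mem_insert_of_mem hz) fun e => hy (e ▸ hz)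
    rw [pr_congr fun c => Finset.forall_mem_insert y Y fun z => E z c, pr_indep (hE y) h2 h3,
      Finset.card_insert_of_notMem hy, pow_succ']
    exact mul_le_mul (hδ y) h1 (pr_nonneg _) ((pr_nonneg _).trans (hδ y))

theorem iso_exp {m : ℕ} (hm : 0 < m) : (1 - 1 / (m : ℝ)) ^ m ≤ 1 / 2 := by
  have h0 : (0 : ℝ) < m := by exact_mod_cast hm
  have h1 : (1 : ℝ) ≤ m := by exact_mod_cast hm
  have h2 : 0 ≤ 1 - 1 / (m : ℝ) := sub_nonneg.2 ((div_le_one h0).2 h1)
  have h3 : 1 - 1 / (m : ℝ) ≤ Real.exp (-(1 / m)) := by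
    linarith [Real.add_one_le_exp (-(1 / (m : ℝ)))]
  refine (pow_le_pow_left₀ h2 h3 m).trans ?_
  rw [← Real.exp_nat_mul, mul_neg, mul_one_div_cancel h0.ne', Real.exp_neg, one_div]
  exact inv_anti₀ two_pos (by linarith [Real.add_one_le_exp 1])

end

theorem iso {V : Type} [Fintype V] [DecidableEq V] {n : ℕ} (F : Frame V) (N : ℕ)
    (hn : n + 1 = 2 * 3 ^ (F.D + 1)) (Y : Finset V)
    (hY : 4 * (3 ^ (F.D + 1)) ^ 3 * N ≤ Y.card) :
    pr (fun c : V → Fin (n + 1) => ∀ y ∈ Y, ¬ F.act0 c y) ≤ (1 / 2 : ℝ) ^ N := by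
  obtain ⟨Y', h1, h2, h3⟩ := iso_greedy
    (fun y => Finset.univ.filter fun z => ¬ Disjoint (F.toStr.ball F.D z) (F.toStr.ball F.D y))
    (3 ^ (F.D + 1) * 3 ^ (F.D + 1)) (by positivity) (iso_card _ _)
    (fun y => Finset.mem_filter.2 ⟨Finset.mem_univ _,
      Finset.not_disjoint_iff.2 ⟨y, iso_self _ _ y, iso_self _ _ y⟩⟩)
    (fun y z h => Finset.mem_filter.2 ⟨Finset.mem_univ _,
      fun h' => (Finset.mem_filter.1 h).2 h'.symm⟩)
    (4 * 3 ^ (F.D + 1) * N) Y (le_of_eq_of_le (by ring) hY)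
  have h4 := iso_prod (fun y (c : V → Fin (n + 1)) => ¬ F.act0 c y) (F.toStr.ball F.D)
    (iso_det F) (iso_one F hn) Y' fun y hy z hz hyz => by
      by_contra h
      exact h3 y hy z hz hyz (Finset.mem_filter.2 ⟨Finset.mem_univ _, h⟩)
  refine (pr_mono fun c hc y hy => hc y (h1 hy)).trans (h4.trans ?_)
  have h5 := iso_exp (m := 4 * 3 ^ (F.D + 1)) (by positivity)
  push_cast at h5
  rw [h2, pow_mul]
  refine pow_le_pow_left₀ (pow_nonneg (sub_nonneg.2 ?_) _) h5 N
  rw [div_le_one (by positivity)]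
  have : (1 : ℝ) ≤ 3 ^ (F.D + 1) := one_le_pow₀ (by norm_num)
  linarith

end Pool.Agent.TC
end

-- merged part: Pool.Agent.Work.MP_0b08b2_co.Src
section
set_option autoImplicit false

/-! Sources of the look-back and ends of the chains are distinct; uniformity of classes and bits. -/

namespace Pool.Agent.TC

variable {V : Type} [Fintype V] [DecidableEq V] {n : ℕ}

/-- Induct on `j` generalizing `W`; one step replaces `W` by `cc M W` or
`cc S (cc M (cc P W))` (`ev_cc`, `ell_ccM`, `ell_tau`). -/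
theorem lb_word (F : Frame V) (c : V → Fin (n + 1)) (z : V) (j : ℕ) {W : List L} (hW : Red W) :
    ∃ W', Red W' ∧ ell W' = ell W ∧ W'.length ≤ W.length + 3 * j ∧
      (F.lb c j (F.toStr.ev z W)).1 = F.toStr.ev z W' := by
  induction j generalizing W with
  | zero => exact ⟨W, hW, rfl, le_rfl, rfl⟩
  | succ j ih =>
    by_cases h : F.o (F.toStr.ev z W) = true ∧ F.act c (F.toStr.ev z W)
    · refine ⟨W, hW, rfl, by omega, ?_⟩
      simp only [Frame.lb, if_pos h]
    · simp only [Frame.lb, if_neg h]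
      by_cases ho : F.o (F.toStr.ev z W) = true
      · have e : F.bk (F.toStr.ev z W) = F.toStr.ev z (cc .M W) := by
          rw [ev_cc]; simp only [Frame.bk, if_pos ho, Str.ap]
        obtain ⟨W', h1, h2, h3, h4⟩ := ih (red_cc .M hW)
        have := length_cc .M W
        exact ⟨W', h1, h2.trans (ell_ccM hW), by omega, by rw [e, h4]⟩
      · have e : F.bk (F.toStr.ev z W) = F.toStr.ev z (cc .S (cc .M (cc .P W))) := by
          rw [ev_cc, ev_cc, ev_cc]; simp only [Frame.bk, if_neg ho, Str.ap, Str.tau]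
        obtain ⟨W', h1, h2, h3, h4⟩ := ih (red_cc .S (red_cc .M (red_cc .P hW)))
        have := length_cc .P W
        have := length_cc .M (cc .P W)
        have := length_cc .S (cc .M (cc .P W))
        exact ⟨W', h1, h2.trans (ell_tau hW), by omega, by rw [e, h4]⟩

theorem src_nx (G : Str V) (z : V) (t : Bool) {W : List L} (hW : Red W)
    (hh : W.head? = some .S) :
    ∃ X, Red X ∧ X.head? = some .S ∧ W <:+ X ∧ wt X = wt W + 1 ∧ X.length ≤ W.length + 2 ∧
      G.nx t (G.ev z W) = G.ev z X := by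
  cases t with
  | false =>
    exact ⟨.S :: W, red_cons hW (by rw [hh]; simp [L.inv]), rfl, List.suffix_cons _ _, rfl,
      by simp, rfl⟩
  | true =>
    exact ⟨.S :: .M :: W, red_cons (red_cons hW (by rw [hh]; simp [L.inv])) (by simp [L.inv]), rfl,
      (List.suffix_cons _ _).trans (List.suffix_cons _ _), rfl, by simp, rfl⟩

/-- One step replaces `W` by `S :: W` or `S :: M :: W`. -/
theorem ch_word (G : Str V) (a : V → Prop) (κ : V → Bool) (i : Bool) (z : V) (j : ℕ)
    {W : List L} (k : Bool) (hW : Red W) (hh : W.head? = some .S) :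
    ∃ W', Red W' ∧ W <:+ W' ∧ W'.length ≤ W.length + 2 * j ∧
      (G.ch a κ i j (G.ev z W) k).1 = G.ev z W' := by
  induction j generalizing W k with
  | zero => exact ⟨W, hW, List.suffix_refl _, le_rfl, rfl⟩
  | succ j ih =>
    by_cases h : a (G.ev z W)
    · refine ⟨W, hW, List.suffix_refl _, by omega, ?_⟩
      simp only [Str.ch, if_pos h]
    · simp only [Str.ch, if_neg h]
      obtain ⟨X, x1, x2, x3, -, x5, x6⟩ := src_nx G z (turn i k (κ (G.s (G.ev z W)))) hW hh
      obtain ⟨W', h1, h2, h3, h4⟩ := ih (κ (G.s (G.ev z W))) x1 x2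
      exact ⟨W', h1, x3.trans h2, by omega, by rw [x6, h4]⟩

theorem src_bk (F : Frame V) (x : V) (t : ℕ) {W : List L} (hW : Red W)
    (h1 : F.o (F.toStr.ev x W) = true → W.head? ≠ some .M)
    (h2 : F.o (F.toStr.ev x W) = false → W.head? ≠ some .S) :
    ∃ X, Red X ∧ (F.o (F.toStr.ev x X) = true → X.head? ≠ some .M) ∧
      (F.o (F.toStr.ev x X) = false → X.head? ≠ some .S) ∧ W.length + t ≤ X.length ∧
      X.length ≤ W.length + 3 * t ∧ F.bk^[t] (F.toStr.ev x W) = F.toStr.ev x X := by
  induction t generalizing W with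
  | zero => exact ⟨W, hW, h1, h2, le_rfl, le_rfl, rfl⟩
  | succ t ih =>
    rw [Function.iterate_succ_apply]
    cases ho : F.o (F.toStr.ev x W) with
    | true =>
      have e : F.bk (F.toStr.ev x W) = F.toStr.ev x (.M :: W) := by
        simp only [Frame.bk, ho, if_true, Str.ev, Str.ap]
      have e2 : F.o (F.toStr.ev x (.M :: W)) = false := by
        simp only [Str.ev, Str.ap, F.om, ho, Bool.not_true]
      obtain ⟨X, x1, x2, x3, x4, x5, x6⟩ := ih (W := .M :: W) (red_cons hW (h1 ho))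
        (by rw [e2]; simp) (by simp)
      simp only [List.length_cons] at x4 x5
      exact ⟨X, x1, x2, x3, by omega, by omega, by rw [e, x6]⟩
    | false =>
      have e : F.bk (F.toStr.ev x W) = F.toStr.ev x (.S :: .M :: .P :: W) := by
        simp only [Frame.bk, ho, Bool.false_eq_true, if_false, Str.ev, Str.ap, Str.tau]
      have e2 : F.o (F.toStr.ev x (.S :: .M :: .P :: W)) = true := by
        have := F.ot (F.toStr.ev x W)
        simpa only [Str.ev, Str.ap, Str.tau, ho, Bool.not_false] using this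
      obtain ⟨X, x1, x2, x3, x4, x5, x6⟩ := ih (W := .S :: .M :: .P :: W)
        (red_cons (red_cons (red_cons hW (h2 ho)) (by simp [L.inv])) (by simp [L.inv]))
        (by simp) (by rw [e2]; simp)
      simp only [List.length_cons] at x4 x5
      exact ⟨X, x1, x2, x3, by omega, by omega, by rw [e, x6]⟩

/-- Hint: construct reduced words `W j` with `ev x (W j) = bk^[j] x`, `j ≤ length ≤ 3 j`, strictly
increasing length, with the invariant: if `o (ev x (W j))` then the head is not `M`, else the head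
is not `S`; the next word is `M :: W j` or `S :: M :: P :: W j`. Then `free_inj`. -/
theorem bk_iter_inj (F : Frame V) {g l : ℕ} (hF : F.toStr.Free g) (hg : 6 * l ≤ g) (x : V)
    {a b : ℕ} (ha : a ≤ l) (hb : b ≤ l) (h : F.bk^[a] x = F.bk^[b] x) : a = b := by
  wlog hab : a ≤ b generalizing a b
  · exact (this hb ha h.symm (by omega)).symm
  obtain ⟨t, rfl⟩ := Nat.exists_eq_add_of_le hab
  obtain ⟨X, x1, x2, x3, -, x5, x6⟩ := src_bk F x a (W := []) trivial (by simp) (by simp)
  obtain ⟨Y, y1, -, -, y4, y5, y6⟩ := src_bk F x t x1 x2 x3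
  have x7 : F.bk^[a] x = F.toStr.ev x X := x6
  rw [add_comm a t, Function.iterate_add_apply, x7, y6] at h
  simp only [List.length_nil] at x5
  have := free_inj hF x1 y1 (by omega) h
  subst this
  omega

theorem src_dr (G : Str V) (i : Bool) (z : V) (ys : List Bool) {W : List L} (k : Bool)
    (hW : Red W) (hh : W.head? = some .S) :
    ∃ X, Red X ∧ wt X = wt W + ys.length ∧ X.length ≤ W.length + 2 * ys.length ∧
      G.dr i ys (G.ev z W) k = G.ev z X := by
  induction ys generalizing W k with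
  | nil => exact ⟨W, hW, rfl, le_rfl, rfl⟩
  | cons y ys ih =>
    obtain ⟨X, x1, x2, -, x4, x5, x6⟩ := src_nx G z (turn i k y) hW hh
    obtain ⟨W', h1, h2, h3, h4⟩ := ih y x1 x2
    refine ⟨W', h1, ?_, ?_, ?_⟩
    · simp only [List.length_cons]; omega
    · simp only [List.length_cons]; omega
    · simp only [Str.dr]; rw [x6, h4]

/-- Hint: `x = ev (s.symm x) [S]`; `dr i ys (ev z W) k = ev z W'` with `W'` reduced, head `S`,
`wt W' = wt W + ys.length`, `W'.length ≤ W.length + 2 * ys.length`. -/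
theorem dr_take_inj (G : Str V) {g : ℕ} (hF : G.Free g) (i : Bool) (ys : List Bool)
    (hg : 4 * ys.length + 2 ≤ g) (x : V) (k : Bool) {a b : ℕ} (ha : a ≤ ys.length)
    (hb : b ≤ ys.length) (h : G.dr i (ys.take a) x k = G.dr i (ys.take b) x k) : a = b := by
  have e : x = G.ev (G.s.symm x) [.S] := by simp [Str.ev, Str.ap]
  obtain ⟨X, x1, x2, x3, x4⟩ := src_dr G i (G.s.symm x) (ys.take a) (W := [.S]) k trivial rfl
  obtain ⟨Y, y1, y2, y3, y4⟩ := src_dr G i (G.s.symm x) (ys.take b) (W := [.S]) k trivial rfl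
  rw [← e] at x4 y4
  rw [x4, y4] at h
  rw [List.length_take_of_le ha] at x2 x3
  rw [List.length_take_of_le hb] at y2 y3
  simp only [List.length_cons, List.length_nil] at x3 y3
  have := free_inj hF x1 y1 (by omega) h
  subst this
  omega

/-- `pr_cyl` with `ι W = (lb c Lb (ev z W)).1` (injective on `I` by `lb_word`, `free_inj`) and
target `xor (t W) (lb c Lb (ev z W)).2`. -/
theorem kap_unif (F : Frame V) {g r : ℕ} (hF : F.toStr.Free g) (hg : 2 * (r + 3 * F.Lb) ≤ g)
    (c : V → Fin (n + 1)) (z : V) (I : Finset (List L))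
    (hI : ∀ W ∈ I, Red W ∧ ell W = W ∧ W.length ≤ r) (t : List L → Bool) :
    pr (fun p : V → Bool => ∀ W ∈ I, F.kap c p (F.toStr.ev z W) = t W) ≤
      (1 / 2 : ℝ) ^ I.card := by
  refine le_trans (pr_mono fun p hp W hW => ?_)
    (pr_cyl I (fun W => (F.lb c F.Lb (F.toStr.ev z W)).1) ?_
      fun W => xor (t W) (F.lb c F.Lb (F.toStr.ev z W)).2)
  · rw [← hp W hW]
    simp [Frame.kap]
  · intro W1 h1 W2 h2 h
    obtain ⟨a1, a2, a3⟩ := hI W1 h1
    obtain ⟨b1, b2, b3⟩ := hI W2 h2
    obtain ⟨X, x1, x2, x3, x4⟩ := lb_word F c z F.Lb a1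
    obtain ⟨Y, y1, y2, y3, y4⟩ := lb_word F c z F.Lb b1
    simp only [x4, y4] at h
    have := free_inj hF x1 y1 (by omega) h
    subst this
    rw [← a2, ← b2, ← x2, ← y2]

/-- `pr_cyl` on `J ×ˢ univ` with `ι (W, i) = ((ch ... i Lc (ev z W) _).1, i)`; injective by
`ch_word`, `free_inj`, comparability of two suffixes of one list and `eq_of_suffix_of_wt`. -/
theorem bits_unif (F : Frame V) {g r w : ℕ} (hF : F.toStr.Free g) (hg : 2 * (r + 2 * F.Lc) ≤ g)
    (c : V → Fin (n + 1)) (p : V → Bool) (z : V) (J : Finset (List L))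
    (hJ : ∀ W ∈ J, Red W ∧ W.head? = some .S ∧ wt W = w ∧ W.length ≤ r)
    (t : List L → Bool × Bool) :
    pr (fun β : V × Bool → Bool => ∀ W ∈ J, F.bits c p β (F.toStr.ev z W) = t W) ≤
      (1 / 4 : ℝ) ^ J.card := by
  have key := pr_cyl (J ×ˢ (Finset.univ : Finset Bool))
    (fun q => ((F.toStr.ch (F.act c) (F.kap c p) q.2 F.Lc (F.toStr.ev z q.1)
      (F.kap c p (F.toStr.ev z q.1))).1, q.2)) ?_
    fun q => xor (if q.2 then (t q.1).2 else (t q.1).1)
      (F.toStr.ch (F.act c) (F.kap c p) q.2 F.Lc (F.toStr.ev z q.1)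
        (F.kap c p (F.toStr.ev z q.1))).2
  · rw [Finset.card_product, Finset.card_univ, Fintype.card_bool, mul_comm, pow_mul] at key
    refine le_trans (pr_mono fun β hβ q hq => ?_) (key.trans (by norm_num))
    obtain ⟨W, i⟩ := q
    rw [← hβ W (Finset.mem_product.1 hq).1]
    cases i <;> simp [Frame.bits, Frame.bitv]
  · rintro ⟨W1, i1⟩ h1 ⟨W2, i2⟩ h2 h
    obtain ⟨a1, a2, a3, a4⟩ := hJ W1 (Finset.mem_product.1 h1).1
    obtain ⟨b1, b2, b3, b4⟩ := hJ W2 (Finset.mem_product.1 h2).1
    obtain ⟨X, x1, x2, x3, x4⟩ := ch_word F.toStr (F.act c) (F.kap c p) i1 z F.Lc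
      (F.kap c p (F.toStr.ev z W1)) a1 a2
    obtain ⟨Y, y1, y2, y3, y4⟩ := ch_word F.toStr (F.act c) (F.kap c p) i2 z F.Lc
      (F.kap c p (F.toStr.ev z W2)) b1 b2
    simp only [x4, y4, Prod.mk.injEq] at h
    have := free_inj hF x1 y1 (by omega) h.1
    subst this
    refine Prod.ext (?_ : W1 = W2) h.2
    rcases List.suffix_or_suffix_of_suffix x2 y2 with hs | hs
    · exact eq_of_suffix_of_wt hs (by omega) (by rw [b2]; simp)
    · exact (eq_of_suffix_of_wt hs (by omega) (by rw [a2]; simp)).symm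

end Pool.Agent.TC
end

-- merged part: Pool.Agent.Work.MP_0b08b2_co.Est
section
set_option autoImplicit false

/-! Probability estimates for the three kinds of bad events. -/

namespace Pool.Agent.TC

variable {V : Type} [Fintype V] [DecidableEq V] {n : ℕ}

theorem est_found (F : Frame V) (c : V → Fin (n + 1)) (j : ℕ) (x : V) (h : ¬ F.found c j x)
    (t : ℕ) (ht : t < j) : ¬ (F.o (F.bk^[t] x) = true ∧ F.act c (F.bk^[t] x)) := by
  induction j generalizing x t with
  | zero => omega
  | succ j ih =>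
    rw [Frame.found, not_or] at h
    cases t with
    | zero => exact h.1
    | succ t => exact ih _ h.2 t (by omega)

theorem est_not_act (F : Frame V) (c : V → Fin (n + 1)) (j : ℕ) (x : V) (h : ¬ F.found c j x)
    (t : ℕ) (ht : t + 1 < j) : ¬ F.act0 c (F.bk^[t + 1] x) := fun ha => by
  have h1 := est_found F c j x h (t + 1) ht
  have h2 := est_found F c j x h t (by omega)
  rw [Function.iterate_succ_apply'] at h1 ha
  generalize F.bk^[t] x = y at h1 h2 ha
  by_cases ho : F.o y = true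
  · rw [Frame.bk, if_pos ho] at ha
    exact h2 ⟨ho, Or.inr ha⟩
  · refine h1 ⟨?_, Or.inl ha⟩
    rw [Frame.bk, if_neg ho, F.ot]
    simpa using ho

theorem est_kap (F : Frame V) {g r : ℕ} (hF : F.toStr.Free g) (hg : 2 * (r + 3 * F.Lb) ≤ g)
    (c : V → Fin (n + 1)) (z : V) (R : List (List L × Bool)) (hR : (R.map Prod.fst).Nodup)
    (hR' : ∀ q ∈ R, Red q.1 ∧ ell q.1 = q.1 ∧ q.1.length ≤ r) :
    pr (fun p : V → Bool => ∀ q ∈ R, F.kap c p (F.toStr.ev z q.1) = q.2) ≤
      (1 / 2 : ℝ) ^ R.length := by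
  have h := kap_unif F hF hg c z (R.map Prod.fst).toFinset (fun W hW => by
    obtain ⟨q, hq, rfl⟩ := List.mem_map.1 (List.mem_toFinset.1 hW)
    exact hR' q hq) fun W => decide ((W, true) ∈ R)
  rw [List.toFinset_card_of_nodup hR, List.length_map] at h
  refine (pr_mono fun p hp W hW => ?_).trans h
  obtain ⟨⟨W, b⟩, hq, rfl⟩ := List.mem_map.1 (List.mem_toFinset.1 hW)
  by_cases hb : (W, true) ∈ R
  · rw [decide_eq_true hb]
    exact hp _ hb
  · rw [decide_eq_false hb, hp _ hq]
    cases b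
    · rfl
    · exact absurd hq hb

theorem est_wt (f : Bool) : wt [hd f] = 1 := by
  cases f <;> rfl

/-- `¬ found c j x` implies `¬ act c (bk^[t] x)` for `1 ≤ t < j` (if `o (bk^[t] x) = false` then
`o (bk^[t-1] x) = true`, `bk^[t] x = m (bk^[t-1] x)` and `act` is `m`-invariant). Apply `iso` to the
image of `Finset.Ico 1 (Lb - 1)` (`bk_iter_inj`), `pr_fst`. -/
theorem est_gap (F : Frame V) {g N : ℕ} (hF : F.toStr.Free g) (hg : 6 * F.Lb ≤ g)
    (hn : n + 1 = 2 * 3 ^ (F.D + 1)) (hL : 4 * (3 ^ (F.D + 1)) ^ 3 * N + 2 ≤ F.Lb) (x : V) :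
    pr (F.gap x : Om3 V n → Prop) ≤ (1 / 2 : ℝ) ^ N := by
  have h := iso F N hn ((Finset.range (F.Lb - 2)).image fun t => F.bk^[t + 1] x) (by
    rw [Finset.card_image_of_injOn, Finset.card_range]
    · omega
    · intro a ha b hb e
      have h1 := Finset.mem_range.1 ha
      have h2 := Finset.mem_range.1 hb
      have := bk_iter_inj F hF hg x (a := a + 1) (b := b + 1) (by omega) (by omega) e
      omega)
  rw [← pr_fst (B := (V → Bool) × (V × Bool → Bool))] at h
  refine (pr_mono fun ω hω y hy => ?_).trans h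
  obtain ⟨t, ht, rfl⟩ := Finset.mem_image.1 hy
  have := Finset.mem_range.1 ht
  exact est_not_act F ω.1 _ x hω t (by omega)

/-- `pr_prod_le` with `F c := ∀ y ∈ image (fun t => dr i (ys.take t) x k) (range (Lc - 1)), ¬ act0 c y`
(`not_act_of_not_stop`, `rt_eq_dr`, `dr_take_inj`, `iso`); for fixed `c` use `pr_fst`, `mt_iff` with
`x = ev (s.symm x) [S]`, `kap_unif` on the words of `rw_` (target: `List.lookup` or choice). -/
theorem est_long (F : Frame V) {g N : ℕ} (hF : F.toStr.Free g)
    (hg : 2 * (1 + 2 * F.Lc + 3 * F.Lb) ≤ g)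
    (hn : n + 1 = 2 * 3 ^ (F.D + 1)) (hL : 4 * (3 ^ (F.D + 1)) ^ 3 * N + 1 ≤ F.Lc)
    (i k : Bool) (x : V) (ys : List Bool) (hys : ys.length = F.Lc) :
    pr (fun ω : Om3 V n => F.long i k x ω ∧ F.toStr.mt (F.kap ω.1 ω.2.1) i ys x k) ≤
      (1 / 2 : ℝ) ^ N * (1 / 2 : ℝ) ^ F.Lc := by
  have h := iso F N hn ((Finset.range (F.Lc - 1)).image fun t => F.toStr.dr i (ys.take t) x k) (by
    rw [Finset.card_image_of_injOn, Finset.card_range]
    · omega
    · intro a ha b hb e
      have h1 := Finset.mem_range.1 ha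
      have h2 := Finset.mem_range.1 hb
      exact dr_take_inj F.toStr hF i ys (by omega) x k (by omega) (by omega) e)
  rw [mul_comm]
  refine (pr_prod_le _ _ ((1 / 2 : ℝ) ^ F.Lc) (by positivity) ?_ fun c _ => ?_).trans
    (mul_le_mul_of_nonneg_left h (by positivity))
  · rintro c b ⟨h1, h2⟩ y hy ha
    obtain ⟨t, ht, rfl⟩ := Finset.mem_image.1 hy
    have h3 := Finset.mem_range.1 ht
    have h4 := not_act_of_not_stop _ _ _ _ _ _ _ h1 t h3
    rw [rt_eq_dr _ _ _ _ _ _ h2 t (by omega)] at h4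
    exact h4 (Or.inl ha)
  · have h1 := est_kap F hF hg c (F.toStr.base true x) (rw_ i ys [hd true] k)
      (rw_nodup _ _ _ _) fun q hq => by
        obtain ⟨a1, a2, -, a4⟩ := rw_prop i ys (W := [hd true]) k trivial rfl q hq
        exact ⟨a1, a2, by simpa [hys] using a4⟩
    rw [rw_length, hys, ← pr_fst (B := V × Bool → Bool)] at h1
    refine (pr_mono fun b hb => ?_).trans h1
    have h2 := hb.2
    rw [← ev_base F.toStr true x, mt_iff] at h2
    exact h2

/-- For each `θ : Om d f` the event `rd ... = θ ∧ (constraints of R)` has probability at most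
`(1/2) ^ (|cI| + |R|) * (1/4) ^ |cJ| = (1/2) ^ |R| / card (Om d f)`: if it is nonempty pick a
point `ω0` of it and use `rd_eq_iff` (with `ev_base`) to bound it by the event that `kap` has
prescribed values on the words of `cI` and `R` (disjoint by weight) and `bits` prescribed values on
`cJ`; then `pr_prod_le` twice with `kap_unif`, `bits_unif`, `card_Om`. Sum over the bad `θ`
(`pr_exists_le`, `pr_eq_card_mul`). Lengths: `length_le_wt`. -/
theorem est_fail_gen (F : Frame V) {g r d : ℕ} (hF : F.toStr.Free g) (hr : 2 * d + 3 ≤ r)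
    (hg1 : 2 * (r + 3 * F.Lb) ≤ g) (hg2 : 2 * (r + 2 * F.Lc) ≤ g) (f : Bool) (x : V)
    (R : List (List L × Bool)) (hR : (R.map Prod.fst).Nodup)
    (hR' : ∀ q ∈ R, Red q.1 ∧ ell q.1 = q.1 ∧ 1 + d < wt q.1 ∧ q.1.length ≤ r) :
    pr (fun ω : Om3 V n => F.fail d f x ω ∧
        ∀ q ∈ R, F.kap ω.1 ω.2.1 (F.toStr.ev (F.toStr.base f x) q.1) = q.2) ≤
      pr (bad d f) * (1 / 2 : ℝ) ^ R.length := by
  classical
  have hI := cI_prop d f (W := [hd f]) trivial rfl
  have hJ := cJ_prop d f (W := [hd f]) trivial rfl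
  rw [est_wt] at hI hJ
  have key : ∀ θ : Om d f, pr (fun ω : Om3 V n =>
      F.toStr.rd (F.kap ω.1 ω.2.1) (F.bits ω.1 ω.2.1 ω.2.2) d f x = θ ∧
        ∀ q ∈ R, F.kap ω.1 ω.2.1 (F.toStr.ev (F.toStr.base f x) q.1) = q.2) ≤
      (1 / 4 : ℝ) ^ (cJ d f [hd f]).length *
        (1 / 2 : ℝ) ^ ((cI d f [hd f]).length + R.length) := fun θ => by
    by_contra hlt
    obtain ⟨ω0, h0, -⟩ := exists_of_pr_pos (lt_of_le_of_lt (by positivity) (not_le.1 hlt))
    refine hlt ((pr_prod_le _ (fun _ => True) _ (by positivity) (fun _ _ _ => trivial)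
      fun c _ => ?_).trans (mul_le_of_le_one_right (by positivity) (pr_le_one _)))
    have h1 := est_kap F hF hg1 c (F.toStr.base f x) ((cI d f [hd f]).map (fun W =>
      (W, F.kap ω0.1 ω0.2.1 (F.toStr.ev (F.toStr.base f x) W))) ++ R) (by
        rw [List.map_append, List.map_map, List.nodup_append']
        simp only [Function.comp_def, List.map_id']
        refine ⟨cI_nodup d f trivial rfl, hR, fun W h1 h2 => ?_⟩
        obtain ⟨q, hq, rfl⟩ := List.mem_map.1 h2
        have a1 := (hI _ h1).2.2.1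
        have a2 := (hR' q hq).2.2.1
        omega) fun q hq => by
        rcases List.mem_append.1 hq with hq | hq
        · obtain ⟨W, hW, rfl⟩ := List.mem_map.1 hq
          obtain ⟨a1, a2, a3, -⟩ := hI W hW
          have a4 := length_le_wt a1
          exact ⟨a1, a2, by dsimp only; omega⟩
        · exact ⟨(hR' q hq).1, (hR' q hq).2.1, (hR' q hq).2.2.2⟩
    rw [List.length_append, List.length_map] at h1
    refine (pr_prod_le _ _ _ (by positivity) ?_ fun p _ => ?_).trans
      (mul_le_mul_of_nonneg_left h1 (by positivity))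
    · rintro p β ⟨h2, h3⟩ q hq
      rcases List.mem_append.1 hq with hq | hq
      · obtain ⟨W, hW, rfl⟩ := List.mem_map.1 hq
        rw [← h0, ← ev_base F.toStr f x, rd_eq_iff] at h2
        exact h2.1 W hW
      · exact h3 q hq
    · have h2 := bits_unif F (w := 1 + d) hF hg2 c p (F.toStr.base f x) (cJ d f [hd f]).toFinset
        (fun W hW => by
          obtain ⟨a1, a2, a3, -⟩ := hJ W (List.mem_toFinset.1 hW)
          have a4 := length_le_wt a1
          exact ⟨a1, a2, a3, by omega⟩)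
        fun W => F.bits ω0.1 ω0.2.1 ω0.2.2 (F.toStr.ev (F.toStr.base f x) W)
      rw [List.toFinset_card_of_nodup (cJ_nodup d f (W := [hd f]) trivial rfl)] at h2
      refine (pr_mono fun β hβ W hW => ?_).trans h2
      have h3 := hβ.1
      rw [← h0, ← ev_base F.toStr f x, rd_eq_iff] at h3
      exact h3.2 W (List.mem_toFinset.1 hW)
  have hc := card_Om d f [hd f]
  have : Nonempty (Om d f) := Fintype.card_pos_iff.1 (by rw [hc]; positivity)
  refine (pr_mono fun ω hω => ?_).trans ((pr_exists_le (Finset.univ.filter (bad d f)) _).trans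
    ((Finset.sum_le_card_nsmul _ _ _ fun θ _ => key θ).trans (le_of_eq ?_)))
  · exact ⟨_, Finset.mem_filter.2 ⟨Finset.mem_univ _, hω.1⟩, rfl, hω.2⟩
  · rw [nsmul_eq_mul, ← pr_eq_card_mul, hc, pow_add]
    push_cast
    simp only [one_div, inv_pow]
    field_simp

/-- `est_fail_gen` with `R = []`. -/
theorem est_fail (F : Frame V) {g d : ℕ} (hF : F.toStr.Free g)
    (hg : 2 * (2 * d + 3 + 4 * F.Lc + 3 * F.Lb) ≤ g) (f : Bool) (x : V) :
    pr (F.fail d f x : Om3 V n → Prop) ≤ pr (bad d f) := by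
  have h := est_fail_gen (n := n) F (r := 2 * d + 3) (d := d) hF le_rfl (by omega) (by omega) f x []
    List.nodup_nil (fun q hq => absurd hq List.not_mem_nil)
  rw [List.length_nil, pow_zero, mul_one] at h
  exact (pr_mono fun ω hω => ⟨hω, fun q hq => absurd hq List.not_mem_nil⟩).trans h

/-- `est_fail_gen` with `R = rw_ i ys W k`, `r = 2 * d + 3 + 2 * Lc`. -/
theorem est_fail_mt (F : Frame V) {g d : ℕ} (hF : F.toStr.Free g)
    (hg : 2 * (2 * d + 3 + 4 * F.Lc + 3 * F.Lb) ≤ g) (f : Bool) (x : V) {W : List L}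
    (hW : W ∈ cJ d f [hd f]) (i k : Bool) (ys : List Bool) (hys : ys.length = F.Lc) :
    pr (fun ω : Om3 V n => F.fail d f x ω ∧
        F.toStr.mt (F.kap ω.1 ω.2.1) i ys (F.toStr.ev (F.toStr.base f x) W) k) ≤
      pr (bad d f) * (1 / 2 : ℝ) ^ F.Lc := by
  obtain ⟨a1, a2, a3, -⟩ := cJ_prop d f (W := [hd f]) trivial rfl W hW
  rw [est_wt] at a3
  have a4 := length_le_wt a1
  have h := est_fail_gen (n := n) F (r := 2 * d + 3 + 2 * F.Lc) (d := d) hF (by omega) (by omega)
    (by omega) f x (rw_ i ys W k) (rw_nodup _ _ _ _) fun q hq => by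
      obtain ⟨b1, b2, b3, b4⟩ := rw_prop i ys k a1 a2 q hq
      exact ⟨b1, b2, by omega, by omega⟩
  rw [rw_length, hys] at h
  exact (pr_mono fun ω hω => ⟨hω.1, (mt_iff _ _ _ _ _ _ _).1 hω.2⟩).trans h

end Pool.Agent.TC
end

-- merged part: Pool.Agent.Work.MP_0b08b2_co.Dep
section
set_option autoImplicit false

/-! The bad events are determined by their query sets; sizes of the query sets.

Order of the auxiliary facts (for `Agree ω ω' S`): `act` at `x` agrees if `ball (D+1) x ⊆ S`;
`lb j x`, `found j x` agree if `ball (D+1) (bk^[t] x) ⊆ S` for all `t ≤ j` (or `< j`), and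
`(lb j x).1 = bk^[t] x` for some `t ≤ j`; hence `kap x` agrees if `QL x ⊆ S`; `rt t`, `ch j`,
`stop j` agree if `Qloc (rt t x k) ⊆ S` for all `t ≤ j` (induction on `j` generalizing `x k`), and
`(ch j x k).1 = rt t x k` for some `t ≤ j`; hence `bits x` agrees if `Qch i k x ω ⊆ S` for all `i k`
(note `QL x ⊆ Qch i k x ω`, `t = 0`); `fail` by `rd_eq_iff` and `ev_base`. -/

namespace Pool.Agent.TC

variable {V : Type} [Fintype V] [DecidableEq V] {n : ℕ}

/-! ### Chains -/

section chains

omit [Fintype V] [DecidableEq V]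

variable {G : Str V} {a a' : V → Prop} {κ κ' : V → Bool} {i : Bool}

theorem dep_rt (j : ℕ) (x : V) (k : Bool)
    (h : ∀ t < j, κ (G.s (G.rt κ i t x k)) = κ' (G.s (G.rt κ i t x k))) :
    G.rt κ' i j x k = G.rt κ i j x k := by
  induction j generalizing x k with
  | zero => rfl
  | succ j ih =>
    have h0 : κ (G.s x) = κ' (G.s x) := h 0 (Nat.succ_pos j)
    simp only [Str.rt, ← h0]
    exact ih _ _ fun t ht => h (t + 1) (Nat.succ_lt_succ ht)

theorem dep_ch (j : ℕ) (x : V) (k : Bool)
    (h : ∀ t < j, κ (G.s (G.rt κ i t x k)) = κ' (G.s (G.rt κ i t x k)))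
    (ha : ∀ t < j, a (G.rt κ i t x k) ↔ a' (G.rt κ i t x k)) :
    G.ch a' κ' i j x k = G.ch a κ i j x k := by
  induction j generalizing x k with
  | zero => rfl
  | succ j ih =>
    have h0 : κ (G.s x) = κ' (G.s x) := h 0 (Nat.succ_pos j)
    have a0 : a x ↔ a' x := ha 0 (Nat.succ_pos j)
    have := ih (G.nx (turn i k (κ (G.s x))) x) (κ (G.s x))
      (fun t ht => h (t + 1) (Nat.succ_lt_succ ht)) fun t ht => ha (t + 1) (Nat.succ_lt_succ ht)
    simp only [Str.ch, ← h0, this]
    by_cases hx : a x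
    · rw [if_pos hx, if_pos (a0.1 hx)]
    · rw [if_neg hx, if_neg fun h' => hx (a0.2 h')]

theorem dep_stop (j : ℕ) (x : V) (k : Bool)
    (h : ∀ t < j, κ (G.s (G.rt κ i t x k)) = κ' (G.s (G.rt κ i t x k)))
    (ha : ∀ t < j, a (G.rt κ i t x k) ↔ a' (G.rt κ i t x k)) :
    G.stop a' κ' i j x k ↔ G.stop a κ i j x k := by
  induction j generalizing x k with
  | zero => exact Iff.rfl
  | succ j ih =>
    have h0 : κ (G.s x) = κ' (G.s x) := h 0 (Nat.succ_pos j)
    have a0 : a x ↔ a' x := ha 0 (Nat.succ_pos j)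
    have := ih (G.nx (turn i k (κ (G.s x))) x) (κ (G.s x))
      (fun t ht => h (t + 1) (Nat.succ_lt_succ ht)) fun t ht => ha (t + 1) (Nat.succ_lt_succ ht)
    simp only [Str.stop, ← h0, ← a0, this]

theorem dep_ch_fst (j : ℕ) (x : V) (k : Bool) :
    ∃ t ≤ j, (G.ch a κ i j x k).1 = G.rt κ i t x k := by
  induction j generalizing x k with
  | zero => exact ⟨0, le_rfl, rfl⟩
  | succ j ih =>
    by_cases h : a x
    · exact ⟨0, Nat.zero_le _, by simp [Str.ch, Str.rt, h]⟩
    · obtain ⟨t, ht, e⟩ := ih (G.nx (turn i k (κ (G.s x))) x) (κ (G.s x))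
      exact ⟨t + 1, Nat.succ_le_succ ht, by simp [Str.ch, Str.rt, h, e]⟩

end chains

/-! ### Balls and lines -/

theorem dep_self_ball (G : Str V) (r : ℕ) (x : V) : x ∈ G.ball r x :=
  mem_ball.2 ⟨[], Nat.zero_le _, rfl⟩

theorem dep_ball_succ (G : Str V) (r : ℕ) (x : V) : G.ball r x ⊆ G.ball (r + 1) x := fun _ h => by
  obtain ⟨W, hW, e⟩ := mem_ball.1 h
  exact mem_ball.2 ⟨W, hW.trans (Nat.le_succ r), e⟩

theorem dep_ball_m (G : Str V) (r : ℕ) (x : V) : G.ball r (G.m x) ⊆ G.ball (r + 1) x :=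
  fun _ h => by
    obtain ⟨W, hW, e⟩ := mem_ball.1 h
    exact mem_ball.2 ⟨W ++ [.M], by simpa using hW, by rw [ev_append]; exact e⟩

section fields

variable {F : Frame V} {S : Finset V} {c c' : V → Fin (n + 1)}

theorem dep_act0 (hc : ∀ v ∈ S, c v = c' v) {x : V} (h : F.toStr.ball F.D x ⊆ S) :
    F.act0 c x ↔ F.act0 c' x := by
  unfold Frame.act0
  rw [hc x (h (dep_self_ball _ _ x))]
  refine and_congr_right fun _ => forall₂_congr fun y hy => ?_
  rw [hc y (h hy)]

theorem dep_act (hc : ∀ v ∈ S, c v = c' v) {x : V} (h : F.toStr.ball (F.D + 1) x ⊆ S) :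
    F.act c x ↔ F.act c' x :=
  or_congr (dep_act0 hc ((dep_ball_succ _ _ x).trans h))
    (dep_act0 hc ((dep_ball_m _ _ x).trans h))

theorem dep_lb (hc : ∀ v ∈ S, c v = c' v) (j : ℕ) (x : V)
    (h : ∀ t < j, F.toStr.ball (F.D + 1) (F.bk^[t] x) ⊆ S) : F.lb c j x = F.lb c' j x := by
  induction j generalizing x with
  | zero => rfl
  | succ j ih =>
    have a0 : F.act c x ↔ F.act c' x := dep_act hc (h 0 (Nat.succ_pos j))
    have := ih (F.bk x) fun t ht => h (t + 1) (Nat.succ_lt_succ ht)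
    simp only [Frame.lb, this]
    by_cases hx : F.o x = true ∧ F.act c x
    · rw [if_pos hx, if_pos ⟨hx.1, a0.1 hx.2⟩]
    · rw [if_neg hx, if_neg fun h' => hx ⟨h'.1, a0.2 h'.2⟩]

theorem dep_found (hc : ∀ v ∈ S, c v = c' v) (j : ℕ) (x : V)
    (h : ∀ t < j, F.toStr.ball (F.D + 1) (F.bk^[t] x) ⊆ S) : F.found c j x ↔ F.found c' j x := by
  induction j generalizing x with
  | zero => exact Iff.rfl
  | succ j ih =>
    have a0 : F.act c x ↔ F.act c' x := dep_act hc (h 0 (Nat.succ_pos j))
    have := ih (F.bk x) fun t ht => h (t + 1) (Nat.succ_lt_succ ht)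
    simp only [Frame.found, a0, this]

omit [Fintype V] in
theorem dep_lb_fst (F : Frame V) (c : V → Fin (n + 1)) (j : ℕ) (x : V) :
    ∃ t ≤ j, (F.lb c j x).1 = F.bk^[t] x := by
  induction j generalizing x with
  | zero => exact ⟨0, le_rfl, rfl⟩
  | succ j ih =>
    by_cases h : F.o x = true ∧ F.act c x
    · exact ⟨0, Nat.zero_le _, by simp only [Frame.lb, if_pos h]; rfl⟩
    · obtain ⟨t, ht, e⟩ := ih (F.bk x)
      exact ⟨t + 1, Nat.succ_le_succ ht, by simp only [Frame.lb, if_neg h, e]; rfl⟩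

omit [Fintype V] in
theorem dep_ball_QL (F : Frame V) (x : V) {t : ℕ} (ht : t ≤ F.Lb) :
    F.toStr.ball (F.D + 1) (F.bk^[t] x) ⊆ F.QL x := fun _ h =>
  Finset.mem_biUnion.2 ⟨t, Finset.mem_range.2 (Nat.lt_succ_of_le ht), h⟩

theorem dep_self_QL (F : Frame V) (x : V) : x ∈ F.QL x :=
  dep_ball_QL F x (Nat.zero_le _) (dep_self_ball _ _ x)

omit [Fintype V] in
theorem dep_Qloc_Qch (F : Frame V) (i k : Bool) (x : V) (ω : Om3 V n) {t : ℕ} (ht : t ≤ F.Lc) :
    F.Qloc (F.toStr.rt (F.kap ω.1 ω.2.1) i t x k) ⊆ F.Qch i k x ω := fun _ h =>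
  Finset.mem_biUnion.2 ⟨t, Finset.mem_range.2 (Nat.lt_succ_of_le ht), h⟩

variable {ω ω' : Om3 V n}

theorem dep_kap (hA : Agree ω ω' S) {x : V} (h : F.QL x ⊆ S) :
    F.kap ω.1 ω.2.1 x = F.kap ω'.1 ω'.2.1 x := by
  have e := dep_lb (F := F) (fun v hv => (hA v hv).1) F.Lb x fun t ht =>
    (dep_ball_QL F x ht.le).trans h
  obtain ⟨t, ht, et⟩ := dep_lb_fst F ω.1 F.Lb x
  have hm : (F.lb ω.1 F.Lb x).1 ∈ S := by
    rw [et]
    exact h (dep_ball_QL F x ht (dep_self_ball _ _ _))
  unfold Frame.kap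
  rw [← e, (hA _ hm).2.1]

theorem dep_Qch_kap (hA : Agree ω ω' S) {i k : Bool} {x : V} (h : F.Qch i k x ω ⊆ S) {t : ℕ}
    (ht : t ≤ F.Lc) : F.kap ω.1 ω.2.1 (F.toStr.s (F.toStr.rt (F.kap ω.1 ω.2.1) i t x k)) =
      F.kap ω'.1 ω'.2.1 (F.toStr.s (F.toStr.rt (F.kap ω.1 ω.2.1) i t x k)) :=
  dep_kap hA (Finset.subset_union_right.trans ((dep_Qloc_Qch F i k x ω ht).trans h))

theorem dep_Qch_act (hA : Agree ω ω' S) {i k : Bool} {x : V} (h : F.Qch i k x ω ⊆ S) {t : ℕ}
    (ht : t ≤ F.Lc) : F.act ω.1 (F.toStr.rt (F.kap ω.1 ω.2.1) i t x k) ↔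
      F.act ω'.1 (F.toStr.rt (F.kap ω.1 ω.2.1) i t x k) :=
  dep_act (fun v hv => (hA v hv).1) ((dep_ball_QL F _ (Nat.zero_le _)).trans
    (Finset.subset_union_left.trans ((dep_Qloc_Qch F i k x ω ht).trans h)))

theorem dep_Qch (hA : Agree ω ω' S) {i k : Bool} {x : V} (h : F.Qch i k x ω ⊆ S) :
    F.Qch i k x ω' = F.Qch i k x ω := by
  unfold Frame.Qch
  refine Finset.biUnion_congr rfl fun t ht => ?_
  have ht' : t ≤ F.Lc := Nat.le_of_lt_succ (Finset.mem_range.1 ht)
  rw [dep_rt t x k fun u hu => dep_Qch_kap hA h (hu.le.trans ht')]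

theorem dep_bitv (hA : Agree ω ω' S) {i : Bool} {x : V} (h : ∀ k, F.Qch i k x ω ⊆ S) :
    F.bitv ω.1 ω.2.1 ω.2.2 i x = F.bitv ω'.1 ω'.2.1 ω'.2.2 i x := by
  have hk : F.kap ω.1 ω.2.1 x = F.kap ω'.1 ω'.2.1 x :=
    dep_kap hA (Finset.subset_union_left.trans
      ((dep_Qloc_Qch F i false x ω (Nat.zero_le _)).trans (h false)))
  have e := dep_ch (G := F.toStr) (i := i) F.Lc x (F.kap ω.1 ω.2.1 x)
    (fun t ht => dep_Qch_kap hA (h _) ht.le) fun t ht => dep_Qch_act hA (h _) ht.le
  obtain ⟨t, ht, et⟩ := dep_ch_fst (G := F.toStr) (a := F.act ω.1) (κ := F.kap ω.1 ω.2.1) (i := i)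
    F.Lc x (F.kap ω.1 ω.2.1 x)
  have hm : (F.toStr.ch (F.act ω.1) (F.kap ω.1 ω.2.1) i F.Lc x (F.kap ω.1 ω.2.1 x)).1 ∈ S := by
    rw [et]
    exact h _ (dep_Qloc_Qch F i _ x ω ht (Finset.subset_union_left (dep_self_QL F _)))
  unfold Frame.bitv
  rw [← hk, e, (hA _ hm).2.2]

end fields

theorem dep_bad (F : Frame V) (d : ℕ) (i : V ⊕ ((Bool × Bool) × V) ⊕ (Bool × V))
    (ω ω' : Om3 V n) (hB : F.Bad d i ω) (hA : Agree ω ω' (F.Q d i ω)) :
    F.Bad d i ω' ∧ F.Q d i ω' = F.Q d i ω := by
  rcases i with x | ⟨ik, x⟩ | ⟨f, x⟩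
  · refine ⟨fun h => hB ?_, rfl⟩
    exact (dep_found (F := F) (fun v hv => (hA v hv).1) _ x fun t ht =>
      dep_ball_QL F x (by omega)).2 h
  · refine ⟨fun h => hB ?_, dep_Qch hA subset_rfl⟩
    exact (dep_stop (G := F.toStr) _ x ik.2
      (fun t ht => dep_Qch_kap hA subset_rfl (by omega))
      fun t ht => dep_Qch_act hA subset_rfl (by omega)).1 h
  · have hI : ∀ X ∈ cI d f [hd f],
        F.QL (F.toStr.ev (F.toStr.base f x) X) ⊆ F.Qf d f x ω := fun X hX v hv =>
      Finset.mem_insert_of_mem (Finset.mem_union_left _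
        (Finset.mem_biUnion.2 ⟨X, List.mem_toFinset.2 hX, hv⟩))
    have hJ : ∀ X ∈ cJ d f [hd f], ∀ i k,
        F.Qch i k (F.toStr.ev (F.toStr.base f x) X) ω ⊆ F.Qf d f x ω := fun X hX i k v hv =>
      Finset.mem_insert_of_mem (Finset.mem_union_right _
        (Finset.mem_biUnion.2 ⟨X, List.mem_toFinset.2 hX,
          Finset.mem_biUnion.2 ⟨(i, k), Finset.mem_univ _, hv⟩⟩))
    constructor
    · have e := (rd_eq_iff F.toStr (F.kap ω.1 ω.2.1) (F.kap ω'.1 ω'.2.1)
        (F.bits ω.1 ω.2.1 ω.2.2) (F.bits ω'.1 ω'.2.1 ω'.2.2) (F.toStr.base f x) d f [hd f]).2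
        ⟨fun X hX => dep_kap hA (hI X hX), fun X hX =>
          Prod.ext (dep_bitv hA (hJ X hX false)) (dep_bitv hA (hJ X hX true))⟩
      rw [ev_base] at e
      change bad d f _ at hB ⊢
      rw [← e]
      exact hB
    · change F.Qf d f x ω' = F.Qf d f x ω
      unfold Frame.Qf
      refine congrArg (insert x) (congrArg₂ (· ∪ ·) rfl ?_)
      exact Finset.biUnion_congr rfl fun X hX => Finset.biUnion_congr rfl fun ik _ =>
        dep_Qch hA (hJ X (List.mem_toFinset.1 hX) ik.1 ik.2)

theorem bk_injective (F : Frame V) : Function.Injective F.bk := by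
  intro x y h
  have ho : ∀ z, F.o (F.bk z) = !F.o z := fun z => by
    unfold Frame.bk
    split_ifs
    · exact F.om z
    · exact F.ot z
  have hxy : F.o x = F.o y := by
    have h1 := ho x
    rw [h, ho y] at h1
    exact (Bool.not_inj h1).symm
  unfold Frame.bk at h
  rw [hxy] at h
  split_ifs at h
  · exact F.m.injective h
  · exact F.s.symm.injective (F.m.injective (F.s.injective h))

theorem card_QL (F : Frame V) (x : V) : (F.QL x).card ≤ F.KL := by
  refine (Finset.card_biUnion_le_card_mul _ _ _ fun j _ => card_ball F.toStr _ _).trans ?_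
  rw [Finset.card_range]
  exact le_rfl

theorem card_QL_rev (F : Frame V) (v : V) :
    (Finset.univ.filter fun x => v ∈ F.QL x).card ≤ F.KL := by
  have h1 : (Finset.univ.filter fun x => v ∈ F.QL x) ⊆ (Finset.range (F.Lb + 1)).biUnion fun j =>
      Finset.univ.filter fun x => v ∈ F.toStr.ball (F.D + 1) (F.bk^[j] x) := fun x hx => by
    obtain ⟨j, hj, h⟩ := Finset.mem_biUnion.1 (Finset.mem_filter.1 hx).2
    exact Finset.mem_biUnion.2 ⟨j, hj, Finset.mem_filter.2 ⟨Finset.mem_univ _, h⟩⟩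
  refine (Finset.card_le_card h1).trans ?_
  refine (Finset.card_biUnion_le_card_mul _ _ (3 ^ (F.D + 1 + 1)) fun j _ => ?_).trans ?_
  · refine le_trans ?_ (card_ball_rev F.toStr (F.D + 1) v)
    refine Finset.card_le_card_of_injOn (F.bk^[j]) (fun x hx => ?_)
      ((bk_injective F).iterate j).injOn
    simpa using hx
  · rw [Finset.card_range]
    exact le_rfl

theorem card_Qloc_rev (F : Frame V) (v : V) :
    (Finset.univ.filter fun x => v ∈ F.Qloc x).card ≤ 2 * F.KL := by
  have h1 : (Finset.univ.filter fun x => v ∈ F.Qloc x) ⊆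
      (Finset.univ.filter fun x => v ∈ F.QL x) ∪
        Finset.univ.filter fun x => v ∈ F.QL (F.s x) := fun x hx => by
    simpa [Frame.Qloc] using hx
  have h2 : (Finset.univ.filter fun x => v ∈ F.QL (F.s x)).card ≤
      (Finset.univ.filter fun x => v ∈ F.QL x).card := by
    refine Finset.card_le_card_of_injOn F.s (fun x hx => ?_) F.s.injective.injOn
    simpa using hx
  have h3 := card_QL_rev F v
  have h4 := (Finset.card_le_card h1).trans (Finset.card_union_le _ _)
  omega

theorem dep_card_Qch (F : Frame V) (i k : Bool) (x : V) (ω : Om3 V n) :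
    (F.Qch i k x ω).card ≤ (F.Lc + 1) * (2 * F.KL) := by
  refine (Finset.card_biUnion_le_card_mul _ _ (2 * F.KL) fun t _ => ?_).trans ?_
  · refine (Finset.card_union_le _ _).trans ?_
    rw [two_mul]
    exact Nat.add_le_add (card_QL F _) (card_QL F _)
  · rw [Finset.card_range]

theorem Q_card (F : Frame V) (d : ℕ) (i : V ⊕ ((Bool × Bool) × V) ⊕ (Bool × V)) (ω : Om3 V n) :
    (F.Q d i ω).Nonempty ∧ (F.Q d i ω).card ≤ F.MM d := by
  have hK : 1 ≤ F.KL := Nat.mul_pos (Nat.succ_pos _) (by positivity)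
  have hA : 1 ≤ 3 ^ d := Nat.one_le_pow _ _ (by norm_num)
  have hM : F.MM d = 30 * (3 ^ d * ((F.Lc + 1) * F.KL)) := by
    unfold Frame.MM
    ring
  have b1 : F.KL ≤ (F.Lc + 1) * F.KL := Nat.le_mul_of_pos_left _ (Nat.succ_pos _)
  have b2 : (F.Lc + 1) * F.KL ≤ 3 ^ d * ((F.Lc + 1) * F.KL) := Nat.le_mul_of_pos_left _ hA
  have b3 : 3 ^ d * F.KL ≤ 3 ^ d * ((F.Lc + 1) * F.KL) := Nat.mul_le_mul_left _ b1
  rcases i with x | ⟨ik, x⟩ | ⟨f, x⟩
  · refine ⟨⟨x, dep_self_QL F x⟩, (card_QL F x).trans ?_⟩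
    omega
  · refine ⟨⟨x, dep_Qloc_Qch F ik.1 ik.2 x ω (Nat.zero_le _)
      (Finset.subset_union_left (dep_self_QL F x))⟩, (dep_card_Qch F ik.1 ik.2 x ω).trans ?_⟩
    have : (F.Lc + 1) * (2 * F.KL) = 2 * ((F.Lc + 1) * F.KL) := by ring
    omega
  · refine ⟨Finset.insert_nonempty _ _, (Finset.card_insert_le _ _).trans ?_⟩
    have c1 := Finset.card_biUnion_le_card_mul (cI d f [hd f]).toFinset
      (fun W => F.QL (F.toStr.ev (F.toStr.base f x) W)) F.KL fun W _ => card_QL F _
    have c2 := Finset.card_biUnion_le_card_mul (cJ d f [hd f]).toFinset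
      (fun W => (Finset.univ : Finset (Bool × Bool)).biUnion
        fun ik => F.Qch ik.1 ik.2 (F.toStr.ev (F.toStr.base f x) W) ω)
      (4 * ((F.Lc + 1) * (2 * F.KL))) fun W _ =>
        (Finset.card_biUnion_le_card_mul _ _ _ fun ik _ => dep_card_Qch F ik.1 ik.2 _ ω).trans
          (by simp)
    have c3 := Nat.mul_le_mul_right F.KL
      ((List.toFinset_card_le (cI d f [hd f])).trans (cI_length d f [hd f]))
    have c4 := Nat.mul_le_mul_right (4 * ((F.Lc + 1) * (2 * F.KL)))
      ((List.toFinset_card_le (cJ d f [hd f])).trans (cJ_length d f [hd f]))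
    have c5 : 3 ^ (d + 1) * F.KL = 3 * (3 ^ d * F.KL) := by ring
    have c6 : 3 ^ d * (4 * ((F.Lc + 1) * (2 * F.KL))) = 8 * (3 ^ d * ((F.Lc + 1) * F.KL)) := by
      ring
    refine (Nat.succ_le_succ ((Finset.card_union_le _ _).trans
      (Nat.add_le_add (c1.trans c3) (c2.trans c4)))).trans ?_
    omega

end Pool.Agent.TC
end

-- merged part: Pool.Agent.Work.MP_0b08b2_co.Sum
section
set_option autoImplicit false

/-! The total weight of the bad events that query a given vertex. -/

namespace Pool.Agent.TC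

variable {V : Type} [Fintype V] [DecidableEq V] {n : ℕ}

theorem sum_ite_inj (φ : V → V) (hφ : Function.Injective φ) (v : V) (c : ℝ) (hc : 0 ≤ c) :
    ∑ x, (if φ x = v then c else 0) ≤ c := by
  rw [← Finset.sum_filter, Finset.sum_const, nsmul_eq_mul]
  have h1 : (Finset.univ.filter fun x => φ x = v).card ≤ 1 := by
    rw [Finset.card_le_one]
    intro a ha b hb
    exact hφ (((Finset.mem_filter.1 ha).2).trans ((Finset.mem_filter.1 hb).2).symm)
  have h2 : ((Finset.univ.filter fun x => φ x = v).card : ℝ) ≤ 1 := by exact_mod_cast h1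
  nlinarith

/-- Events that are only counted when a deterministic condition holds. -/
theorem sum_and_le {Ω : Type} [Fintype Ω] (E : Ω → Prop) (P : Prop) [Decidable P] (c : ℝ)
    (h : pr E ≤ c) : pr (fun ω => E ω ∧ P) ≤ if P then c else 0 := by
  by_cases hP : P
  · rw [if_pos hP]
    exact (pr_mono fun ω hω => hω.1).trans h
  · rw [if_neg hP]
    exact (pr_eq_zero fun ω hω => hP hω.2).le

theorem sum_QL (F : Frame V) (E : V → Om3 V n → Prop) (ψ : V → V) (hψ : Function.Injective ψ)
    (η : ℝ) (hη : 0 ≤ η) (h : ∀ x, pr (E x) ≤ η) (v : V) :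
    ∑ x, pr (fun ω => E x ω ∧ v ∈ F.QL (ψ x)) ≤ (F.KL : ℝ) * η := by
  refine (Finset.sum_le_sum fun x _ => sum_and_le (E x) (v ∈ F.QL (ψ x)) η (h x)).trans ?_
  rw [← Finset.sum_filter, Finset.sum_const, nsmul_eq_mul]
  refine mul_le_mul_of_nonneg_right ?_ hη
  have h1 : (Finset.univ.filter fun x => v ∈ F.QL (ψ x)).card ≤
      (Finset.univ.filter fun y => v ∈ F.QL y).card := by
    refine Finset.card_le_card_of_injOn ψ ?_ hψ.injOn
    intro x hx
    simp only [Finset.coe_filter, Finset.mem_univ, true_and, Set.mem_ofPred_eq] at hx ⊢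
    exact hx
  exact_mod_cast h1.trans (card_QL_rev F v)

/-- Criticality. By `exists_mt`, `rt_eq_dr` the event is covered by the events
`E x ∧ mt ys (ψ x) k ∧ dr i (ys.take t) (ψ x) k = v`, `ys` ranging over the `2 ^ Lc` lists of
length `Lc` (e.g. the image of `List.ofFn` on `Fin Lc → Bool`); for fixed `ys` at most one `x`
satisfies the last condition (`dr_injective`). -/
theorem route_sum (F : Frame V) (E : V → Om3 V n → Prop) (ψ : V → V)
    (hψ : Function.Injective ψ) (i k : Bool) (δ : ℝ) (hδ : 0 ≤ δ)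
    (h : ∀ x ys, ys.length = F.Lc →
      pr (fun ω => E x ω ∧ F.toStr.mt (F.kap ω.1 ω.2.1) i ys (ψ x) k) ≤ δ * (1 / 2 : ℝ) ^ F.Lc)
    (t : ℕ) (ht : t ≤ F.Lc) (v : V) :
    ∑ x, pr (fun ω => E x ω ∧ F.toStr.rt (F.kap ω.1 ω.2.1) i t (ψ x) k = v) ≤ δ := by
  have hc : 0 ≤ δ * (1 / 2 : ℝ) ^ F.Lc := by positivity
  have h1 : ∀ x, pr (fun ω => E x ω ∧ F.toStr.rt (F.kap ω.1 ω.2.1) i t (ψ x) k = v) ≤
      ∑ g : Fin F.Lc → Bool,
        (if F.toStr.dr i ((List.ofFn g).take t) (ψ x) k = v then δ * (1 / 2 : ℝ) ^ F.Lc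
          else 0) := by
    intro x
    refine le_trans (pr_mono (E' := fun ω => ∃ g ∈ (Finset.univ : Finset (Fin F.Lc → Bool)),
      (E x ω ∧ F.toStr.mt (F.kap ω.1 ω.2.1) i (List.ofFn g) (ψ x) k) ∧
        F.toStr.dr i ((List.ofFn g).take t) (ψ x) k = v) ?_) ?_
    · rintro ω ⟨hE, hr⟩
      obtain ⟨ys, hl, hm⟩ := exists_mt F.toStr (F.kap ω.1 ω.2.1) i F.Lc (ψ x) k
      have hys : List.ofFn (fun j : Fin F.Lc => ys.get (j.cast hl.symm)) = ys := by
        apply List.ext_get
        · simp [hl]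
        · intro j h1 h2
          simp
      refine ⟨fun j => ys.get (j.cast hl.symm), Finset.mem_univ _, ?_⟩
      rw [hys]
      refine ⟨⟨hE, hm⟩, ?_⟩
      rw [← rt_eq_dr F.toStr _ i ys (ψ x) k hm t (hl ▸ ht)]
      exact hr
    · refine (pr_exists_le _ _).trans (Finset.sum_le_sum fun g _ => ?_)
      exact sum_and_le _ _ _ (h x _ (by simp))
  refine (Finset.sum_le_sum fun x _ => h1 x).trans ?_
  rw [Finset.sum_comm]
  refine (Finset.sum_le_sum (g := fun _ => δ * (1 / 2 : ℝ) ^ F.Lc) fun g _ => ?_).trans ?_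
  · exact sum_ite_inj (fun x => F.toStr.dr i ((List.ofFn g).take t) (ψ x) k)
      ((dr_injective F.toStr i _ k).comp hψ) v _ hc
  · rw [Finset.sum_const, nsmul_eq_mul, Finset.card_univ, Fintype.card_fun, Fintype.card_bool,
      Fintype.card_fin]
    push_cast
    have : (2 : ℝ) ^ F.Lc * (1 / 2 : ℝ) ^ F.Lc = 1 := by
      rw [← mul_pow]; norm_num
    calc (2 : ℝ) ^ F.Lc * (δ * (1 / 2 : ℝ) ^ F.Lc)
        = δ * ((2 : ℝ) ^ F.Lc * (1 / 2 : ℝ) ^ F.Lc) := by ring
      _ ≤ δ := by rw [this, mul_one]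

/-- `v ∈ Qch i k (ψ x) ω` means `rt t (ψ x) k = u` for some `t ≤ Lc` and some `u` with
`v ∈ Qloc u` (`card_Qloc_rev`). -/
theorem qch_sum (F : Frame V) (E : V → Om3 V n → Prop) (ψ : V → V)
    (hψ : Function.Injective ψ) (i k : Bool) (δ : ℝ) (hδ : 0 ≤ δ)
    (h : ∀ x ys, ys.length = F.Lc →
      pr (fun ω => E x ω ∧ F.toStr.mt (F.kap ω.1 ω.2.1) i ys (ψ x) k) ≤ δ * (1 / 2 : ℝ) ^ F.Lc)
    (v : V) :
    ∑ x, pr (fun ω => E x ω ∧ v ∈ F.Qch i k (ψ x) ω) ≤
      ((F.Lc + 1) * (2 * F.KL) : ℕ) * δ := by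
  set U : Finset V := Finset.univ.filter fun u => v ∈ F.Qloc u with hU
  have h1 : ∀ x, pr (fun ω => E x ω ∧ v ∈ F.Qch i k (ψ x) ω) ≤
      ∑ q ∈ Finset.range (F.Lc + 1) ×ˢ U,
        pr (fun ω => E x ω ∧ F.toStr.rt (F.kap ω.1 ω.2.1) i q.1 (ψ x) k = q.2) := by
    intro x
    refine le_trans (pr_mono ?_) (pr_exists_le _ _)
    rintro ω ⟨hE, hv⟩
    obtain ⟨t, ht, hv⟩ := Finset.mem_biUnion.1 hv
    exact ⟨(t, F.toStr.rt (F.kap ω.1 ω.2.1) i t (ψ x) k),
      Finset.mem_product.2 ⟨ht, Finset.mem_filter.2 ⟨Finset.mem_univ _, hv⟩⟩, hE, rfl⟩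
  refine (Finset.sum_le_sum fun x _ => h1 x).trans ?_
  rw [Finset.sum_comm]
  refine (Finset.sum_le_sum (g := fun _ => δ) fun q hq => ?_).trans ?_
  · have := Finset.mem_range.1 (Finset.mem_product.1 hq).1
    exact route_sum F E ψ hψ i k δ hδ h q.1 (by omega) q.2
  · rw [Finset.sum_const, nsmul_eq_mul, Finset.card_product, Finset.card_range]
    refine mul_le_mul_of_nonneg_right ?_ hδ
    exact_mod_cast Nat.mul_le_mul_left _ (card_Qloc_rev F v)

theorem sum_fail (F : Frame V) (d : ℕ) (η : ℝ) (hη : 0 ≤ η) (f : Bool)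
    (hfail : ∀ x, pr (F.fail d f x : Om3 V n → Prop) ≤ η)
    (hfail' : ∀ x, ∀ W ∈ cJ d f [hd f], ∀ i k ys, ys.length = F.Lc →
      pr (fun ω : Om3 V n => F.fail d f x ω ∧
        F.toStr.mt (F.kap ω.1 ω.2.1) i ys (F.toStr.ev (F.toStr.base f x) W) k) ≤
          η * (1 / 2 : ℝ) ^ F.Lc)
    (v : V) :
    ∑ x, pr (fun ω : Om3 V n => F.fail d f x ω ∧ v ∈ F.Qf d f x ω) ≤
      ((1 + 3 ^ (d + 1) * F.KL + 3 ^ d * 4 * ((F.Lc + 1) * (2 * F.KL)) : ℕ) : ℝ) * η := by
  have hinj : ∀ W : List L, Function.Injective fun x => F.toStr.ev (F.toStr.base f x) W :=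
    fun W => (ev_injective F.toStr W).comp (base_injective F.toStr f)
  have h1 : ∀ x, pr (fun ω : Om3 V n => F.fail d f x ω ∧ v ∈ F.Qf d f x ω) ≤
      (if x = v then η else 0) +
        (∑ W ∈ (cI d f [hd f]).toFinset, pr (fun ω : Om3 V n => F.fail d f x ω ∧
          v ∈ F.QL (F.toStr.ev (F.toStr.base f x) W)) +
        ∑ q ∈ (cJ d f [hd f]).toFinset ×ˢ (Finset.univ : Finset (Bool × Bool)),
          pr (fun ω : Om3 V n => F.fail d f x ω ∧
            v ∈ F.Qch q.2.1 q.2.2 (F.toStr.ev (F.toStr.base f x) q.1) ω)) := by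
    intro x
    refine le_trans (pr_mono (E' := fun ω : Om3 V n => (F.fail d f x ω ∧ x = v) ∨
      ((∃ W ∈ (cI d f [hd f]).toFinset, F.fail d f x ω ∧
          v ∈ F.QL (F.toStr.ev (F.toStr.base f x) W)) ∨
        ∃ q ∈ (cJ d f [hd f]).toFinset ×ˢ (Finset.univ : Finset (Bool × Bool)),
          F.fail d f x ω ∧ v ∈ F.Qch q.2.1 q.2.2 (F.toStr.ev (F.toStr.base f x) q.1) ω)) ?_) ?_
    · rintro ω ⟨hE, hv⟩
      rcases Finset.mem_insert.1 hv with hv | hv
      · exact Or.inl ⟨hE, hv.symm⟩
      · rcases Finset.mem_union.1 hv with hv | hv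
        · obtain ⟨W, hW, hv⟩ := Finset.mem_biUnion.1 hv
          exact Or.inr (Or.inl ⟨W, hW, hE, hv⟩)
        · obtain ⟨W, hW, hv⟩ := Finset.mem_biUnion.1 hv
          obtain ⟨ik, hik, hv⟩ := Finset.mem_biUnion.1 hv
          exact Or.inr (Or.inr ⟨(W, ik), Finset.mem_product.2 ⟨hW, hik⟩, hE, hv⟩)
    · refine (pr_or_le _ _).trans (add_le_add (sum_and_le _ _ _ (hfail x)) ?_)
      exact (pr_or_le _ _).trans (add_le_add (pr_exists_le _ _) (pr_exists_le _ _))
  refine (Finset.sum_le_sum fun x _ => h1 x).trans ?_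
  rw [Finset.sum_add_distrib, Finset.sum_add_distrib]
  have hA : ∑ x, (if x = v then η else 0) ≤ η :=
    sum_ite_inj (fun x => x) Function.injective_id v η hη
  have hB : ∑ x, ∑ W ∈ (cI d f [hd f]).toFinset, pr (fun ω : Om3 V n => F.fail d f x ω ∧
      v ∈ F.QL (F.toStr.ev (F.toStr.base f x) W)) ≤ ((3 ^ (d + 1) * F.KL : ℕ) : ℝ) * η := by
    rw [Finset.sum_comm]
    refine (Finset.sum_le_sum (g := fun _ => (F.KL : ℝ) * η) fun W _ => ?_).trans ?_
    · exact sum_QL F (fun x => F.fail d f x) _ (hinj W) η hη hfail v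
    · rw [Finset.sum_const, nsmul_eq_mul, ← mul_assoc]
      refine mul_le_mul_of_nonneg_right ?_ hη
      have := (List.toFinset_card_le (cI d f [hd f])).trans (cI_length d f [hd f])
      exact_mod_cast Nat.mul_le_mul_right _ this
  have hC : ∑ x, ∑ q ∈ (cJ d f [hd f]).toFinset ×ˢ (Finset.univ : Finset (Bool × Bool)),
      pr (fun ω : Om3 V n => F.fail d f x ω ∧
        v ∈ F.Qch q.2.1 q.2.2 (F.toStr.ev (F.toStr.base f x) q.1) ω) ≤
      ((3 ^ d * 4 * ((F.Lc + 1) * (2 * F.KL)) : ℕ) : ℝ) * η := by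
    rw [Finset.sum_comm]
    refine (Finset.sum_le_sum
      (g := fun _ => (((F.Lc + 1) * (2 * F.KL) : ℕ) : ℝ) * η) fun q hq => ?_).trans ?_
    · have hW := List.mem_toFinset.1 (Finset.mem_product.1 hq).1
      exact qch_sum F (fun x => F.fail d f x) _ (hinj q.1) q.2.1 q.2.2 η hη
        (fun x ys hys => hfail' x q.1 hW q.2.1 q.2.2 ys hys) v
    · rw [Finset.sum_const, nsmul_eq_mul, ← mul_assoc, Finset.card_product, Finset.card_univ,
        Fintype.card_prod, Fintype.card_bool]
      refine mul_le_mul_of_nonneg_right ?_ hη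
      have := (List.toFinset_card_le (cJ d f [hd f])).trans (cJ_length d f [hd f])
      exact_mod_cast Nat.mul_le_mul_right _ (Nat.mul_le_mul_right _ this)
  push_cast at hB hC ⊢
  nlinarith

/-- With `X = (Lc + 1) * KL`, `a = 3 ^ (d + 1)`: gap events contribute at most `KL * η`, long
events `8 X η`, fail events `2 (1 + a KL + 3 ^ d * 4 * 2 X) η`; the total is at most `11 a X η`.
(`x ↦ ev (base f x) W` is injective: `ev_injective`, `base_injective`.) -/
theorem sum_bound (F : Frame V) (d : ℕ) (η : ℝ) (hη : 0 ≤ η)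
    (hgap : ∀ x, pr (F.gap x : Om3 V n → Prop) ≤ η)
    (hlong : ∀ i k x ys, ys.length = F.Lc →
      pr (fun ω : Om3 V n => F.long i k x ω ∧ F.toStr.mt (F.kap ω.1 ω.2.1) i ys x k) ≤
        η * (1 / 2 : ℝ) ^ F.Lc)
    (hfail : ∀ f x, pr (F.fail d f x : Om3 V n → Prop) ≤ η)
    (hfail' : ∀ f x, ∀ W ∈ cJ d f [hd f], ∀ i k ys, ys.length = F.Lc →
      pr (fun ω : Om3 V n => F.fail d f x ω ∧
        F.toStr.mt (F.kap ω.1 ω.2.1) i ys (F.toStr.ev (F.toStr.base f x) W) k) ≤
          η * (1 / 2 : ℝ) ^ F.Lc)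
    (v : V) :
    ∑ i, pr (fun ω : Om3 V n => F.Bad d i ω ∧ v ∈ F.Q d i ω) ≤ 3 * (F.MM d : ℝ) * η := by
  rw [Fintype.sum_sum_type, Fintype.sum_sum_type, Fintype.sum_prod_type (α₁ := Bool × Bool),
    Fintype.sum_prod_type (α₁ := Bool) (α₂ := V)]
  have hA : ∑ x, pr (fun ω : Om3 V n => F.Bad d (Sum.inl x) ω ∧ v ∈ F.Q d (Sum.inl x) ω) ≤
      (F.KL : ℝ) * η :=
    sum_QL F (fun x => F.gap x) (fun x => x) Function.injective_id η hη hgap v
  have hB : ∑ ik : Bool × Bool, ∑ x, pr (fun ω : Om3 V n =>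
      F.Bad d (Sum.inr (Sum.inl (ik, x))) ω ∧ v ∈ F.Q d (Sum.inr (Sum.inl (ik, x))) ω) ≤
      ((4 * ((F.Lc + 1) * (2 * F.KL)) : ℕ) : ℝ) * η := by
    refine (Finset.sum_le_sum
      (g := fun _ => (((F.Lc + 1) * (2 * F.KL) : ℕ) : ℝ) * η) fun ik _ => ?_).trans ?_
    · exact qch_sum F (fun x => F.long ik.1 ik.2 x) (fun x => x) Function.injective_id ik.1 ik.2
        η hη (fun x ys hys => hlong ik.1 ik.2 x ys hys) v
    · rw [Finset.sum_const, nsmul_eq_mul, ← mul_assoc, Finset.card_univ,
        Fintype.card_prod, Fintype.card_bool]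
      push_cast
      exact le_of_eq (by ring)
  have hC : ∑ f : Bool, ∑ x, pr (fun ω : Om3 V n =>
      F.Bad d (Sum.inr (Sum.inr (f, x))) ω ∧ v ∈ F.Q d (Sum.inr (Sum.inr (f, x))) ω) ≤
      ((2 * (1 + 3 ^ (d + 1) * F.KL + 3 ^ d * 4 * ((F.Lc + 1) * (2 * F.KL))) : ℕ) : ℝ) * η := by
    refine (Finset.sum_le_sum (g := fun _ =>
      ((1 + 3 ^ (d + 1) * F.KL + 3 ^ d * 4 * ((F.Lc + 1) * (2 * F.KL)) : ℕ) : ℝ) * η)
        fun f _ => ?_).trans ?_
    · exact sum_fail F d η hη f (hfail f) (hfail' f) v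
    · rw [Finset.sum_const, nsmul_eq_mul, ← mul_assoc, Finset.card_univ, Fintype.card_bool]
      push_cast
      exact le_of_eq (by ring)
  have hN : F.KL + (4 * ((F.Lc + 1) * (2 * F.KL)) +
      2 * (1 + 3 ^ (d + 1) * F.KL + 3 ^ d * 4 * ((F.Lc + 1) * (2 * F.KL)))) ≤ 3 * F.MM d := by
    have hK : 1 ≤ F.KL := Nat.mul_pos (Nat.succ_pos _) (pow_pos (by norm_num) _)
    have hb : 1 ≤ 3 ^ d := pow_pos (by norm_num : 0 < 3) _
    unfold Frame.MM
    rw [pow_succ]
    generalize F.KL = K at hK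
    generalize 3 ^ d = b at hb
    generalize F.Lc = c
    obtain ⟨K, rfl⟩ : ∃ K', K = K' + 1 := ⟨K - 1, by omega⟩
    obtain ⟨b, rfl⟩ : ∃ b', b = b' + 1 := ⟨b - 1, by omega⟩
    ring_nf
    omega
  have hN' : ((F.KL + (4 * ((F.Lc + 1) * (2 * F.KL)) +
      2 * (1 + 3 ^ (d + 1) * F.KL + 3 ^ d * 4 * ((F.Lc + 1) * (2 * F.KL)))) : ℕ) : ℝ) ≤
      ((3 * F.MM d : ℕ) : ℝ) := by exact_mod_cast hN
  have := mul_le_mul_of_nonneg_right hN' hη
  rw [Nat.cast_add, Nat.cast_add, Nat.cast_mul 3, Nat.cast_ofNat] at this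
  linarith

end Pool.Agent.TC
end

-- merged part: Pool.Agent.Work.MP_0b08b2_co.Sound
section
set_option autoImplicit false

/-! Soundness of the messages: every allowed pair extends to a recolouring of the subtree.

`sound_tree` is an induction on `d` proving both parts for all `W0`. Depth 0: `v X := cvS (state of
ev z X)`, `e := G.e0 κ b z`, `sem_leafF`, `sem_leafB` (with `Rel` at the leaf). Step, for the root
word `W` (`= S :: W0` or `P :: W0`), `x = ev z W`, `k = κ x`, `y = κ (s x)`, `β1 = b (s x)`,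
`β2 = b (s (m x))`: `Rel x` and `Rel (m x)` give `b x = nb k y β1 β2`,
`κ (m x) = !k`, `b (m x) = nb (!k) y β2 β1`. Use `semF` / `semB` to get `Z, A1, Am` (colour of `W`,
of the edge to the first child `hd f :: W`, of the matching edge), then `semM` to get `Z', A2, A3`
(colour of `M :: W`, edges to `S :: M :: W` and `P :: M :: W`), then the induction hypothesis three
times (`outF_lt`, `outB_lt`, `tab_lt`), and glue with `glue3`. -/

namespace Pool.Agent.TC

variable {V : Type}

open Classical in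
/-- Glue three functions along the subtrees with roots `W1 W2 W3`; value `a` at `W`, else `a'`. -/
noncomputable def glue3 (W W1 W2 W3 : List L) (f1 f2 f3 : List L → Fin 4) (a a' : Fin 4)
    (X : List L) : Fin 4 :=
  if W1 <:+ X then f1 X else if W2 <:+ X then f2 X else if W3 <:+ X then f3 X
  else if X = W then a else a'

namespace SoundAux

theorem suffix_unique {c c' : L} {W X : List L} (h : (c :: W) <:+ X) (h' : (c' :: W) <:+ X) :
    c = c' := by
  have h1 : (c :: W) <:+ (c' :: W) := List.suffix_of_suffix_length_le h h' (by simp)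
  have h2 := h1.eq_of_length (by simp)
  exact (List.cons.inj h2).1

theorem not_suffix (c : L) (W : List L) : ¬ (c :: W) <:+ W := fun h => by
  have := h.length_le
  simp at this

theorem suffix_cases {W X : List L} (h : W <:+ X) : X = W ∨ ∃ c, (c :: W) <:+ X := by
  obtain ⟨Y, rfl⟩ := h
  rcases List.eq_nil_or_concat Y with rfl | ⟨Y', c, rfl⟩
  · exact Or.inl rfl
  · exact Or.inr ⟨c, Y', by simp⟩

theorem glue (W : List L) (f : L → List L → Fin 4) (a : Fin 4) :
    ∃ g : List L → Fin 4, g W = a ∧ ∀ c X, (c :: W) <:+ X → g X = f c X := by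
  classical
  refine ⟨fun X => if h : ∃ c, (c :: W) <:+ X then f h.choose X else a, ?_, fun c X hc => ?_⟩
  · exact dif_neg fun ⟨c, hc⟩ => not_suffix c W hc
  · have h : ∃ c, (c :: W) <:+ X := ⟨c, hc⟩
    simp only [dif_pos h]
    rw [suffix_unique h.choose_spec hc]

theorem pu_congr {v e v' e' : List L → Fin 4} {X : List L} (h0 : v X = v' X ∧ e X = e' X)
    (h1 : ∀ c, v (c :: X) = v' (c :: X) ∧ e (c :: X) = e' (c :: X)) (h : PU v' e' X) :
    PU v e X := by
  cases X with
  | nil => simpa only [PU, h0.1, (h1 _).1, (h1 _).2] using h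
  | cons l W => simpa only [PU, h0.1, h0.2, (h1 _).1, (h1 _).2] using h

theorem inner_congr {G : Str V} {κ : V → Bool} {b : V → Bool × Bool} {z : V}
    {v e v' e' : List L → Fin 4} {W : List L} {w : ℕ}
    (hv : ∀ X, W <:+ X → v X = v' X) (he : ∀ X, W <:+ X → e X = e' X)
    (h : G.Inner κ b z v' e' W w) : G.Inner κ b z v e W w := by
  intro X hX hW
  refine ⟨fun hw => pu_congr ⟨hv X hW, he X hW⟩ (fun c => ?_) ((h X hX hW).1 hw), fun hw hh => ?_⟩
  · have : W <:+ c :: X := hW.trans (List.suffix_cons c X)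
    exact ⟨hv _ this, he _ this⟩
  · rw [hv X hW, he X hW]
    exact (h X hX hW).2 hw hh

theorem node {G : Str V} {κ : V → Bool} {b : V → Bool × Bool} {z : V} (W : List L) {w : ℕ}
    (hw : wt W < w) (vv ee : L → List L → Fin 4) (Z A : Fin 4)
    (hk : ∀ c, Red (c :: W) → G.Inner κ b z (vv c) (ee c) (c :: W) w)
    (hP : ∀ v e : List L → Fin 4, v W = Z → e W = A → (∀ c, v (c :: W) = vv c (c :: W)) →
      (∀ c, e (c :: W) = ee c (c :: W)) → PU v e W) :
    ∃ v e, e W = A ∧ v W = Z ∧ G.Inner κ b z v e W w := by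
  obtain ⟨v, hv0, hv⟩ := glue W vv Z
  obtain ⟨e, he0, he⟩ := glue W ee A
  refine ⟨v, e, he0, hv0, fun X hX hW => ?_⟩
  rcases suffix_cases hW with rfl | ⟨c, hc⟩
  · exact ⟨fun _ => hP v e hv0 he0 (fun c => hv c _ List.suffix_rfl)
      (fun c => he c _ List.suffix_rfl), fun h => absurd h hw.ne⟩
  · exact inner_congr (hv c) (he c) (hk c (hX.suffix hc)) X hX hc

theorem node2 {G : Str V} {κ : V → Bool} {b : V → Bool × Bool} {z : V} (l : L) (W0 : List L)
    {w : ℕ} (hw : wt (l :: W0) < w) (v1 e1 v2 e2 : List L → Fin 4) (Z A : Fin 4)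
    (h1 : G.Inner κ b z v1 e1 ((kids l).1 :: l :: W0) w)
    (h2 : G.Inner κ b z v2 e2 ((kids l).2 :: l :: W0) w)
    (n : [A, Z, e1 ((kids l).1 :: l :: W0), e2 ((kids l).2 :: l :: W0)].Nodup)
    (c1 : v1 ((kids l).1 :: l :: W0) ≠ Z) (c2 : v2 ((kids l).2 :: l :: W0) ≠ Z) :
    ∃ v e, e (l :: W0) = A ∧ v (l :: W0) = Z ∧ G.Inner κ b z v e (l :: W0) w := by
  have hne : (kids l).2 ≠ (kids l).1 := by cases l <;> decide
  refine node (l :: W0) hw (fun c => if c = (kids l).1 then v1 else v2)
    (fun c => if c = (kids l).1 then e1 else e2) Z A (fun c hc => ?_) (fun v e hv he kv ke => ?_)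
  · by_cases h : c = (kids l).1
    · simpa only [h, if_true] using h1
    · have : c = (kids l).2 := by
        have h3 : l ≠ c.inv := hc.1
        revert h h3
        cases l <;> cases c <;> decide
      simpa only [this, if_neg hne] using h2
  · simp only [PU, hv, he, kv, ke, if_true, if_neg hne]
    exact ⟨(List.Perm.swap _ _ _).nodup_iff.1 n, c1, c2⟩

end SoundAux

/-- One node: the root `l :: W0` (`l` is `S` or `P`), its partner, and three child subtrees. A
reduced `X` with suffix `l :: W0` is `l :: W0`, `M :: l :: W0`, or has one of the three child roots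
as a suffix; these cases exclude each other; `PU` at `X` only reads `X` and its two children. -/
theorem inner_node (G : Str V) (κ : V → Bool) (b : V → Bool × Bool) (z : V) (l : L)
    (hl : l ≠ .M) (W0 : List L) (w : ℕ) (hw : wt (l :: W0) < w)
    (v1 e1 v2 e2 v3 e3 : List L → Fin 4) (A Z Am Z' : Fin 4)
    (h1 : G.Inner κ b z v1 e1 (l :: l :: W0) w)
    (h2 : G.Inner κ b z v2 e2 (.S :: .M :: l :: W0) w)
    (h3 : G.Inner κ b z v3 e3 (.P :: .M :: l :: W0) w)
    (n1 : [A, Z, e1 (l :: l :: W0), Am].Nodup) (c1 : v1 (l :: l :: W0) ≠ Z) (cm : Z' ≠ Z)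
    (n2 : [Am, Z', e2 (.S :: .M :: l :: W0), e3 (.P :: .M :: l :: W0)].Nodup)
    (c2 : v2 (.S :: .M :: l :: W0) ≠ Z') (c3 : v3 (.P :: .M :: l :: W0) ≠ Z') :
    ∃ v e, e (l :: W0) = A ∧ v (l :: W0) = Z ∧ G.Inner κ b z v e (l :: W0) w := by
  obtain ⟨vm, em, hem, hvm, hm⟩ := SoundAux.node2 (G := G) (κ := κ) (b := b) (z := z) .M (l :: W0)
    (w := w) hw v2 e2 v3 e3 Z' Am h2 h3 n2 c2 c3
  cases l with
  | M => exact absurd rfl hl
  | S =>
    refine SoundAux.node2 .S W0 hw v1 e1 vm em Z A h1 hm ?_ c1 ?_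
    · simpa only [kids, hem] using n1
    · simpa only [kids, hvm] using cm
  | P =>
    refine SoundAux.node2 .P W0 hw v1 e1 vm em Z A h1 hm ?_ c1 ?_
    · simpa only [kids, hem] using n1
    · simpa only [kids, hvm] using cm

theorem sound_tree (G : Str V) (κ : V → Bool) (b : V → Bool × Bool) (z : V) (d : ℕ) :
    (∀ W0 : List L, Red (.S :: W0) →
      (∀ X, Red X → (.S :: W0) <:+ X → wt X ≤ wt (.S :: W0) + d → G.Rel κ b (G.ev z X)) →
      (outF d (κ (G.ev z (.S :: W0))) (G.rd κ b d true (G.ev z (.S :: W0)))).1 =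
          b (G.ev z (.S :: W0)) ∧
        ∀ A C, sem (κ (G.ev z (.S :: W0)), b (G.ev z (.S :: W0)))
            (outF d (κ (G.ev z (.S :: W0))) (G.rd κ b d true (G.ev z (.S :: W0)))).2 A C →
          ∃ v e, e (.S :: W0) = A ∧ v (.S :: W0) ≠ C ∧
            G.Inner κ b z v e (.S :: W0) (wt (.S :: W0) + d)) ∧
    (∀ W0 : List L, Red (.P :: W0) →
      (∀ X, Red X → (.P :: W0) <:+ X → wt X ≤ wt (.P :: W0) + d → G.Rel κ b (G.ev z X)) →
        ∀ A C, sem (κ (G.ev z W0), b (G.ev z W0))
            (outB d (κ (G.ev z W0), b (G.ev z W0)) (G.rd κ b d false (G.ev z (.P :: W0)))) A C →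
          ∃ v e, e (.P :: W0) = A ∧ v (.P :: W0) ≠ C ∧
            G.Inner κ b z v e (.P :: W0) (wt (.P :: W0) + d)) := by
  induction d with
  | zero =>
    have leaf : ∀ W : List L, G.Inner κ b z (fun X => cvS (κ (G.ev z X), b (G.ev z X)))
        (G.e0 κ b z) W (wt W + 0) := fun W X _ hW =>
      ⟨fun h => absurd (wt_le_of_suffix hW) (by omega), fun _ _ => ⟨rfl, rfl⟩⟩
    refine ⟨fun W0 _ _ => ⟨rfl, fun A C h => ?_⟩, fun W0 hW hR A C h => ?_⟩
    · obtain ⟨h1, h2⟩ := sem_leafF _ A C h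
      exact ⟨_, _, h1.symm, h2.symm, leaf _⟩
    · have hs : G.s (G.ev z (.P :: W0)) = G.ev z W0 := G.s.apply_symm_apply _
      have r := (hR _ hW List.suffix_rfl (by omega)).2.2
      rw [hs] at r
      obtain ⟨h1, h2⟩ := sem_leafB (κ (G.ev z (.P :: W0))) (κ (G.ev z W0)) (b (G.ev z W0))
        (b (G.s (G.m (G.ev z (.P :: W0))))) A C h
      rw [← r] at h2
      exact ⟨_, _, h1.symm, h2.symm, leaf _⟩
  | succ d ih =>
    have mpart : ∀ (l : L) (W0 : List L), l ≠ .M → Red (l :: W0) →
        (∀ X, Red X → (l :: W0) <:+ X → wt X ≤ wt (l :: W0) + (d + 1) → G.Rel κ b (G.ev z X)) →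
        ∀ x, G.ev z (l :: W0) = x →
        b x = nb (κ x) (κ (G.s x)) (b (G.s x)) (b (G.s (G.m x))) ∧
        (outF d (κ (G.s x)) (G.rd κ b d true (G.s (G.m x)))).1 = b (G.s (G.m x)) ∧
        ∀ Am Z, sem (!κ x, nb (!κ x) (κ (G.s x)) (b (G.s (G.m x))) (b (G.s x)))
          (tab (TM (κ x == κ (G.s x)) (rel (κ (G.s x)) (b (G.s x)) (b (G.s (G.m x)))))
            (outF d (κ (G.s x)) (G.rd κ b d true (G.s (G.m x)))).2
            (outB d (!κ x, nb (!κ x) (κ (G.s x)) (b (G.s (G.m x))) (b (G.s x)))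
              (G.rd κ b d false (G.s.symm (G.m x))))) Am Z →
          ∃ Z' v2 e2 v3 e3, Z' ≠ Z ∧
            G.Inner κ b z v2 e2 (.S :: .M :: l :: W0) (wt (l :: W0) + (d + 1)) ∧
            G.Inner κ b z v3 e3 (.P :: .M :: l :: W0) (wt (l :: W0) + (d + 1)) ∧
            [Am, Z', e2 (.S :: .M :: l :: W0), e3 (.P :: .M :: l :: W0)].Nodup ∧
            v2 (.S :: .M :: l :: W0) ≠ Z' ∧ v3 (.P :: .M :: l :: W0) ≠ Z' := by
      intro l W0 hl hW hR x hx
      have hM : Red (.M :: l :: W0) := ⟨hl, hW⟩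
      have hSM : Red (.S :: .M :: l :: W0) := ⟨by decide, hM⟩
      have hPM : Red (.P :: .M :: l :: W0) := ⟨by decide, hM⟩
      have wS : wt (.S :: .M :: l :: W0) + d = wt (l :: W0) + (d + 1) := by
        show wt (l :: W0) + 1 + d = _
        omega
      have wP : wt (.P :: .M :: l :: W0) + d = wt (l :: W0) + (d + 1) := wS
      have sM : (l :: W0) <:+ (.M :: l :: W0) := List.suffix_cons _ _
      have r1 := hR _ hW List.suffix_rfl (by omega)
      have r2 := hR _ hM sM (Nat.le_add_right _ _)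
      have eM : G.ev z (.M :: l :: W0) = G.m x := by rw [← hx]; rfl
      have eS : G.ev z (.S :: .M :: l :: W0) = G.s (G.m x) := by rw [← hx]; rfl
      have eP : G.ev z (.P :: .M :: l :: W0) = G.s.symm (G.m x) := by rw [← hx]; rfl
      rw [hx] at r1
      rw [eM] at r2
      obtain ⟨a1, a2, a3⟩ := r1
      have a4 := r2.2.2
      rw [G.mm, a1, a2] at a4
      obtain ⟨i1, i2⟩ := ih.1 _ hSM fun X hX hs hw =>
        hR X hX ((sM.trans (List.suffix_cons _ _)).trans hs) (wS ▸ hw)
      have i3 := ih.2 _ hPM fun X hX hs hw =>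
        hR X hX ((sM.trans (List.suffix_cons _ _)).trans hs) (wP ▸ hw)
      rw [eS, a2] at i1 i2
      rw [eM, eP, a1, a4] at i3
      rw [wS] at i2
      rw [wP] at i3
      refine ⟨a3, i1, fun Am Z h => ?_⟩
      obtain ⟨Z', A2, A3, n2, cz, s2, s3⟩ :=
        semM _ _ _ _ (outF_lt _ _ _) (outB_lt _ _ _) Am Z h
      obtain ⟨v2, e2, rfl, c2, h2⟩ := i2 _ _ s2
      obtain ⟨v3, e3, rfl, c3, h3⟩ := i3 _ _ s3
      exact ⟨Z', v2, e2, v3, e3, cz, h2, h3, n2, c2, c3⟩
    refine ⟨fun W0 hW hR => ?_, fun W0 hW hR A C h => ?_⟩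
    · obtain ⟨a3, i1, hm⟩ := mpart .S W0 (by decide) hW hR _ rfl
      have hSS : Red (.S :: .S :: W0) := ⟨by decide, hW⟩
      have wS : wt (.S :: .S :: W0) + d = wt (.S :: W0) + (d + 1) := by
        show wt (.S :: W0) + 1 + d = _
        omega
      obtain ⟨j1, j2⟩ := ih.1 _ hSS fun X hX hs hw =>
        hR X hX ((List.suffix_cons _ _).trans hs) (wS ▸ hw)
      have eS : G.ev z (.S :: .S :: W0) = G.s (G.ev z (.S :: W0)) := rfl
      rw [eS] at j1 j2
      rw [wS] at j2
      generalize G.ev z (.S :: W0) = x at a3 i1 hm j1 j2 ⊢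
      have e := outF_succ d (κ x) (κ (G.s x)) (G.rd κ b d true (G.s x))
        (G.rd κ b d true (G.s (G.m x))) (G.rd κ b d false (G.s.symm (G.m x)))
      rw [i1, j1] at e
      have e' : outF (d + 1) (κ x) (G.rd κ b (d + 1) true x) = _ := e
      rw [e']
      refine ⟨a3.symm, fun A C h => ?_⟩
      rw [a3] at h
      obtain ⟨Z, A1, Am, n1, cz, s1, sm⟩ :=
        semF _ _ _ _ (outF_lt _ _ _) (tab_lt _ _ _) A C h
      obtain ⟨v1, e1, rfl, c1, h1⟩ := j2 _ _ s1
      obtain ⟨Z', v2, e2, v3, e3, cm, h2, h3, n2, c2, c3⟩ := hm _ _ sm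
      obtain ⟨v, e, he, hv, hi⟩ := inner_node G κ b z .S (by decide) W0 _ (by omega) v1 e1 v2 e2
        v3 e3 A Z Am Z' h1 h2 h3 n1 c1 cm n2 c2 c3
      exact ⟨v, e, he, hv ▸ cz, hi⟩
    · obtain ⟨a3, i1, hm⟩ := mpart .P W0 (by decide) hW hR _ rfl
      have hPP : Red (.P :: .P :: W0) := ⟨by decide, hW⟩
      have wP : wt (.P :: .P :: W0) + d = wt (.P :: W0) + (d + 1) := by
        show wt (.P :: W0) + 1 + d = _
        omega
      have j2 := ih.2 _ hPP fun X hX hs hw =>
        hR X hX ((List.suffix_cons _ _).trans hs) (wP ▸ hw)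
      have eP : G.ev z (.P :: .P :: W0) = G.s.symm (G.ev z (.P :: W0)) := rfl
      have hs : G.s (G.ev z (.P :: W0)) = G.ev z W0 := G.s.apply_symm_apply _
      rw [eP, wP] at j2
      rw [← hs] at h
      generalize G.ev z (.P :: W0) = x at a3 i1 hm j2 h
      have e := outB_succ d (κ (G.s x)) (b (G.s x)) (κ x) (G.rd κ b d true (G.s (G.m x)))
        (G.rd κ b d false (G.s.symm x)) (G.rd κ b d false (G.s.symm (G.m x)))
      rw [i1] at e
      have e' : outB (d + 1) (κ (G.s x), b (G.s x)) (G.rd κ b (d + 1) false x) = _ := e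
      rw [e'] at h
      obtain ⟨Z, A1, Am, n1, cz, s1, sm⟩ :=
        semB _ _ _ _ (outB_lt _ _ _) (tab_lt _ _ _) A C h
      rw [← a3] at s1
      obtain ⟨v1, e1, rfl, c1, h1⟩ := j2 _ _ s1
      obtain ⟨Z', v2, e2, v3, e3, cm, h2, h3, n2, c2, c3⟩ := hm _ _ sm
      obtain ⟨v, e, he, hv, hi⟩ := inner_node G κ b z .P (by decide) W0 _ (by omega) v1 e1 v2 e2
        v3 e3 A Z Am Z' h1 h2 h3 n1 c1 cm n2 c2 c3
      exact ⟨v, e, he, hv ▸ cz, hi⟩

/-- Four full messages at `[S]`, `[P]`, `[S, M]`, `[P, M]` (`sem_full`): take `v [] = 0`,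
`v [M] = 1`, `e [M] = 2`, `e [S] = 1`, `e [P] = 3`, `e [S, M] = 0`, `e [P, M] = 3`. -/
theorem sound_ball (G : Str V) (κ : V → Bool) (b : V → Bool × Bool) (z : V) (d : ℕ)
    (hR : ∀ X, Red X → 1 ≤ wt X → wt X ≤ d + 1 → G.Rel κ b (G.ev z X))
    (hb : ∀ f x, ¬ bad d f (G.rd κ b d f x)) :
    ∃ v e, G.Inner κ b z v e [] (d + 1) := by
  have hF : ∀ k x, (outF d k (G.rd κ b d true x)).2 = 1 := fun k x => by
    by_contra h
    exact hb true x ⟨k, h⟩
  have hB : ∀ σ x, outB d σ (G.rd κ b d false x) = 1 := fun σ x => by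
    by_contra h
    exact hb false x ⟨σ, h⟩
  have fS : ∀ W0 : List L, Red (.S :: W0) → wt W0 = 0 → ∀ A C : Fin 4, A ≠ C →
      ∃ v e, e (.S :: W0) = A ∧ v (.S :: W0) ≠ C ∧ G.Inner κ b z v e (.S :: W0) (d + 1) := by
    intro W0 hW hw A C hAC
    have w1 : wt (.S :: W0) = 1 := by
      show wt W0 + 1 = 1
      omega
    have := ((sound_tree G κ b z d).1 W0 hW fun X hX hs hx =>
      hR X hX (w1 ▸ wt_le_of_suffix hs) (by omega)).2 A C (by rw [hF]; exact sem_full _ _ _ hAC)
    rwa [w1, add_comm] at this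
  have fP : ∀ W0 : List L, Red (.P :: W0) → wt W0 = 0 → ∀ A C : Fin 4, A ≠ C →
      ∃ v e, e (.P :: W0) = A ∧ v (.P :: W0) ≠ C ∧ G.Inner κ b z v e (.P :: W0) (d + 1) := by
    intro W0 hW hw A C hAC
    have w1 : wt (.P :: W0) = 1 := by
      show wt W0 + 1 = 1
      omega
    have := (sound_tree G κ b z d).2 W0 hW (fun X hX hs hx =>
      hR X hX (w1 ▸ wt_le_of_suffix hs) (by omega)) A C (by rw [hB]; exact sem_full _ _ _ hAC)
    rwa [w1, add_comm] at this
  obtain ⟨v1, e1, he1, c1, h1⟩ := fS [] trivial rfl 1 0 (by decide)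
  obtain ⟨v2, e2, he2, c2, h2⟩ := fP [] trivial rfl 3 0 (by decide)
  obtain ⟨v3, e3, he3, c3, h3⟩ := fS [.M] ⟨by decide, trivial⟩ rfl 0 1 (by decide)
  obtain ⟨v4, e4, he4, c4, h4⟩ := fP [.M] ⟨by decide, trivial⟩ rfl 3 1 (by decide)
  obtain ⟨vm, em, hem, hvm, hm⟩ := SoundAux.node2 (G := G) (κ := κ) (b := b) (z := z) .M []
    (w := d + 1) (Nat.succ_pos d) v3 e3 v4 e4 1 2 h3 h4
    (by simp only [kids, he3, he4]; decide) c3 c4
  obtain ⟨v, e, -, -, h⟩ := SoundAux.node (G := G) (κ := κ) (b := b) (z := z) []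
    (w := d + 1) (Nat.succ_pos d)
    (fun c => match c with | .S => v1 | .P => v2 | .M => vm)
    (fun c => match c with | .S => e1 | .P => e2 | .M => em) 0 0
    (fun c _ => match c with | .S => h1 | .P => h2 | .M => hm)
    (fun v e hv _ kv ke => by
      simp only [PU, hv, kv, ke, he1, he2, hem, hvm]
      exact ⟨by decide, c1, c2, by decide⟩)
  exact ⟨v, e, h⟩

end Pool.Agent.TC
end

-- merged part: Pool.Agent.Work.MP_0b08b2_co.Glue
section
set_option autoImplicit false

/-! From the local recolourings to a global colouring.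

For `z` with `a0 z`, `sound_ball` applies (a reduced `X` with `1 ≤ wt X ≤ d + 1` has
`¬ a0 (ev z X)` and `¬ a0 (ev z (cc M X))` by `hiso`, `free_inj`, `length_le_wt`); choose
`v z, e z`. Call `x` interior if `x = ev z X` with `a0 z`, `Red X`, `wt X ≤ d`. Uniqueness: if
`ev z X = ev z' X'` with `a0 z`, `a0 z'`, both reduced of weight at most `d + 1`, then `z = z'`
(`z' = ev z (invW X' ++ X)`) and `X = X'`. Define for interior `x = ev z X`:
`cv x = v X`; `ca x = e X` if the head of `X` is `S`, else `e (P :: X)`; `cm x = e X` if the head is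
`M`, else `e (M :: X)`; for other `x` the base colours `cvS (κ x, b x)`, `caS (κ x, b x)`,
`cmS (κ (s x)) (b x)`. Key facts: (a) for reduced `X` with `wt X ≤ d`, or `wt X = d + 1` and head
not `M`: `cv (ev z X) = v X`; (b) if moreover the head is `S`: `ca (ev z X) = e X`; (c) `x` is
interior iff `m x` is. Interior `x`: cases on the head of `X`, using `PU` at `X` and at its tail
(`ev z (P :: X') = s.symm (ev z X')`, so `s x = ev z X'`). Non-interior `x`: `¬ a0 x`, `¬ a0 (m x)`,
so `Rel x`, `Rel (m x)` and `base_proper` apply; if `s x = ev z X'` is interior then the head of `X'`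
is not `S` and `wt X' = d` (else `x` is interior), `x = ev z (P :: X')` is a leaf, so
`ca (s x) = e (P :: X') = caS (state of s x)` and `cv (s x) = v X' ≠ v (P :: X') = cvS (state of x)`. -/

namespace Pool.Agent.TC

/-- colour of the edge at the word `X` in the direction `l` -/
def glue_ed (e : List L → Fin 4) (l : L) (X : List L) : Fin 4 :=
  if X.head? = some l.inv then e X else e (l :: X)

theorem glue_ed_cc (e : List L → Fin 4) (l : L) {X : List L} (h : Red X) :
    glue_ed e l.inv (cc l X) = glue_ed e l X := by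
  rcases X with _ | ⟨a, _ | ⟨a', W⟩⟩
  · cases l <;> rfl
  · cases l <;> cases a <;> rfl
  · cases l <;> cases a <;> cases a' <;> first | rfl | exact absurd rfl h.1

theorem glue_kid {v e : List L → Fin 4} {l : L} {W : List L} (h : Red (l :: W)) (hp : PU v e W) :
    v (l :: W) ≠ v W := by
  rcases W with _ | ⟨a, W⟩
  · cases l
    exacts [hp.2.1, hp.2.2.1, hp.2.2.2]
  · cases l <;> cases a <;> first | exact hp.2.1 | exact hp.2.2 | exact absurd rfl h.1

theorem glue_nodup {v e : List L → Fin 4} {X : List L} (hp : PU v e X) :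
    [v X, glue_ed e .P X, glue_ed e .S X, glue_ed e .M X].Nodup := by
  have key : ∀ a b c d : Fin 4, [a, b, c, d].Nodup →
      [a, c, b, d].Nodup ∧ [a, d, c, b].Nodup := by decide
  rcases X with _ | ⟨a, W⟩
  · exact (key _ _ _ _ hp.1).1
  · cases a
    · exact hp.1
    · exact (key _ _ _ _ hp.1).1
    · exact (key _ _ _ _ hp.1).2

theorem glue_ne {v e : List L → Fin 4} {X : List L} {w : ℕ} (h : Red X) (hw : wt X < w)
    (hp : ∀ Y, Red Y → wt Y < w → PU v e Y) (l : L) : v X ≠ v (cc l X) := by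
  rcases X with _ | ⟨a, W⟩
  · exact (glue_kid (l := l) (W := []) trivial (hp _ h hw)).symm
  · rw [cc]
    split_ifs with ha
    · exact glue_kid h (hp _ h.tail ((wt_le_of_suffix (List.suffix_cons a W)).trans_lt hw))
    · exact (glue_kid (l := l) (W := a :: W) ⟨ha, h⟩ (hp _ h hw)).symm

theorem glue_wt_M (X : List L) : wt (cc .M X) = wt X := by
  rcases X with _ | ⟨a, W⟩
  · rfl
  · cases a <;> rfl

theorem glue_wt (l : L) (X : List L) : wt (cc l X) ≤ wt X ∨
    (cc l X = l :: X ∧ wt (l :: X) = wt X + 1 ∧ X.head? ≠ some l.inv) := by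
  rcases X with _ | ⟨a, W⟩
  · cases l <;> simp [cc, wt]
  · cases l <;> cases a <;> simp [cc, wt, L.inv]

theorem glue {V : Type} (G : Str V) (a0 : V → Prop) (κ : V → Bool) (b : V → Bool × Bool)
    (d g : ℕ) (hF : G.Free g) (hg : 4 * d + 8 ≤ g)
    (hiso : ∀ z W, a0 z → W.length ≤ 4 * d + 8 → a0 (G.ev z W) → G.ev z W = z)
    (hrel : ∀ x, ¬ a0 x → ¬ a0 (G.m x) → G.Rel κ b x)
    (hb : ∀ f x, ¬ bad d f (G.rd κ b d f x)) : G.Col := by
  classical
  have uniq : ∀ z z' X X', a0 z → a0 z' → Red X → Red X' → wt X ≤ d + 1 → wt X' ≤ d + 1 →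
      G.ev z X = G.ev z' X' → z = z' ∧ X = X' := by
    intro z z' X X' hz hz' hX hX' hw hw' he
    have l1 := length_le_wt hX
    have l2 := length_le_wt hX'
    have h1 : G.ev z (invW X' ++ X) = z' := by rw [ev_append, he, ev_invW]
    have h2 := hiso z (invW X' ++ X) hz
      (by rw [List.length_append, length_invW]; omega) (by rwa [h1])
    obtain rfl : z = z' := h2.symm.trans h1
    exact ⟨rfl, free_inj hF hX hX' (by omega) he⟩
  have ex : ∀ z, a0 z → ∃ v e, G.Inner κ b z v e [] (d + 1) := by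
    intro z hz
    have na : ∀ X, Red X → 1 ≤ wt X → wt X ≤ d + 1 → ¬ a0 (G.ev z X) := by
      intro X hX h1 h2 ha
      have := (uniq z _ X [] hz ha hX trivial h2 (Nat.zero_le _) rfl).2
      rw [this] at h1
      exact absurd h1 (by decide)
    refine sound_ball G κ b z d (fun X hX h1 h2 => hrel _ (na X hX h1 h2) ?_) hb
    have := na (cc .M X) (red_cc _ hX) (by rwa [glue_wt_M]) (by rwa [glue_wt_M])
    rwa [ev_cc] at this
  choose! v e hve using ex
  have hPU : ∀ z, a0 z → ∀ X, Red X → wt X < d + 1 → PU (v z) (e z) X := fun z hz X hX =>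
    (hve z hz X hX List.nil_suffix).1
  let In : V → Prop := fun x => ∃ z X, a0 z ∧ Red X ∧ wt X ≤ d ∧ G.ev z X = x
  have mk : ∀ (F : V → List L → Fin 4) (B : V → Fin 4), ∃ c : V → Fin 4,
      (∀ z X, a0 z → Red X → wt X ≤ d → c (G.ev z X) = F z X) ∧ ∀ x, ¬ In x → c x = B x := by
    intro F B
    refine ⟨fun x => if h : In x then F h.choose h.choose_spec.choose else B x, ?_,
      fun x h => dif_neg h⟩
    intro z X hz hX hw
    have h : In (G.ev z X) := ⟨z, X, hz, hX, hw, rfl⟩
    obtain ⟨h1, h2, h3, h4⟩ := h.choose_spec.choose_spec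
    obtain ⟨e1, e2⟩ := uniq _ _ _ _ h1 hz h2 hX (by omega) (by omega) h4
    simp only [dif_pos h]
    rw [e2, e1]
  obtain ⟨cv, cv1, cv2⟩ := mk v fun x => cvS (κ x, b x)
  obtain ⟨ca, ca1, ca2⟩ := mk (fun z => glue_ed (e z) .P) fun x => caS (κ x, b x)
  obtain ⟨cm, cm1, cm2⟩ := mk (fun z => glue_ed (e z) .M) fun x => cmS (κ (G.s x)) (b x)
  have leaf : ∀ z X, a0 z → Red X → wt X = d + 1 → ¬ In (G.ev z X) := by
    rintro z X hz hX hw ⟨z', X', h1, h2, h3, h4⟩
    obtain ⟨-, rfl⟩ := uniq _ _ _ _ h1 hz h2 hX (by omega) (by omega) h4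
    omega
  have inM : ∀ x, In (G.m x) → In x := by
    rintro x ⟨z, X, h1, h2, h3, h4⟩
    refine ⟨z, cc .M X, h1, red_cc _ h2, by rwa [glue_wt_M], ?_⟩
    rw [ev_cc, h4]
    exact G.mm x
  have main : ∀ x, cm (G.m x) = cm x ∧ [cv x, ca x, ca (G.s x), cm x].Nodup ∧
      cv x ≠ cv (G.s x) ∧ cv x ≠ cv (G.m x) := by
    intro x
    by_cases hx : In x
    · obtain ⟨z, X, hz, hX, hw, rfl⟩ := hx
      have em : G.m (G.ev z X) = G.ev z (cc .M X) := (ev_cc G z .M X).symm
      have es : G.s (G.ev z X) = G.ev z (cc .S X) := (ev_cc G z .S X).symm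
      have wm : wt (cc .M X) ≤ d := by rwa [glue_wt_M]
      have hs : cv (G.ev z (cc .S X)) = v z (cc .S X) ∧
          ca (G.ev z (cc .S X)) = glue_ed (e z) .P (cc .S X) := by
        by_cases h : wt (cc .S X) ≤ d
        · exact ⟨cv1 _ _ hz (red_cc _ hX) h, ca1 _ _ hz (red_cc _ hX) h⟩
        · obtain ⟨h1, h2, -⟩ := (glue_wt .S X).resolve_left (by omega)
          have h3 := red_cc .S hX
          rw [h1] at h h3 ⊢
          have h4 : wt (.S :: X) = d + 1 := by omega
          obtain ⟨h5, h6⟩ := (hve z hz _ h3 List.nil_suffix).2 h4 (by simp)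
          have h7 := leaf _ _ hz h3 h4
          exact ⟨(cv2 _ h7).trans h5.symm, (ca2 _ h7).trans h6.symm⟩
      rw [em, es, hs.1, hs.2, cv1 _ _ hz hX hw, ca1 _ _ hz hX hw, cm1 _ _ hz hX hw,
        cv1 _ _ hz (red_cc _ hX) wm, cm1 _ _ hz (red_cc _ hX) wm]
      refine ⟨glue_ed_cc _ .M hX, ?_, glue_ne hX (by omega) (hPU z hz) _,
        glue_ne hX (by omega) (hPU z hz) _⟩
      have := glue_ed_cc (e z) .S hX
      exact this ▸ glue_nodup (hPU z hz X hX (by omega))
    · have hm : ¬ In (G.m x) := fun h => hx (inM x h)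
      have a1 : ¬ a0 x := fun h => hx ⟨x, [], h, trivial, Nat.zero_le _, rfl⟩
      have a2 : ¬ a0 (G.m x) := fun h => hm ⟨_, [], h, trivial, Nat.zero_le _, rfl⟩
      obtain ⟨r1, r2, r3⟩ := hrel x a1 a2
      obtain ⟨-, -, r4⟩ := hrel (G.m x) a2 (by rwa [G.mm])
      rw [G.mm, r1, r2] at r4
      obtain ⟨b1, b2, b3, b4⟩ := base_proper (κ x) (κ (G.s x)) (b (G.s x)) (b (G.s (G.m x)))
      rw [← r3] at b1 b2 b3 b4
      rw [← r4] at b1 b4
      have hs : ca (G.s x) = caS (κ (G.s x), b (G.s x)) ∧ cvS (κ x, b x) ≠ cv (G.s x) := by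
        by_cases h : In (G.s x)
        · obtain ⟨z, X, hz, hX, hw, he⟩ := h
          have h0 : G.ev z (cc .P X) = x := by
            rw [ev_cc, he]
            exact G.s.symm_apply_apply x
          have h : ¬ wt (cc .P X) ≤ d := fun h => hx ⟨z, _, hz, red_cc _ hX, h, h0⟩
          obtain ⟨h1, h2, h8⟩ := (glue_wt .P X).resolve_left (by omega)
          have h3 := red_cc .P hX
          rw [h1] at h h3 h0
          have h4 : wt (.P :: X) = d + 1 := by omega
          obtain ⟨h5, h6⟩ := (hve z hz _ h3 List.nil_suffix).2 h4 (by simp)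
          rw [← he, ca1 _ _ hz hX hw, cv1 _ _ hz hX hw, ← h0, ← h5]
          exact ⟨(if_neg h8).trans h6, glue_kid h3 (hPU z hz X hX (by omega))⟩
        · rw [ca2 _ h, cv2 _ h]
          exact ⟨rfl, b3⟩
      rw [hs.1, cv2 _ hx, ca2 _ hx, cm2 _ hx, cm2 _ hm, cv2 _ hm, r1, r2]
      exact ⟨b1, b2, hs.2, b4⟩
  exact ⟨cv, ca, cm, fun x => (main x).1, fun x => (main x).2⟩

end Pool.Agent.TC
end

-- merged part: Pool.Agent.Work.MP_0b08b2_co.Orient
section
set_option autoImplicit false

/-! Two involutions on a finite set: a 2-colouring reversed by both.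

`exists_orient`: let `g = a * b` (as permutations). Then `a * g ^ j = g ^ (-j) * a`, and `a x` is not
in the `g`-orbit of `x` (`a x = g ^ (2j) x` makes `g ^ j x` a fixed point of `a`;
`a x = g ^ (2j+1) x` makes `g ^ j x` a fixed point of `b = a * g`). Order the type through
`Fintype.equivFin`, let `μ x` be the least element of the orbit (`Equiv.Perm.SameCycle g x`) and
`o x := decide (μ x < μ (a x))`. The orbit of `b x` is the orbit of `a x`, the orbit of `a (b x)` is
the orbit of `x`. `exists_orient'`: apply the first on `X × Bool` with `a' (x, i) = (a x, i)` and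
`b' (x, i) = if b x = x then (x, !i) else (b x, i)`. -/

namespace Pool.Agent.TC

theorem orient_not {X : Type} (A B : Equiv.Perm X) (hA : A * A = 1) (hB : B * B = 1)
    (fa : ∀ x, A x ≠ x) (fb : ∀ x, B x ≠ x) (x : X) : ¬ (A * B).SameCycle x (A x) := by
  rintro ⟨n, hn⟩
  have h1 : A * (A * B) * A⁻¹ = (A * B)⁻¹ := by
    rw [← mul_assoc, hA, one_mul, mul_inv_rev, inv_eq_of_mul_eq_one_right hB]
  have h2 : ∀ j : ℤ, A * (A * B) ^ j = (A * B) ^ (-j) * A := by
    intro j
    rw [zpow_neg, ← inv_zpow, ← h1, conj_zpow, inv_mul_cancel_right]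
  have h3 : ∀ j : ℤ, A (((A * B) ^ j) x) = ((A * B) ^ (-j + n)) x := by
    intro j
    rw [← Equiv.Perm.mul_apply, h2, Equiv.Perm.mul_apply, ← hn, zpow_add, Equiv.Perm.mul_apply]
  obtain ⟨j, rfl | rfl⟩ := Int.even_or_odd' n
  · exact fa _ ((h3 j).trans (by rw [show -j + 2 * j = j by ring]))
  · refine fb (((A * B) ^ j) x) ?_
    have h4 := h3 (1 + j)
    rw [show -(1 + j) + (2 * j + 1) = j by ring, zpow_add, zpow_one, ← Equiv.Perm.mul_apply,
      ← mul_assoc, ← mul_assoc, hA, one_mul, Equiv.Perm.mul_apply] at h4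
    exact h4

theorem exists_orient {X : Type} [Finite X] (a b : X → X) (ha : ∀ x, a (a x) = x)
    (hb : ∀ x, b (b x) = x) (fa : ∀ x, a x ≠ x) (fb : ∀ x, b x ≠ x) :
    ∃ o : X → Bool, (∀ x, o (a x) = !o x) ∧ ∀ x, o (b x) = !o x := by
  classical
  let A : Equiv.Perm X := ⟨a, a, ha, ha⟩
  let B : Equiv.Perm X := ⟨b, b, hb, hb⟩
  have hn := orient_not A B (Equiv.ext ha) (Equiv.ext hb) fa fb
  let q : X → Quotient (Equiv.Perm.SameCycle.setoid (A * B)) := Quotient.mk _
  let _ : LinearOrder (Quotient (Equiv.Perm.SameCycle.setoid (A * B))) :=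
    linearOrderOfSTO WellOrderingRel
  have h1 : ∀ x, q x ≠ q (a x) := fun x h => hn x (Quotient.exact h)
  have h2 : ∀ x, q x = q (a (b x)) := fun x => Quotient.sound ⟨1, rfl⟩
  have h3 : ∀ x, q (b x) = q (a x) := fun x => by rw [h2 (b x), hb]
  have h4 : ∀ x, decide (q (a x) < q x) = !decide (q x < q (a x)) := by
    intro x
    rcases lt_or_gt_of_ne (h1 x) with h | h
    · simp [h, h.le]
    · simp [h, h.le]
  refine ⟨fun x => decide (q x < q (a x)), fun x => ?_, fun x => ?_⟩
  · simp only [ha]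
    exact h4 x
  · simp only [← h2, h3]
    exact h4 x

theorem exists_orient' {X : Type} [Finite X] (a b : X → X) (ha : ∀ x, a (a x) = x)
    (hb : ∀ x, b (b x) = x) (fa : ∀ x, a x ≠ x) :
    ∃ o : X → Bool, (∀ x, o (a x) = !o x) ∧ ∀ x, b x ≠ x → o (b x) = !o x := by
  classical
  obtain ⟨o, h1, h2⟩ := exists_orient (X := X × Bool) (fun p => (a p.1, p.2))
    (fun p => if b p.1 = p.1 then (p.1, !p.2) else (b p.1, p.2)) (fun p => by simp [ha])
    (fun p => by
      by_cases c : b p.1 = p.1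
      · simp [c]
      · simp [c, hb, Ne.symm c])
    (fun p h => fa p.1 (congrArg Prod.fst h))
    (fun p h => by
      by_cases c : b p.1 = p.1
      · rw [if_pos c] at h
        simpa using congrArg Prod.snd h
      · rw [if_neg c] at h
        exact c (congrArg Prod.fst h))
  refine ⟨fun x => o (x, true), fun x => h1 (x, true), fun x hx => ?_⟩
  simpa [hx] using h2 (x, true)

end Pool.Agent.TC
end

-- merged part: Pool.Agent.Work.MP_0b08b2_co.Core
section
set_option autoImplicit false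

/-! Assembly of the theorem for locally free structures. -/

namespace Pool.Agent.TC

theorem core_of_white (d N : ℕ) (hw : ∀ f, pr (bad d f) ≤ (1 / 2 : ℝ) ^ N)
    (hnum : 9 * (10 * 3 ^ (d + 1) * (4 * (3 ^ (4 * d + 8 + 1)) ^ 3 * N + 2 + 1) *
      ((4 * (3 ^ (4 * d + 8 + 1)) ^ 3 * N + 2 + 1) * 3 ^ (4 * d + 8 + 2))) ^ 2 ≤ 2 ^ N) :
    ∃ g : ℕ, ∀ (V : Type) [Fintype V] (G : Str V), G.Free g → G.Col := by
  classical
  obtain ⟨l, hl⟩ : ∃ l, l = 4 * (3 ^ (4 * d + 8 + 1)) ^ 3 * N + 2 := ⟨_, rfl⟩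
  refine ⟨2 * (2 * d + 4 + 7 * l), fun V _ G hF => ?_⟩
  have fm : ∀ x, G.m x ≠ x := fun x => hF x [.M] trivial (by simp) (by simp; omega)
  have ft : ∀ x, G.tau x ≠ x := fun x =>
    hF x [.S, .M, .P] (by simp [Red, L.inv]) (by simp) (by simp; omega)
  obtain ⟨o, ho1, ho2⟩ := exists_orient (fun x => G.m x) G.tau G.mm
    (fun x => by simp [Str.tau, G.mm]) fm ft
  let F : Frame V := { G with o := o, om := ho1, ot := ho2, D := 4 * d + 8, Lb := l, Lc := l }
  have hFF : F.toStr.Free (2 * (2 * d + 4 + 7 * l)) := hF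
  obtain ⟨n, hn⟩ : ∃ n, n + 1 = 2 * 3 ^ (F.D + 1) :=
    ⟨2 * 3 ^ (F.D + 1) - 1, by have : 0 < 3 ^ (F.D + 1) := Nat.pow_pos (by decide)
                               omega⟩
  have hD : F.D = 4 * d + 8 := rfl
  have hLb : F.Lb = l := rfl
  have hLc : F.Lc = l := rfl
  have hMM : F.MM d = 10 * 3 ^ (d + 1) * (l + 1) * ((l + 1) * 3 ^ (4 * d + 8 + 2)) := rfl
  have hMpos : 0 < F.MM d := by rw [hMM]; clear * -; positivity
  have hη : (0 : ℝ) ≤ (1 / 2 : ℝ) ^ N := by clear * -; positivity
  have hsum := sum_bound (n := n) F d ((1 / 2 : ℝ) ^ N) hη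
    (fun x => est_gap F hFF (by rw [hLb]; omega) hn (by rw [hLb, hD, hl]) x)
    (fun i k x ys hys => est_long F hFF (by rw [hLb, hLc]; omega) hn
      (by rw [hLc, hD, hl]; omega) i k x ys hys)
    (fun f x => (est_fail F hFF (by rw [hLb, hLc]; omega) f x).trans (hw f))
    (fun f x W hW i k ys hys =>
      (est_fail_mt F hFF (by rw [hLb, hLc]; omega) f x hW i k ys hys).trans
        (mul_le_mul_of_nonneg_right (hw f) (by clear * -; positivity)))
  have hnum' : 9 * (F.MM d) ^ 2 ≤ 2 ^ N := by rw [hMM, hl]; exact hnum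
  obtain ⟨ω, hω⟩ := lll (n := n) (F.Bad d) (F.Q d) (F.MM d) hMpos (dep_bad F d)
    (fun i ω _ => Q_card F d i ω) (fun v => (hsum v).trans (by
      have h1 : (9 : ℝ) * (F.MM d : ℝ) ^ 2 ≤ 2 ^ N := by exact_mod_cast hnum'
      have h2 : (0 : ℝ) < (F.MM d : ℝ) := by exact_mod_cast hMpos
      have h3 : (0 : ℝ) < 2 ^ N := pow_pos two_pos N
      rw [one_div_pow, le_div_iff₀ (mul_pos three_pos h2)]
      have : 3 * (F.MM d : ℝ) * (1 / 2 ^ N) * (3 * (F.MM d : ℝ)) =
          9 * (F.MM d : ℝ) ^ 2 / 2 ^ N := by ring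
      rw [this, div_le_one h3]
      exact h1))
  refine glue G (F.act0 ω.1) (F.kap ω.1 ω.2.1) (F.bits ω.1 ω.2.1 ω.2.2) d _ hF (by omega) ?_ ?_ ?_
  · intro z W hz hW hW'
    by_contra hne
    exact hz.2 _ (mem_ball.2 ⟨W, hW, rfl⟩) hne hW'.1
  · intro x h1 h2
    exact good_rel F (by rw [hLb]; omega) (by rw [hLc]; omega) ω (fun x => hω (.inl x))
      (fun i k x => hω (.inr (.inl ((i, k), x)))) x (fun h => h.elim h1 h2)
  · intro f x
    exact hω (.inr (.inr (f, x)))

end Pool.Agent.TC
end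

-- merged part: Pool.Agent.Work.MP_0b08b2_co.RF
section
set_option autoImplicit false

/-! Free groups act on finite sets so that short nontrivial elements have no fixed point.

Let `B = {x : FreeGroup I // x.norm ≤ g}` (finite: `toWord` is injective into the lists of length at
most `g`, `List.finite_length_le`). For `i : I` left multiplication by `FreeGroup.of i` is a
bijection from `{x : B // (of i * x).norm ≤ g}` onto `{x : B // ((of i)⁻¹ * x).norm ≤ g}`; extend it
to a permutation `σ i` of `B` (`Equiv.extendSubtype`, `Equiv.extendSubtype_apply_of_mem`). Put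
`ψ = FreeGroup.lift σ`. By induction on a reduced list `l` of length at most `g` (tails of reduced
lists are reduced), `ψ (mk l) ⟨1, _⟩ = ⟨mk l, _⟩`. So `ψ w ≠ 1` for `w ≠ 1` of norm at most `g`.
Take `Y = Equiv.Perm B` and `φ = (MulAction.toPermHom _ Y).comp ψ` (left multiplication). -/

namespace Pool.Agent.TC

theorem exists_free_action (I : Type) [Fintype I] [DecidableEq I] (g : ℕ) :
    ∃ (Y : Type) (_ : Fintype Y) (_ : Nonempty Y) (φ : FreeGroup I →* Equiv.Perm Y),
      ∀ w : FreeGroup I, w ≠ 1 → w.norm ≤ g → ∀ y, φ w y ≠ y := by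
  let B := {x : FreeGroup I // x.norm ≤ g}
  have hB : Finite B :=
    ((List.finite_length_le (I × Bool) g).preimage
      (FreeGroup.toWord_injective (α := I)).injOn).to_subtype
  have h1 : ∀ i : I, ∃ σ : Equiv.Perm B, ∀ (x : B) (h : (FreeGroup.of i * x.1).norm ≤ g),
      σ x = ⟨_, h⟩ := fun i => by
    obtain ⟨σ, hσ⟩ := Equiv.Perm.exists_extending_pair
      (α := {x : B // (FreeGroup.of i * x.1).norm ≤ g}) (f := Subtype.val)
      (g := fun x => (⟨_, x.2⟩ : B)) Subtype.val_injective fun x y e =>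
        Subtype.ext (Subtype.ext (mul_left_cancel (congrArg Subtype.val e)))
    exact ⟨σ, fun x h => hσ ⟨x, h⟩⟩
  choose σ hσ using h1
  have h0 : (1 : FreeGroup I).norm ≤ g := by simp
  have h2 : ∀ (l : List (I × Bool)) (h : l.length ≤ g),
      FreeGroup.lift σ (FreeGroup.mk l) ⟨1, h0⟩ = ⟨_, FreeGroup.norm_mk_le.trans h⟩ := by
    intro l
    induction l with
    | nil => exact fun _ => by simp [← FreeGroup.one_eq_mk]
    | cons a l ih =>
      intro h
      have h3 : l.length ≤ g := (Nat.le_succ _).trans h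
      have h4 : (FreeGroup.mk (a :: l)).norm ≤ g := FreeGroup.norm_mk_le.trans h
      obtain ⟨i, _ | _⟩ := a
      · have e : FreeGroup.mk ((i, false) :: l) = (FreeGroup.of i)⁻¹ * FreeGroup.mk l := rfl
        have e' : FreeGroup.of i * FreeGroup.mk ((i, false) :: l) = FreeGroup.mk l := by
          rw [e, mul_inv_cancel_left]
        have h5 := hσ i ⟨_, h4⟩ (by rw [e']; exact FreeGroup.norm_mk_le.trans h3)
        rw [congrArg (FreeGroup.lift σ) e, map_mul, map_inv, FreeGroup.lift_apply_of,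
          Equiv.Perm.mul_apply, ih h3, Equiv.Perm.inv_eq_iff_eq, h5]
        exact Subtype.ext e'.symm
      · have e : FreeGroup.mk ((i, true) :: l) = FreeGroup.of i * FreeGroup.mk l := rfl
        rw [congrArg (FreeGroup.lift σ) e, map_mul, FreeGroup.lift_apply_of, Equiv.Perm.mul_apply,
          ih h3]
        exact hσ i ⟨FreeGroup.mk l, _⟩ h4
  refine ⟨Equiv.Perm B, Fintype.ofFinite _, ⟨1⟩,
    (MulAction.toPermHom _ (Equiv.Perm B)).comp (FreeGroup.lift σ), fun w hw hn y hy => hw ?_⟩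
  have h3 : FreeGroup.lift σ w = 1 := mul_eq_right.1 hy
  have h4 : (FreeGroup.lift σ (FreeGroup.mk w.toWord) ⟨1, h0⟩).1 = FreeGroup.mk w.toWord :=
    congrArg Subtype.val (h2 w.toWord hn)
  rw [FreeGroup.mk_toWord, h3] at h4
  exact h4.symm

end Pool.Agent.TC
end

-- merged part: Pool.Agent.Work.MP_0b08b2_co.Cover
section
set_option autoImplicit false

/-! An incomplete structure of large girth embeds in a finite locally free structure (voltage cover).

Generators `I = (X × Bool) ⊕ X`, `φ` from `exists_free_action I g`, `V = X × Bool × Y`,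
`s' (x, i, y) = (s x, i, if old x then y else φ (of (inl (x, i))) y)`,
`m' (x, i, y) = if m x ≠ x then (m x, i, y) else (x, !i, φ (if i then (of (inr x))⁻¹ else of (inr x)) y)`,
embedding `x ↦ (x, false, y0)`. For a start `(x, i)` and a word `W` define the position
`pos W : X × Bool` and the voltage list `vol W : List (I × Bool)` (one entry for each letter that
uses a new edge, head = last letter), so that `ev' (x, i, y) W = (pos W, φ (mk (vol W)) y)` and
`(vol W).length ≤ W.length`. Claim: for reduced `W` of length at most `g`, `vol W` is a reduced list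
(`FreeGroup.IsReduced`; no two adjacent entries `(a, b), (a, !b)`). Induct on `W`, keeping track of
the decomposition `W = U ++ l :: W'` where `l` is the last new letter and `U` only uses old edges
(`OldW old (pos (l :: W')).1 U`, second coordinate unchanged along `U`): if a further new letter
`l'` cancels `l` in the voltage then `l' = l.inv` and `pos W = pos (l :: W')`, so `U` is a closed old
reduced word; `U = []` contradicts `Red (l' :: W)`, `U ≠ []` contradicts `h`. If `ev'` fixes
`(x, i, y)`, then `mk (vol W) = 1` (its norm is at most `g`), so `vol W = []`, so `W` is old and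
closed, contradicting `h`. -/

namespace Pool.Agent.TC

namespace CoverAux

variable {X : Type}

theorem inv_inv (l : L) : l.inv.inv = l := by cases l <;> rfl

theorem red_left : ∀ {U W : List L}, Red (U ++ W) → Red U
  | [], _, _ => trivial
  | [_], _, _ => trivial
  | _ :: b :: U, _, h => ⟨h.1, red_left (U := b :: U) h.2⟩

open Classical in
/-- the involution on two copies of the vertex set -/
noncomputable def m2 (G : Str X) (p : X × Bool) : X × Bool :=
  if G.m p.1 ≠ p.1 then (G.m p.1, p.2) else (p.1, !p.2)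

theorem m2_of_ne (G : Str X) {p : X × Bool} (h : G.m p.1 ≠ p.1) : m2 G p = (G.m p.1, p.2) :=
  if_pos h

theorem m2_of_eq (G : Str X) {p : X × Bool} (h : G.m p.1 = p.1) : m2 G p = (p.1, !p.2) :=
  if_neg fun e => e h

theorem m2_m2 (G : Str X) (p : X × Bool) : m2 G (m2 G p) = p := by
  by_cases h : G.m p.1 = p.1
  · rw [m2_of_eq G h, m2_of_eq G (p := (p.1, !p.2)) h, Bool.not_not]
  · rw [m2_of_ne G h, m2_of_ne G (p := (G.m p.1, p.2)) (by rw [G.mm]; exact Ne.symm h), G.mm]

/-- two copies of the structure, the unmatched vertices being matched across -/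
noncomputable def dbl (G : Str X) : Str (X × Bool) where
  s := G.s.prodCongr (Equiv.refl Bool)
  m := ⟨m2 G, m2 G, m2_m2 G, m2_m2 G⟩
  mm := m2_m2 G

theorem dbl_S (G : Str X) (p : X × Bool) : (dbl G).ap .S p = (G.s p.1, p.2) := rfl

theorem dbl_P (G : Str X) (p : X × Bool) : (dbl G).ap .P p = (G.s.symm p.1, p.2) := rfl

theorem dbl_M (G : Str X) (p : X × Bool) : (dbl G).ap .M p = m2 G p := rfl

open Classical in
/-- the voltage of a step -/
noncomputable def volt (G : Str X) (old : X → Prop) :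
    L → X × Bool → Option (((X × Bool) ⊕ X) × Bool)
  | .S, p => if old p.1 then none else some (.inl p, true)
  | .P, p => if old (G.s.symm p.1) then none else some (.inl (G.s.symm p.1, p.2), false)
  | .M, p => if G.m p.1 ≠ p.1 then none else some (.inr p.1, !p.2)

variable (G : Str X) (old : X → Prop)

theorem volt_inv (l : L) (p : X × Bool) :
    volt G old l.inv ((dbl G).ap l p) = (volt G old l p).map fun a => (a.1, !a.2) := by
  cases l with
  | S =>
    by_cases h : old p.1 <;> simp [L.inv, dbl_S, volt, h]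
  | P =>
    by_cases h : old (G.s.symm p.1) <;> simp [L.inv, dbl_P, volt, h]
  | M =>
    by_cases h : G.m p.1 = p.1
    · simp [L.inv, dbl_M, m2_of_eq G h, volt, h]
    · have h' : ¬p.1 = G.m p.1 := Ne.symm h
      simp [L.inv, dbl_M, m2_of_ne G h, volt, h, G.mm, h']

theorem volt_S {p : X × Bool} {a : ((X × Bool) ⊕ X) × Bool} (h : volt G old .S p = some a) :
    a = (.inl p, true) := by
  simp only [volt] at h
  split_ifs at h
  exact (Option.some.inj h).symm

theorem volt_P {p : X × Bool} {a : ((X × Bool) ⊕ X) × Bool} (h : volt G old .P p = some a) :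
    a = (.inl (G.s.symm p.1, p.2), false) := by
  simp only [volt] at h
  split_ifs at h
  exact (Option.some.inj h).symm

theorem volt_M {p : X × Bool} {a : ((X × Bool) ⊕ X) × Bool} (h : volt G old .M p = some a) :
    G.m p.1 = p.1 ∧ a = (.inr p.1, !p.2) := by
  simp only [volt] at h
  split_ifs at h with h'
  exact ⟨not_not.1 h', (Option.some.inj h).symm⟩

theorem volt_cancel {l l' : L} {p p' : X × Bool} {a a' : ((X × Bool) ⊕ X) × Bool}
    (h : volt G old l p = some a) (h' : volt G old l' p' = some a') (e1 : a'.1 = a.1)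
    (e2 : a'.2 ≠ a.2) : l' = l.inv ∧ p' = (dbl G).ap l p := by
  obtain ⟨x, i⟩ := p
  obtain ⟨x', i'⟩ := p'
  cases l <;> cases l'
  · rw [volt_S G old h, volt_S G old h'] at e2
    exact (e2 rfl).elim
  · rw [volt_S G old h, volt_P G old h'] at e1
    simp only [Sum.inl.injEq, Prod.mk.injEq] at e1
    refine ⟨rfl, ?_⟩
    rw [dbl_S, ← e1.1, ← e1.2, Equiv.apply_symm_apply]
  · rw [volt_S G old h, (volt_M G old h').2] at e1
    cases e1
  · rw [volt_P G old h, volt_S G old h'] at e1
    exact ⟨rfl, Sum.inl.inj e1⟩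
  · rw [volt_P G old h, volt_P G old h'] at e2
    exact (e2 rfl).elim
  · rw [volt_P G old h, (volt_M G old h').2] at e1
    cases e1
  · rw [(volt_M G old h).2, volt_S G old h'] at e1
    cases e1
  · rw [(volt_M G old h).2, volt_P G old h'] at e1
    cases e1
  · rw [(volt_M G old h).2, (volt_M G old h').2] at e1 e2
    refine ⟨rfl, ?_⟩
    rw [dbl_M, m2_of_eq G (volt_M G old h).1]
    refine Prod.ext (Sum.inr.inj e1) ?_
    revert e2
    cases i <;> cases i' <;> simp

/-- the list of voltages along a word -/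
noncomputable def vol (p : X × Bool) : List L → List (((X × Bool) ⊕ X) × Bool)
  | [] => []
  | l :: W => (volt G old l ((dbl G).ev p W)).toList ++ vol p W

theorem length_vol (p : X × Bool) (W : List L) : (vol G old p W).length ≤ W.length := by
  induction W with
  | nil => exact le_rfl
  | cons l W ih =>
    have := Option.length_toList_le (o := volt G old l ((dbl G).ev p W))
    simp only [vol, List.length_append, List.length_cons]
    omega

theorem old_of_vol (p : X × Bool) (W : List L) (h : vol G old p W = []) :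
    G.OldW old p.1 W ∧ (dbl G).ev p W = (G.ev p.1 W, p.2) := by
  induction W with
  | nil => exact ⟨trivial, rfl⟩
  | cons l W ih =>
    simp only [vol, List.append_eq_nil_iff, Option.toList_eq_nil_iff] at h
    obtain ⟨h1, h2⟩ := ih h.2
    have h3 := h.1
    rw [h2] at h3
    cases l with
    | S =>
      have h4 : old (G.ev p.1 W) := by simpa [volt] using h3
      exact ⟨⟨h4, h1⟩, by simp only [Str.ev, h2]; rfl⟩
    | P =>
      have h4 : old (G.s.symm (G.ev p.1 W)) := by simpa [volt] using h3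
      exact ⟨⟨h4, h1⟩, by simp only [Str.ev, h2]; rfl⟩
    | M =>
      have h4 : G.m (G.ev p.1 W) ≠ G.ev p.1 W := by simpa [volt] using h3
      refine ⟨⟨h4, h1⟩, ?_⟩
      simp only [Str.ev, h2]
      exact m2_of_ne G (p := (G.ev p.1 W, p.2)) h4

theorem split_of_vol (p : X × Bool) (W : List L) {a : ((X × Bool) ⊕ X) × Bool}
    {t : List (((X × Bool) ⊕ X) × Bool)} (h : vol G old p W = a :: t) :
    ∃ U l W', W = U ++ l :: W' ∧ volt G old l ((dbl G).ev p W') = some a ∧
      vol G old ((dbl G).ev p (l :: W')) U = [] := by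
  induction W with
  | nil => cases h
  | cons l W ih =>
    cases hv : volt G old l ((dbl G).ev p W) with
    | none =>
      simp only [vol, hv, Option.toList_none, List.nil_append] at h
      obtain ⟨U, l0, W', rfl, h1, h2⟩ := ih h
      refine ⟨l :: U, l0, W', rfl, h1, ?_⟩
      rw [ev_append] at hv
      simp only [vol, hv, h2, Option.toList_none, List.nil_append]
    | some b =>
      simp only [vol, hv, Option.toList_some, List.singleton_append, List.cons.injEq] at h
      exact ⟨[], l, W, rfl, h.1 ▸ hv, rfl⟩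

theorem red_vol {g : ℕ}
    (h : ∀ z W, Red W → W ≠ [] → W.length ≤ g → G.OldW old z W → G.ev z W ≠ z) (p : X × Bool)
    (W : List L) (hW : Red W) (hl : W.length ≤ g) : FreeGroup.IsReduced (vol G old p W) := by
  induction W with
  | nil => exact FreeGroup.IsReduced.nil
  | cons l' W ih =>
    have ih' := ih hW.tail (by simp only [List.length_cons] at hl; omega)
    cases hv : volt G old l' ((dbl G).ev p W) with
    | none => simpa only [vol, hv, Option.toList_none, List.nil_append] using ih'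
    | some a' =>
      simp only [vol, hv, Option.toList_some, List.singleton_append]
      cases ht : vol G old p W with
      | nil => exact FreeGroup.IsReduced.singleton
      | cons a t =>
        rw [ht] at ih'
        refine FreeGroup.isReduced_cons_cons.2 ⟨fun e1 => by_contra fun e2 => ?_, ih'⟩
        obtain ⟨U, l, W', rfl, h1, h2⟩ := split_of_vol G old p W ht
        obtain ⟨rfl, h3⟩ := volt_cancel G old h1 hv e1 e2
        obtain ⟨h4, h5⟩ := old_of_vol G old _ U h2
        rw [ev_append, h5] at h3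
        cases U with
        | nil => exact hW.1 (inv_inv l).symm
        | cons u U =>
          refine h _ (u :: U) (red_left hW.tail) (List.cons_ne_nil _ _) ?_ h4 (congrArg Prod.fst h3)
          simp only [List.length_cons, List.length_append] at hl ⊢
          omega

variable {Y : Type} (φ : FreeGroup ((X × Bool) ⊕ X) →* Equiv.Perm Y)

/-- one step in the cover -/
noncomputable def stp (l : L) (v : (X × Bool) × Y) : (X × Bool) × Y :=
  ((dbl G).ap l v.1, φ (FreeGroup.mk (volt G old l v.1).toList) v.2)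

theorem stp_inv (l : L) (v : (X × Bool) × Y) : stp G old φ l.inv (stp G old φ l v) = v := by
  refine Prod.ext (ap_inv _ l v.1) ?_
  simp only [stp, volt_inv]
  rw [← Equiv.Perm.mul_apply, ← map_mul]
  have : FreeGroup.mk ((volt G old l v.1).map fun a => (a.1, !a.2)).toList =
      (FreeGroup.mk (volt G old l v.1).toList)⁻¹ := by
    rw [FreeGroup.inv_mk]
    cases volt G old l v.1 <;> simp [FreeGroup.invRev]
  rw [this, inv_mul_cancel, map_one, Equiv.Perm.one_apply]

/-- the cover -/
noncomputable def cov : Str ((X × Bool) × Y) where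
  s := ⟨stp G old φ .S, stp G old φ .P, stp_inv G old φ .S, stp_inv G old φ .P⟩
  m := ⟨stp G old φ .M, stp G old φ .M, stp_inv G old φ .M, stp_inv G old φ .M⟩
  mm := stp_inv G old φ .M

theorem cov_ap (l : L) (v : (X × Bool) × Y) : (cov G old φ).ap l v = stp G old φ l v := by
  cases l <;> rfl

theorem cov_ev (v : (X × Bool) × Y) (W : List L) :
    (cov G old φ).ev v W = ((dbl G).ev v.1 W, φ (FreeGroup.mk (vol G old v.1 W)) v.2) := by
  induction W with
  | nil => simp [Str.ev, vol, ← FreeGroup.one_eq_mk]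
  | cons l W ih =>
    simp only [Str.ev, ih, cov_ap, stp, vol]
    rw [← FreeGroup.mul_mk, map_mul, Equiv.Perm.mul_apply]

end CoverAux

theorem cover {X : Type} [Fintype X] (G : Str X) (old : X → Prop) (g : ℕ)
    (h : ∀ z W, Red W → W ≠ [] → W.length ≤ g → G.OldW old z W → G.ev z W ≠ z) :
    ∃ (V : Type) (_ : Fintype V) (G' : Str V), G'.Free g ∧ ∃ φ : X → V, Function.Injective φ ∧
      (∀ x, old x → G'.s (φ x) = φ (G.s x)) ∧ ∀ x, G.m x ≠ x → G'.m (φ x) = φ (G.m x) := by
  classical
  obtain ⟨Y, _, ⟨y0⟩, φ, hφ⟩ := exists_free_action ((X × Bool) ⊕ X) g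
  refine ⟨(X × Bool) × Y, inferInstance, CoverAux.cov G old φ, fun v W hW hne hl e => ?_,
    fun x => ((x, false), y0), fun x x' e => congrArg (fun v => v.1.1) e, fun x hx => ?_,
    fun x hx => ?_⟩
  · rw [CoverAux.cov_ev] at e
    have h1 : FreeGroup.mk (CoverAux.vol G old v.1 W) = 1 := by_contra fun h1 =>
      hφ _ h1 (FreeGroup.norm_mk_le.trans ((CoverAux.length_vol G old v.1 W).trans hl)) v.2
        (congrArg Prod.snd e)
    have h2 : CoverAux.vol G old v.1 W = [] := by
      rw [← (CoverAux.red_vol G old h v.1 W hW hl).reduce_eq, ← FreeGroup.toWord_mk, h1,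
        FreeGroup.toWord_one]
    obtain ⟨h3, h4⟩ := CoverAux.old_of_vol G old v.1 W h2
    rw [h4] at e
    exact h _ W hW hne hl h3 (congrArg (fun v => v.1.1) e)
  · change CoverAux.stp G old φ .S _ = _
    simp [CoverAux.stp, CoverAux.dbl_S, CoverAux.volt, hx, ← FreeGroup.one_eq_mk]
  · change CoverAux.stp G old φ .M _ = _
    simp [CoverAux.stp, CoverAux.dbl_M, CoverAux.m2_of_ne G (p := (x, false)) hx, CoverAux.volt,
      hx, ← FreeGroup.one_eq_mk]

end Pool.Agent.TC
end

-- merged part: Pool.Agent.Work.MP_0b08b2_co.NB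
section
set_option autoImplicit false

/-! Short non-backtracking walks have no repeated vertex.

Induction on `l`: for `a :: b :: l'` the tail is `Nodup`, so it is the support of a path starting
at `b`; if `a` occurs in the tail, at position `j ≥ 2` of the whole list (`j ≠ 1` by irreflexivity,
`j ≠ 2` by `NBL`), the initial segment of that path from `b` to `a` and the edge `b a` are two
different paths, giving a cycle of length at most `j ≤ l.length - 1 < g`
(`SimpleGraph.Walk.IsPath.exists_isCycle_length_le_add_of_ne`, or `Walk.cons_isCycle_iff`). It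
may be easier to prove first: a non-backtracking `Walk` of length less than `g` is a path. -/

namespace Pool.Agent.TC

def NBL {X : Type} : List X → Prop
  | a :: b :: c :: l => a ≠ c ∧ NBL (b :: c :: l)
  | _ => True

theorem nb_walk {X : Type} (H : SimpleGraph X) (g : ℕ) (hg : GirthGe H g) {u v : X}
    (p : H.Walk u v) (hnb : NBL p.support) (hl : p.length < g) : p.IsPath := by
  classical
  induction p with
  | nil => exact SimpleGraph.Walk.IsPath.nil
  | @cons a b c h q ih =>
    rw [SimpleGraph.Walk.length_cons] at hl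
    cases q with
    | nil => simp [h.ne]
    | @cons _ d _ h' r =>
      rw [SimpleGraph.Walk.support_cons, SimpleGraph.Walk.support_cons, ← r.cons_tail_support]
        at hnb
      have hq := ih (by
        rw [SimpleGraph.Walk.support_cons, ← r.cons_tail_support]
        exact hnb.2) (by omega)
      refine (SimpleGraph.Walk.cons_isPath_iff _ _).2 ⟨hq, fun ha => ?_⟩
      have h1 := hg a (((SimpleGraph.Walk.cons h' r).takeUntil a ha).cons h)
        ((SimpleGraph.Walk.cons_isCycle_iff _ _).2 ⟨hq.takeUntil ha, fun he => hnb.1 (by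
          have h2 := (SimpleGraph.Walk.cons h' r).edges_takeUntil_subset_edges ha he
          rw [Sym2.eq_swap] at h2
          simpa using hq.eq_snd_of_mem_edges h2)⟩)
      have h2 := (SimpleGraph.Walk.cons h' r).length_takeUntil_le_length ha
      rw [SimpleGraph.Walk.length_cons] at h1
      omega

theorem nb_nodup {X : Type} (H : SimpleGraph X) (g : ℕ) (hg : GirthGe H g) (l : List X)
    (hc : l.IsChain H.Adj) (hnb : NBL l) (hl : l.length ≤ g) : l.Nodup := by
  by_cases h0 : l = []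
  · simp [h0]
  · have e := SimpleGraph.Walk.support_ofSupport h0 hc
    have h1 := List.length_pos_iff.2 h0
    rw [← e]
    refine (nb_walk H g hg _ (by rwa [e]) ?_).support_nodup
    rw [SimpleGraph.Walk.length_ofSupport]
    omega

end Pool.Agent.TC
end

-- merged part: Pool.Agent.Work.MP_0b08b2_co.Match
section
set_option autoImplicit false

/-! A matching covering all vertices of degree 3 (Petersen's theorem for subcubic graphs).

Apply `SimpleGraph.tutte` to `H'` on `X ⊕ X`: the left copy carries `H`, the right copy `K` is a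
clique, and every left vertex of degree less than 3 is joined to all of `K` (the order `2 |X|` is
even). Let `U` be a vertex set. If `K ⊆ U`, every component of `H' - U` contains a left vertex, so
there are at most `|X| ≤ |U|` components. Otherwise fix `k0 ∈ K \ U`; every component `C` other than
that of `k0` consists of left vertices of degree 3 all of whose `H'`-neighbours are `H`-neighbours;
if `|C|` is odd, the number of `H`-edges leaving `C` is odd (`3 |C|` minus an even number), not 1 by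
`hb`, so at least 3, and they all end in `U`; each vertex of `U` receives at most 3 such edges in
total. So the number of odd components is at most `|U| + 1`, and it has the parity of `|U|`
(`SimpleGraph.odd_ncard_oddComponents`), so it is at most `|U|`. From a perfect matching `M` of `H'`
put `m x = y` if `inl x` is matched to `inl y`, and `m x = x` otherwise. -/

namespace Pool.Agent.TC

namespace MatchAux

open SimpleGraph

variable {X : Type} [Fintype X]

omit [Fintype X] in
theorem fib_card (H : SimpleGraph X) (x : X) :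
    {e : X × X | e.1 = x ∧ H.Adj e.1 e.2}.ncard = (H.neighborSet x).ncard := by
  have : {e : X × X | e.1 = x ∧ H.Adj e.1 e.2} = (fun y => (x, y)) '' H.neighborSet x := by
    ext ⟨a, b⟩
    simp only [Set.mem_ofPred_eq, Set.mem_image, mem_neighborSet, Prod.mk.injEq]
    constructor
    · rintro ⟨rfl, h⟩
      exact ⟨b, h, rfl, rfl⟩
    · rintro ⟨y, h, rfl, rfl⟩
      exact ⟨rfl, h⟩
  rw [this, Set.ncard_image_of_injective _ (fun a b h => (Prod.mk.inj h).2)]

theorem odd_out (H : SimpleGraph X) (S : Set X) (hS : ∀ v ∈ S, (H.neighborSet v).ncard = 3)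
    (ho : Odd S.ncard) : Odd {e : X × X | e.1 ∈ S ∧ e.2 ∉ S ∧ H.Adj e.1 e.2}.ncard := by
  classical
  let A : Finset (X × X) := Finset.univ.filter fun e => e.1 ∈ S ∧ H.Adj e.1 e.2
  have hA : A.card = 3 * S.ncard := by
    rw [Finset.card_eq_sum_card_fiberwise (f := Prod.fst) (t := S.toFinset)
      (fun e he => by
        have := (Finset.mem_filter.1 (Finset.mem_coe.1 he)).2.1
        simpa using this)]
    rw [Set.ncard_eq_toFinset_card', mul_comm, ← smul_eq_mul, ← Finset.sum_const]
    refine Finset.sum_congr rfl fun x hx => ?_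
    have hx' : x ∈ S := by simpa using hx
    rw [← hS x hx', ← fib_card, ← Set.ncard_coe_finset]
    congr 1
    ext e
    simp only [A, Finset.coe_filter, Finset.mem_filter, Finset.mem_univ, true_and,
      Set.mem_ofPred_eq]
    constructor
    · rintro ⟨⟨_, h⟩, e⟩
      exact ⟨e, h⟩
    · rintro ⟨e, h⟩
      exact ⟨⟨e ▸ hx', h⟩, e⟩
  have hI : Even (A.filter fun e => e.2 ∈ S).card := by
    rw [← ZMod.natCast_eq_zero_iff_even, Finset.card_eq_sum_ones, Nat.cast_sum]
    refine Finset.sum_involution (fun e _ => e.swap) (fun _ _ => by decide) ?_ ?_ ?_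
    · intro e he _ h
      have h1 := (Finset.mem_filter.1 (Finset.mem_filter.1 he).1).2.2
      exact h1.ne (congrArg Prod.snd h)
    · intro e he
      obtain ⟨h1, h2⟩ := Finset.mem_filter.1 he
      obtain ⟨-, h3, h4⟩ := Finset.mem_filter.1 h1
      exact Finset.mem_filter.2 ⟨Finset.mem_filter.2 ⟨Finset.mem_univ _, h2, h4.symm⟩, h3⟩
    · intro e he
      rfl
  have hsum := Finset.card_filter_add_card_filter_not (s := A) (fun e => e.2 ∈ S)
  have hE : {e : X × X | e.1 ∈ S ∧ e.2 ∉ S ∧ H.Adj e.1 e.2}.ncard =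
      (A.filter fun e => ¬ e.2 ∈ S).card := by
    rw [← Set.ncard_coe_finset]
    congr 1
    ext e
    simp only [A, Finset.coe_filter, Finset.mem_filter, Finset.mem_univ, true_and,
      Set.mem_ofPred_eq]
    tauto
  rw [hE]
  obtain ⟨a, ha⟩ := ho
  obtain ⟨b, hb⟩ := hI
  rw [Nat.odd_iff]
  omega

/-- The auxiliary graph. -/
def aux (H : SimpleGraph X) : SimpleGraph (X ⊕ X) where
  Adj
    | .inl a, .inl b => H.Adj a b
    | .inl a, .inr _ => (H.neighborSet a).ncard ≠ 3
    | .inr _, .inl b => (H.neighborSet b).ncard ≠ 3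
    | .inr a, .inr b => a ≠ b
  symm := ⟨by
    rintro (a | a) (b | b) h
    · exact h.symm
    · exact h
    · exact h
    · exact Ne.symm h⟩
  loopless := ⟨by
    rintro (a | a) h
    · exact H.irrefl h
    · exact h rfl⟩

theorem in_card (H : SimpleGraph X) (hdeg : ∀ v, (H.neighborSet v).ncard ≤ 3) (U : Set (X ⊕ X)) :
    {e : X × X | Sum.inl e.2 ∈ U ∧ H.Adj e.1 e.2}.ncard ≤ 3 * U.ncard := by
  classical
  rw [Set.ncard_eq_toFinset_card', Set.ncard_eq_toFinset_card']
  refine Finset.card_le_mul_card_image_of_maps_to (f := fun e : X × X => Sum.inl e.2)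
    (fun e he => ?_) 3 fun b hb => ?_
  · have := (Set.mem_toFinset.1 he).1
    exact Set.mem_toFinset.2 this
  · rcases b with y | y
    · refine le_trans ?_ (hdeg y)
      rw [← Set.ncard_coe_finset]
      refine Set.ncard_le_ncard_of_injOn Prod.fst ?_ ?_ (Set.toFinite _)
      · intro e he
        obtain ⟨h1, h2⟩ := Finset.mem_filter.1 (Finset.mem_coe.1 he)
        have h3 := (Set.mem_toFinset.1 h1).2
        rw [Sum.inl.inj h2] at h3
        exact h3.symm
      · intro e he e' he' h
        have h2 := (Finset.mem_filter.1 (Finset.mem_coe.1 he)).2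
        have h2' := (Finset.mem_filter.1 (Finset.mem_coe.1 he')).2
        exact Prod.ext h (Sum.inl.inj (h2.trans h2'.symm))
    · rw [Finset.card_eq_zero.2]
      · exact Nat.zero_le _
      · rw [Finset.filter_eq_empty_iff]
        intro e _ h
        cases h

theorem no_violator (H : SimpleGraph X) (hdeg : ∀ v, (H.neighborSet v).ncard ≤ 3)
    (hb : ∀ S : Set X, (∀ v ∈ S, (H.neighborSet v).ncard = 3) →
      {e : X × X | e.1 ∈ S ∧ e.2 ∉ S ∧ H.Adj e.1 e.2}.ncard ≠ 1) (U : Set (X ⊕ X)) :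
    ¬ (aux H).IsTutteViolator U := by
  classical
  rw [IsTutteViolator, not_lt]
  set Γ := ((⊤ : (aux H).Subgraph).deleteVerts U).coe with hΓ
  have hv : ∀ w, w ∈ ((⊤ : (aux H).Subgraph).deleteVerts U).verts ↔ w ∉ U := fun w => by simp
  have hadj : ∀ a b : ((⊤ : (aux H).Subgraph).deleteVerts U).verts,
      (aux H).Adj a b → Γ.connectedComponentMk a = Γ.connectedComponentMk b := by
    intro a b h
    refine ConnectedComponent.connectedComponentMk_eq_of_adj ?_
    simp only [hΓ, Subgraph.coe_adj, Subgraph.deleteVerts_adj, Subgraph.verts_top, Set.mem_univ,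
      Subgraph.top_adj, true_and]
    exact ⟨(hv _).1 a.2, (hv _).1 b.2, h⟩
  have hW : Nat.card ((⊤ : (aux H).Subgraph).deleteVerts U).verts + U.ncard =
      2 * Fintype.card X := by
    have : ((⊤ : (aux H).Subgraph).deleteVerts U).verts = Uᶜ := by
      ext w
      exact hv w
    rw [Nat.card_coe_set_eq, this, add_comm, Set.ncard_add_ncard_compl, Nat.card_eq_fintype_card,
      Fintype.card_sum, two_mul]
  by_cases hK : ∀ k, Sum.inr k ∈ U
  · have h1 : Fintype.card X ≤ U.ncard := by
      rw [← Nat.card_eq_fintype_card, ← Set.ncard_univ]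
      exact Set.ncard_le_ncard_of_injOn Sum.inr (fun k _ => hK k) Sum.inr_injective.injOn
        (Set.toFinite _)
    have h2 : Γ.oddComponents.ncard ≤ Nat.card Γ.ConnectedComponent := Set.ncard_le_card _
    have h3 : Nat.card Γ.ConnectedComponent ≤
        Nat.card ((⊤ : (aux H).Subgraph).deleteVerts U).verts :=
      Nat.card_le_card_of_surjective Γ.connectedComponentMk Quot.mk_surjective
    omega
  push Not at hK
  obtain ⟨k0, hk0⟩ := hK
  let C0 := Γ.connectedComponentMk ⟨Sum.inr k0, (hv _).2 hk0⟩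
  let S : Γ.ConnectedComponent → Set X := fun C =>
    {x | ∃ h, Γ.connectedComponentMk ⟨Sum.inl x, h⟩ = C}
  let E : Γ.ConnectedComponent → Set (X × X) := fun C =>
    {e | e.1 ∈ S C ∧ e.2 ∉ S C ∧ H.Adj e.1 e.2}
  have hS3 : ∀ C, C ≠ C0 → ∀ v ∈ S C, (H.neighborSet v).ncard = 3 := by
    rintro C hC v ⟨h, rfl⟩
    by_contra h3
    exact hC (hadj _ _ h3)
  have hSc : ∀ C, C ≠ C0 → (S C).ncard = C.supp.ncard := by
    intro C hC
    have : Sum.inl '' S C = Subtype.val '' C.supp := by
      ext w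
      constructor
      · rintro ⟨x, ⟨h, hx⟩, rfl⟩
        exact ⟨⟨_, h⟩, hx, rfl⟩
      · rintro ⟨⟨x | k, h⟩, hx, rfl⟩
        · exact ⟨x, ⟨h, hx⟩, rfl⟩
        · exfalso
          apply hC
          rw [← (ConnectedComponent.mem_supp_iff _ _).1 hx]
          by_cases e : k = k0
          · subst e
            rfl
          · exact hadj _ _ e
    rw [← Set.ncard_image_of_injective _ Sum.inl_injective, this,
      Set.ncard_image_of_injective _ Subtype.val_injective]
  have hE3 : ∀ C ∈ Γ.oddComponents, C ≠ C0 → 3 ≤ (E C).ncard := by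
    intro C hC h0
    have h1 := odd_out H (S C) (hS3 C h0) (by rw [hSc C h0]; exact hC)
    have h2 := hb (S C) (hS3 C h0)
    obtain ⟨a, ha⟩ := h1
    change (E C).ncard = _ at ha
    change (E C).ncard ≠ _ at h2
    omega
  have hEU : ∀ C, E C ⊆ {e : X × X | Sum.inl e.2 ∈ U ∧ H.Adj e.1 e.2} := by
    rintro C e ⟨⟨h, h1⟩, h2, h3⟩
    refine ⟨?_, h3⟩
    by_contra hU
    exact h2 ⟨(hv _).2 hU, (hadj ⟨_, (hv _).2 hU⟩ ⟨_, h⟩ h3.symm).trans h1⟩
  let O : Finset Γ.ConnectedComponent := (Set.toFinite Γ.oddComponents).toFinset.erase C0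
  have hO1 : Γ.oddComponents.ncard ≤ O.card + 1 := by
    rw [Set.ncard_eq_toFinset_card _ (Set.toFinite _)]
    have := Finset.pred_card_le_card_erase (s := (Set.toFinite Γ.oddComponents).toFinset)
      (a := C0)
    change _ ≤ O.card at this
    omega
  have hO2 : 3 * O.card ≤ 3 * U.ncard := by
    refine le_trans ?_ (in_card H hdeg U)
    have h1 : (O.biUnion fun C => (E C).toFinset).card = ∑ C ∈ O, (E C).toFinset.card := by
      refine Finset.card_biUnion fun C _ C' _ hne => ?_
      rw [Function.onFun, Finset.disjoint_left]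
      intro e he he'
      obtain ⟨⟨h, h1⟩, -⟩ := Set.mem_toFinset.1 he
      obtain ⟨⟨h', h1'⟩, -⟩ := Set.mem_toFinset.1 he'
      exact hne (h1.symm.trans h1')
    have h2 : 3 * O.card ≤ ∑ C ∈ O, (E C).toFinset.card := by
      rw [mul_comm, ← smul_eq_mul]
      refine Finset.card_nsmul_le_sum _ _ _ fun C hC => ?_
      obtain ⟨h0, hC⟩ := Finset.mem_erase.1 hC
      rw [← Set.ncard_eq_toFinset_card']
      exact hE3 C ((Set.Finite.mem_toFinset _).1 hC) h0
    rw [← h1, ← Set.ncard_coe_finset (O.biUnion _)] at h2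
    refine h2.trans (Set.ncard_le_ncard ?_ (Set.toFinite _))
    intro e he
    obtain ⟨C, -, hC⟩ := Finset.mem_biUnion.1 (Finset.mem_coe.1 he)
    exact hEU C (Set.mem_toFinset.1 hC)
  have hpar := odd_ncard_oddComponents Γ
  rw [Nat.odd_iff, Nat.odd_iff] at hpar
  omega

end MatchAux

theorem exists_matching {X : Type} [Fintype X] (H : SimpleGraph X)
    (hdeg : ∀ v, (H.neighborSet v).ncard ≤ 3)
    (hb : ∀ S : Set X, (∀ v ∈ S, (H.neighborSet v).ncard = 3) →
      {e : X × X | e.1 ∈ S ∧ e.2 ∉ S ∧ H.Adj e.1 e.2}.ncard ≠ 1) :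
    ∃ m : X → X, (∀ x, m (m x) = x) ∧ (∀ x, m x ≠ x → H.Adj x (m x)) ∧
      ∀ x, (H.neighborSet x).ncard = 3 → m x ≠ x := by
  classical
  obtain ⟨M, hM⟩ := SimpleGraph.tutte.2 (MatchAux.no_violator H hdeg hb)
  choose p hp hu using SimpleGraph.Subgraph.isPerfectMatching_iff.1 hM
  have hpp : ∀ w, p (p w) = w := fun w => (hu _ _ (hp w).symm).symm
  let m : X → X := fun x => Sum.elim id (fun _ => x) (p (Sum.inl x))
  have hm : ∀ x, p (Sum.inl x) = Sum.inl (m x) ∨ ((∃ k, p (Sum.inl x) = Sum.inr k) ∧ m x = x) := by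
    intro x
    rcases h : p (Sum.inl x) with y | k
    · left
      simp only [m, h, Sum.elim_inl, id]
    · right
      exact ⟨⟨k, rfl⟩, by simp only [m, h, Sum.elim_inr]⟩
  have ha : ∀ w, (MatchAux.aux H).Adj w (p w) := fun w => M.adj_sub (hp w)
  refine ⟨m, fun x => ?_, fun x hx => ?_, fun x hx => ?_⟩
  · rcases hm x with h | ⟨-, h⟩
    · have h1 := hpp (Sum.inl x)
      rw [h] at h1
      show Sum.elim id (fun _ => m x) (p (Sum.inl (m x))) = x
      rw [h1]
      rfl
    · rw [h, h]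
  · rcases hm x with h | ⟨-, h⟩
    · have h1 := ha (Sum.inl x)
      rw [h] at h1
      exact h1
    · exact absurd h hx
  · have h1 := ha (Sum.inl x)
    rcases hm x with h | ⟨⟨k, h⟩, -⟩
    · rw [h] at h1
      exact (H.ne_of_adj h1).symm
    · rw [h] at h1
      exact absurd hx h1

end Pool.Agent.TC
end

-- merged part: Pool.Agent.Work.MP_0b08b2_co.Struct
section
set_option autoImplicit false

/-! Orienting the paths and cycles left after removing the matching.

Darts `Dt = {e : X × X // H.Adj e.1 e.2 ∧ e.2 ≠ m e.1}`. Every vertex is the tail of at most two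
darts (degree 3: the partner is removed). `a` = reversal (no fixed point), `b` = the other dart with
the same tail if there is one, else the same dart. `exists_orient'` gives `o`; each vertex is the
tail of at most one dart with `o = true` and the head of at most one such dart (reverse it).
`old x := ∃ y, (x, y)` is a dart with `o = true`; `x ↦ y` is a bijection between two subtypes of
`X`; extend it to a permutation `s` (`Equiv.extendSubtype`). -/

namespace Pool.Agent.TC

/-- A symmetric irreflexive relation with at most two outgoing pairs at every point has an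
orientation with at most one outgoing and at most one incoming pair at every point. -/
theorem struct_orient {X : Type} [Finite X] (R : X → X → Prop)
    (hs : ∀ x y, R x y → R y x) (hi : ∀ x, ¬ R x x)
    (h2 : ∀ x y z w, R x y → R x z → R x w → y ≠ z → w ≠ z → w = y) :
    ∃ O : X → X → Prop, (∀ x y, O x y → R x y) ∧ (∀ x y, R x y → O x y ∨ O y x) ∧
      (∀ x y, O x y → ¬ O y x) ∧ (∀ x y z, O x y → O x z → y = z) ∧
      ∀ x y z, O x z → O y z → x = y := by
  classical
  let Dt : Type := {e : X × X // R e.1 e.2}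
  let a : Dt → Dt := fun e => ⟨(e.1.2, e.1.1), hs _ _ e.2⟩
  let b : Dt → Dt := fun e =>
    if h : ∃ e' : Dt, e'.1.1 = e.1.1 ∧ e' ≠ e then h.choose else e
  have key : ∀ e e' : Dt, e'.1.1 = e.1.1 → e' ≠ e → b e = e' := by
    intro e e' h1 hne
    have h : ∃ e' : Dt, e'.1.1 = e.1.1 ∧ e' ≠ e := ⟨e', h1, hne⟩
    have hb : b e = h.choose := dif_pos h
    obtain ⟨g1, g2⟩ := h.choose_spec
    rw [hb]
    generalize h.choose = c at g1 g2
    have hsnd : ∀ c : Dt, c.1.1 = e.1.1 → c ≠ e → c.1.2 ≠ e.1.2 := by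
      intro c hc hce hh
      exact hce (Subtype.ext (Prod.ext hc hh))
    have r1 : R e.1.1 e'.1.2 := h1 ▸ e'.2
    have r2 : R e.1.1 c.1.2 := g1 ▸ c.2
    have := h2 e.1.1 e'.1.2 e.1.2 c.1.2 r1 e.2 r2 (hsnd _ h1 hne) (hsnd _ g1 g2)
    exact Subtype.ext (Prod.ext (g1.trans h1.symm) this)
  have ha : ∀ e, a (a e) = e := fun e => rfl
  have hb : ∀ e, b (b e) = e := by
    intro e
    by_cases h : ∃ e' : Dt, e'.1.1 = e.1.1 ∧ e' ≠ e
    · obtain ⟨e', h1, hne⟩ := h
      rw [key e e' h1 hne]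
      exact key e' e h1.symm hne.symm
    · have : b e = e := dif_neg h
      rw [this, this]
  have fa : ∀ e, a e ≠ e := by
    intro e he
    have h1 : e.1.2 = e.1.1 := congrArg (fun c : Dt => c.1.1) he
    have := e.2
    rw [h1] at this
    exact hi _ this
  obtain ⟨o, oa, ob⟩ := exists_orient' a b ha hb fa
  have flip : ∀ e e' : Dt, e'.1.1 = e.1.1 → e' ≠ e → o e' = !o e := by
    intro e e' h1 hne
    have hk := key e e' h1 hne
    have := ob e (by rw [hk]; exact hne)
    rwa [hk] at this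
  refine ⟨fun x y => ∃ h : R x y, o ⟨(x, y), h⟩ = true, ?_, ?_, ?_, ?_, ?_⟩
  · rintro x y ⟨h, _⟩
    exact h
  · intro x y h
    by_cases ho : o ⟨(x, y), h⟩ = true
    · exact Or.inl ⟨h, ho⟩
    · refine Or.inr ⟨hs _ _ h, ?_⟩
      have := oa ⟨(x, y), h⟩
      have h3 : o ⟨(x, y), h⟩ = false := by simpa using ho
      rw [h3] at this
      exact this
  · rintro x y ⟨h, ho⟩ ⟨h', ho'⟩
    have := oa ⟨(x, y), h⟩
    rw [ho] at this
    have h4 : o ⟨(y, x), h'⟩ = false := this
    rw [ho'] at h4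
    exact Bool.noConfusion h4
  · rintro x y z ⟨h, ho⟩ ⟨h', ho'⟩
    by_contra hne
    have := flip ⟨(x, y), h⟩ ⟨(x, z), h'⟩ rfl
      (fun hh => hne (congrArg (fun c : Dt => c.1.2) hh).symm)
    rw [ho, ho'] at this
    exact Bool.noConfusion this
  · rintro x y z ⟨h, ho⟩ ⟨h', ho'⟩
    by_contra hne
    have h1 := oa ⟨(x, z), h⟩
    have h3 := oa ⟨(y, z), h'⟩
    have := flip (a ⟨(x, z), h⟩) (a ⟨(y, z), h'⟩) rfl
      (fun hh => hne (congrArg (fun c : Dt => c.1.2) hh).symm)
    rw [h1, h3, ho, ho'] at this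
    exact Bool.noConfusion this

theorem exists_str {X : Type} [Fintype X] (H : SimpleGraph X)
    (hdeg : ∀ v, (H.neighborSet v).ncard ≤ 3) (m : X → X) (hm : ∀ x, m (m x) = x)
    (hadj : ∀ x, m x ≠ x → H.Adj x (m x))
    (hcov : ∀ x, (H.neighborSet x).ncard = 3 → m x ≠ x) :
    ∃ (G : Str X) (old : X → Prop), (∀ x, G.m x = m x) ∧
      (∀ x, old x → H.Adj x (G.s x) ∧ G.s x ≠ m x) ∧
      (∀ x, old x → old (G.s x) → G.s (G.s x) ≠ x) ∧
      ∀ u v, H.Adj u v → v = m u ∨ (old u ∧ G.s u = v) ∨ (old v ∧ G.s v = u) := by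
  classical
  obtain ⟨O, o1, o2, o3, o4, o5⟩ := struct_orient (fun x y => H.Adj x y ∧ y ≠ m x)
    (by
      rintro x y ⟨h, hne⟩
      refine ⟨h.symm, fun hh => hne ?_⟩
      rw [hh, hm])
    (fun x h => H.irrefl h.1)
    (by
      rintro x y z w ⟨hy, hy'⟩ ⟨hz, hz'⟩ ⟨hw, hw'⟩ hyz hwz
      by_contra hwy
      have hsub : ({y, z, w} : Set X) ⊆ H.neighborSet x := by
        intro t ht
        rcases ht with rfl | rfl | rfl
        · exact hy
        · exact hz
        · exact hw
      have h3 : ({y, z, w} : Set X).ncard = 3 :=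
        Set.ncard_eq_three.2 ⟨y, z, w, hyz, fun hh => hwy hh.symm, fun hh => hwz hh.symm, rfl⟩
      have hle := Set.ncard_le_ncard hsub (Set.toFinite _)
      have heq : (H.neighborSet x).ncard = 3 := le_antisymm (hdeg x) (h3 ▸ hle)
      have hset : ({y, z, w} : Set X) = H.neighborSet x :=
        Set.eq_of_subset_of_ncard_le hsub (by rw [heq, h3]) (Set.toFinite _)
      have hmem : m x ∈ H.neighborSet x := hadj x (hcov x heq)
      rw [← hset] at hmem
      rcases hmem with h | h | h
      · exact hy' h.symm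
      · exact hz' h.symm
      · exact hw' h.symm)
  let T : Type := {e : X × X // O e.1 e.2}
  obtain ⟨s, hs⟩ := Equiv.Perm.exists_extending_pair (fun e : T => e.1.1) (fun e : T => e.1.2)
    (by
      intro e e' h
      have h' : e.1.1 = e'.1.1 := h
      exact Subtype.ext (Prod.ext h' (o4 _ _ _ e.2 (h' ▸ e'.2))))
    (by
      intro e e' h
      have h' : e.1.2 = e'.1.2 := h
      exact Subtype.ext (Prod.ext (o5 _ _ _ e.2 (h' ▸ e'.2)) h'))
  have hso : ∀ x y, O x y → s x = y := fun x y h => hs ⟨(x, y), h⟩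
  refine ⟨⟨s, Function.Involutive.toPerm m hm, hm⟩, fun x => ∃ y, O x y, fun x => rfl, ?_, ?_, ?_⟩
  · rintro x ⟨y, h⟩
    show H.Adj x (s x) ∧ s x ≠ m x
    rw [hso x y h]
    exact o1 x y h
  · rintro x ⟨y, h⟩ ⟨z, h'⟩
    show s (s x) ≠ x
    have h'' : O (s x) z := h'
    rw [hso x y h] at h'' ⊢
    rw [hso y z h'']
    intro hz
    rw [hz] at h''
    exact o3 x y h h''
  · intro u v h
    by_cases hv : v = m u
    · exact Or.inl hv
    · rcases o2 u v ⟨h, hv⟩ with h1 | h1
      · exact Or.inr (Or.inl ⟨⟨v, h1⟩, hso u v h1⟩)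
      · exact Or.inr (Or.inr ⟨⟨u, h1⟩, hso v u h1⟩)

end Pool.Agent.TC
end

-- merged part: Pool.Agent.Work.MP_0b08b2_co.Base
section
set_option autoImplicit false

/-! The bridgeless case, given the theorem for locally free structures.

`old_free`: the list of positions `ev z W, ev z W.tail, ..., z` (length `W.length + 1`) is a chain
for `H.Adj` and non-backtracking (six cases of consecutive letters), so `Nodup` by `nb_nodup`.
`tc4_of_str`: apply `cover`, `hcore`; put `f v = cv (φ v)` and, for adjacent `u v`,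
`c u v = if v = m u then cm (φ u) else if old u ∧ s u = v then ca (φ v) else ca (φ u)`, `0` for
non-adjacent pairs. (`old u ∧ s u = v` and `old v ∧ s v = u` exclude each other.) -/

namespace Pool.Agent.TC

/-- The positions along a word, last position first. -/
def base_pos {X : Type} (G : Str X) (z : X) : List L → List X
  | [] => [z]
  | l :: W => G.ev z (l :: W) :: base_pos G z W

theorem base_pos_eq {X : Type} (G : Str X) (z : X) (W : List L) :
    ∃ t, base_pos G z W = G.ev z W :: t := by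
  cases W with
  | nil => exact ⟨[], rfl⟩
  | cons l W => exact ⟨_, rfl⟩

theorem base_pos_mem {X : Type} (G : Str X) (z : X) (W : List L) : z ∈ base_pos G z W := by
  induction W with
  | nil => exact List.mem_singleton.2 rfl
  | cons l W ih => exact List.mem_cons_of_mem _ ih

theorem base_pos_length {X : Type} (G : Str X) (z : X) (W : List L) :
    (base_pos G z W).length = W.length + 1 := by
  induction W with
  | nil => rfl
  | cons l W ih => simp [base_pos, ih]

theorem base_old_tail {X : Type} {G : Str X} {old : X → Prop} {z : X} {l : L} {W : List L}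
    (h : G.OldW old z (l :: W)) : G.OldW old z W := by
  cases l <;> exact h.2

theorem base_chain {X : Type} (H : SimpleGraph X) (G : Str X) (old : X → Prop)
    (h0 : ∀ x, G.m x ≠ x → H.Adj x (G.m x))
    (h1 : ∀ x, old x → H.Adj x (G.s x) ∧ G.s x ≠ G.m x) (z : X) (W : List L)
    (ho : G.OldW old z W) : (base_pos G z W).IsChain H.Adj := by
  induction W with
  | nil => exact List.IsChain.singleton z
  | cons l W ih =>
    have ih' := ih (base_old_tail ho)
    obtain ⟨t, ht⟩ := base_pos_eq G z W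
    rw [base_pos, ht]
    rw [ht] at ih'
    refine List.IsChain.cons_cons ?_ ih'
    cases l
    · exact (h1 _ ho.1).1.symm
    · have := (h1 _ ho.1).1
      rw [Equiv.apply_symm_apply] at this
      exact this
    · exact (h0 _ ho.1).symm

theorem base_nbl {X : Type} (G : Str X) (old : X → Prop)
    (h1 : ∀ x, old x → G.s x ≠ G.m x)
    (h2 : ∀ x, old x → old (G.s x) → G.s (G.s x) ≠ x) (z : X) (W : List L) (hW : Red W)
    (ho : G.OldW old z W) : NBL (base_pos G z W) := by
  induction W with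
  | nil => trivial
  | cons a W ih =>
    cases W with
    | nil => trivial
    | cons b W =>
      have ih' := ih hW.2 (base_old_tail ho)
      obtain ⟨t, ht⟩ := base_pos_eq G z W
      rw [base_pos, base_pos, ht]
      rw [base_pos, ht] at ih'
      refine ⟨?_, ih'⟩
      have hab := hW.1
      have hb := base_old_tail ho
      cases a <;> cases b <;> simp only [Str.OldW, Str.ev, Str.ap] at ho hb ⊢
      · exact h2 _ hb.1 ho.1
      · exact absurd rfl hab
      · have := h1 _ ho.1
        rwa [G.mm] at this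
      · exact absurd rfl hab
      · have := h2 _ ho.1 (by rw [Equiv.apply_symm_apply]; exact hb.1)
        rw [Equiv.apply_symm_apply, Equiv.apply_symm_apply] at this
        exact this.symm
      · intro h
        have := h1 _ ho.1
        rw [Equiv.apply_symm_apply, h] at this
        exact this rfl
      · intro h
        apply h1 _ hb.1
        rw [← G.mm (G.s _), h]
      · have := h1 _ hb.1
        rw [Equiv.apply_symm_apply] at this
        exact this.symm
      · exact absurd rfl hab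

theorem old_free {X : Type} (H : SimpleGraph X) (g : ℕ) (hg : GirthGe H (g + 1)) (G : Str X)
    (old : X → Prop) (h0 : ∀ x, G.m x ≠ x → H.Adj x (G.m x))
    (h1 : ∀ x, old x → H.Adj x (G.s x) ∧ G.s x ≠ G.m x)
    (h2 : ∀ x, old x → old (G.s x) → G.s (G.s x) ≠ x) (z : X) (W : List L) (hW : Red W)
    (hne : W ≠ []) (hl : W.length ≤ g) (ho : G.OldW old z W) : G.ev z W ≠ z := by
  have hn := nb_nodup H (g + 1) hg _ (base_chain H G old h0 h1 z W ho)
    (base_nbl G old (fun x hx => (h1 x hx).2) h2 z W hW ho) (by rw [base_pos_length]; omega)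
  cases W with
  | nil => exact absurd rfl hne
  | cons l W =>
    intro h
    rw [base_pos, h] at hn
    exact (List.nodup_cons.1 hn).1 (base_pos_mem G z W)

theorem tc4_of_str {X : Type} [Fintype X] (H : SimpleGraph X) (g : ℕ) (hg : GirthGe H (g + 1))
    (hcore : ∀ (V : Type) [Fintype V] (G : Str V), G.Free g → G.Col) (G : Str X)
    (old : X → Prop) (h0 : ∀ x, G.m x ≠ x → H.Adj x (G.m x))
    (h1 : ∀ x, old x → H.Adj x (G.s x) ∧ G.s x ≠ G.m x)
    (h2 : ∀ x, old x → old (G.s x) → G.s (G.s x) ≠ x)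
    (h3 : ∀ u v, H.Adj u v → v = G.m u ∨ (old u ∧ G.s u = v) ∨ (old v ∧ G.s v = u)) :
    TC4 H := by
  classical
  obtain ⟨V, iV, G', hfree, φ, -, hs, hm⟩ := cover G old g (old_free H g hg G old h0 h1 h2)
  obtain ⟨cv, ca, cm, hcm, hp⟩ := hcore V G' hfree
  set c : X → X → Fin 4 := fun u v => if H.Adj u v then
    (if v = G.m u then cm (φ u) else if old u ∧ G.s u = v then ca (φ v) else ca (φ u)) else 0
    with hc
  have key : ∀ u v, H.Adj u v → (v = G.m u ∧ c u v = cm (φ u) ∧ φ v = G'.m (φ u)) ∨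
      (v ≠ G.m u ∧ old u ∧ G.s u = v ∧ c u v = ca (G'.s (φ u)) ∧ φ v = G'.s (φ u)) ∨
      (v ≠ G.m u ∧ old v ∧ G.s v = u ∧ c u v = ca (φ u) ∧ φ u = G'.s (φ v)) := by
    intro u v huv
    by_cases a : v = G.m u
    · refine Or.inl ⟨a, by simp only [hc, if_pos huv, if_pos a], ?_⟩
      rw [hm u (a ▸ huv.ne.symm), a]
    · by_cases b : old u ∧ G.s u = v
      · have e : φ v = G'.s (φ u) := by rw [hs u b.1, b.2]
        exact Or.inr (Or.inl ⟨a, b.1, b.2, by simp only [hc, if_pos huv, if_neg a, if_pos b, e], e⟩)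
      · obtain ⟨d1, d2⟩ := ((h3 u v huv).resolve_left a).resolve_left b
        exact Or.inr (Or.inr ⟨a, d1, d2, by simp only [hc, if_pos huv, if_neg a, if_neg b],
          by rw [hs v d1, d2]⟩)
  have nd : ∀ x, cv x ≠ ca x ∧ cv x ≠ ca (G'.s x) ∧ cv x ≠ cm x ∧ ca x ≠ ca (G'.s x) ∧
      ca x ≠ cm x ∧ ca (G'.s x) ≠ cm x := fun x => by
    have := (hp x).1
    simp only [List.nodup_cons, List.mem_cons, List.not_mem_nil, or_false, not_or] at this
    tauto
  refine ⟨fun v => cv (φ v), c, fun u v => ?_, fun u v huv => ?_, fun u v huv => ?_,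
    fun u v w huv huw hvw => ?_⟩
  · by_cases huv : H.Adj u v
    · rcases key u v huv with ⟨a1, a2, a3⟩ | ⟨a0, a, a1, a2, a3⟩ | ⟨a0, a, a1, a2, a3⟩ <;>
        rcases key v u huv.symm with ⟨b1, b2, b3⟩ | ⟨b0, b, b1, b2, b3⟩ | ⟨b0, b, b1, b2, b3⟩
      · rw [a2, b2, a3, hcm]
      · exact absurd (by rw [a1, G.mm]) b0
      · exact absurd (by rw [a1, G.mm]) b0
      · exact absurd (by rw [b1, G.mm]) a0
      · exact absurd (by rw [a1, b1]) (h2 u a (a1 ▸ b))
      · rw [a2, b2, a3]
      · exact absurd (by rw [b1, G.mm]) a0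
      · rw [a2, b2, b3]
      · exact absurd (by rw [b1, a1]) (h2 u b (b1 ▸ a))
    · simp only [hc, if_neg huv, if_neg fun h : H.Adj v u => huv h.symm]
  · rcases key u v huv with ⟨-, -, a3⟩ | ⟨-, -, -, -, a3⟩ | ⟨-, -, -, -, a3⟩ <;> simp only [a3]
    exacts [(hp _).2.2, (hp _).2.1, (hp _).2.1.symm]
  · obtain ⟨n1, n2, n3, -⟩ := nd (φ u)
    rcases key u v huv with ⟨-, a2, -⟩ | ⟨-, -, -, a2, -⟩ | ⟨-, -, -, a2, -⟩ <;> rw [a2]
    exacts [n3.symm, n2.symm, n1.symm]
  · obtain ⟨-, -, -, n4, n5, n6⟩ := nd (φ u)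
    rcases key u v huv with ⟨a1, a2, -⟩ | ⟨-, -, a1, a2, -⟩ | ⟨-, -, a1, a2, -⟩ <;>
      rcases key u w huw with ⟨b1, b2, -⟩ | ⟨-, -, b1, b2, -⟩ | ⟨-, -, b1, b2, -⟩ <;> rw [a2, b2]
    exacts [absurd (a1.trans b1.symm) hvw, n6.symm, n5.symm, n6, absurd (a1.symm.trans b1) hvw,
      n4.symm, n5, n4, absurd (G.s.injective (a1.trans b1.symm)) hvw]

theorem tc4_base (g : ℕ) (hcore : ∀ (V : Type) [Fintype V] (G : Str V), G.Free g → G.Col)
    (X : Type) [Fintype X] (H : SimpleGraph X) (hdeg : ∀ v, (H.neighborSet v).ncard ≤ 3)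
    (hg : GirthGe H (g + 1))
    (hb : ∀ S : Set X, (∀ v ∈ S, (H.neighborSet v).ncard = 3) →
      {e : X × X | e.1 ∈ S ∧ e.2 ∉ S ∧ H.Adj e.1 e.2}.ncard ≠ 1) : TC4 H := by
  obtain ⟨m, hm, hadj, hcov⟩ := exists_matching H hdeg hb
  obtain ⟨G, old, e, h1, h2, h3⟩ := exists_str H hdeg m hm hadj hcov
  refine tc4_of_str H g hg hcore G old ?_ ?_ h2 ?_
  · intro x hx; rw [e] at hx ⊢; exact hadj x hx
  · intro x hx; rw [e]; exact h1 x hx
  · intro u v huv; rw [e]; exact h3 u v huv

end Pool.Agent.TC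
end
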