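import Pool.Agent.Work.MP_0b08b2_co.Defs

set_option autoImplicit false

/-! Kernel computation: fixed point upper bounds for the laws of the messages. -/

namespace Pool.Agent.TC

/-- Slot `j` of width `w` of a packed vector. -/
def getw (w U j : ℕ) : ℕ := (U >>> (w * j)) % 2 ^ w

def force {α : Type} (x : ℕ) (f : ℕ → α) : α :=
  match x with
  | 0 => f 0
  | y + 1 => f (y + 1)

theorem force_eq {α : Type} (x : ℕ) (f : ℕ → α) : force x f = f x := by
  cases x <;> rfl

def rowSum (P T V j1 : ℕ) : ℕ → ℕ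
  | 0 => 0
  | j + 1 =>
    if getw (P + 3) V j = 0 then rowSum P T V j1 j
    else rowSum P T V j1 j + (getw (P + 3) V j) <<< ((2 * P + 22) * tab T j1 j)

def bil (P T U V : ℕ) : ℕ → ℕ
  | 0 => 0
  | j + 1 =>
    if getw (P + 3) U j = 0 then bil P T U V j
    else bil P T U V j + getw (P + 3) U j * rowSum P T V j 64

/-- Round up after division by `2 ^ sh`, clip at `2 ^ (Q + 2)`. -/
def rnd (Q x sh : ℕ) : ℕ := if x = 0 then 0 else min (2 ^ (Q + 2)) (x >>> sh + 1)

def repack (P Q A sh : ℕ) : ℕ → ℕ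
  | 0 => 0
  | j + 1 => repack P Q A sh j + (rnd Q (getw (2 * P + 22) A j) sh) <<< ((Q + 3) * j)

def one8 {α : Type} (P U V : ℕ) (s : Bool) (δ : Bool × Bool) (g : ℕ → ℕ → α) : α :=
  force (bil P (TM s δ) U V 64) fun A0 => force (repack P P A0 P 64) fun W =>
    force (bil P (TF s δ) U W 64) fun A => force (bil P (TB s δ) V W 64) fun B => g A B

def stepK {α : Type} (P Q U V : ℕ) (g : ℕ → ℕ → α) : α :=
  one8 P U V false (false, false) fun A1 B1 => one8 P U V false (false, true) fun A2 B2 =>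
  one8 P U V false (true, false) fun A3 B3 => one8 P U V false (true, true) fun A4 B4 =>
  one8 P U V true (false, false) fun A5 B5 => one8 P U V true (false, true) fun A6 B6 =>
  one8 P U V true (true, false) fun A7 B7 => one8 P U V true (true, true) fun A8 B8 =>
  force (A1 + A2 + A3 + A4 + A5 + A6 + A7 + A8) fun A =>
  force (B1 + B2 + B3 + B4 + B5 + B6 + B7 + B8) fun B =>
  force (repack P Q A (2 * P + 3 - Q) 64) fun U' =>
  force (repack P Q B (2 * P + 3 - Q) 64) fun V' => g U' V'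

def tailSum (P U : ℕ) : ℕ → ℕ
  | 0 => 0
  | j + 1 => tailSum P U j + (if j = 1 then 0 else getw (P + 3) U j)

/-- Run through the list of precisions; `P` is the current one. -/
def runUV : List ℕ → ℕ → ℕ → ℕ → Bool
  | [], P, U, V =>
    decide (tailSum P U 64 * 2 ^ 2404 ≤ 2 ^ P) && decide (tailSum P V 64 * 2 ^ 2404 ≤ 2 ^ P)
  | Q :: l, P, U, V => decide (Q ≤ 2 * P + 3) && stepK P Q U V fun U' V' => runUV l Q U' V'

def U0 : ℕ := (2 ^ 40) <<< (43 * jF)
def V0 : ℕ := (2 ^ 39) <<< (43 * jB1) + (2 ^ 39) <<< (43 * jB3)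

def sched : List ℕ :=
  [40, 40, 40, 40, 40, 40, 40, 40, 60, 80, 100, 150, 250, 400, 700, 1200, 2000, 2470, 2470, 2470]

def spGet (w M U j : ℕ) : ℕ := Nat.mod (Nat.shiftRight U (Nat.mul w j)) M

def spRowS (w M w2 R V n : ℕ) : ℕ :=
  Nat.rec 0 (fun j ih => Nat.add ih (Nat.shiftLeft (Nat.mod (Nat.shiftRight V (Nat.mul w j)) M)
    (Nat.mul w2 (Nat.mod (Nat.shiftRight R (Nat.mul 6 j)) 64)))) n

def spBil (w M w2 T U V n : ℕ) : ℕ :=
  Nat.rec 0 (fun j ih => cond (Nat.beq (spGet w M U j) 0) ih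
    (Nat.add ih (Nat.mul (spGet w M U j) (spRowS w M w2 (Nat.shiftRight T (Nat.mul 384 j)) V 64)))) n

theorem spRowS_eq (P T V j1 n : ℕ) :
    spRowS (P + 3) (2 ^ (P + 3)) (2 * P + 22) (T >>> (384 * j1)) V n = rowSum P T V j1 n := by
  induction n with
  | zero => rfl
  | succ n ih =>
    change spRowS (P + 3) (2 ^ (P + 3)) (2 * P + 22) (T >>> (384 * j1)) V n +
      getw (P + 3) V n <<< ((2 * P + 22) * (((T >>> (384 * j1)) >>> (6 * n)) % 64)) = _
    rw [ih, rowSum, ← Nat.shiftRight_add, show 384 * j1 + 6 * n = 6 * (64 * j1 + n) by omega]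
    split_ifs with h
    · rw [h, Nat.zero_shiftLeft, Nat.add_zero]
    · rfl

theorem spBil_eq (P T U V n : ℕ) :
    spBil (P + 3) (2 ^ (P + 3)) (2 * P + 22) T U V n = bil P T U V n := by
  induction n with
  | zero => rfl
  | succ n ih =>
    change cond (Nat.beq (getw (P + 3) U n) 0) (spBil (P + 3) (2 ^ (P + 3)) (2 * P + 22) T U V n)
      (spBil (P + 3) (2 ^ (P + 3)) (2 * P + 22) T U V n + getw (P + 3) U n *
        spRowS (P + 3) (2 ^ (P + 3)) (2 * P + 22) (T >>> (384 * n)) V 64) = _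
    rw [ih, spRowS_eq, bil]
    split_ifs with h
    · rw [h]
      rfl
    · rw [Bool.eq_false_iff.2 fun e => h (Nat.eq_of_beq_eq_true e)]
      rfl

def spStep {α : Type} (P Q U V : ℕ) (g : ℕ → ℕ → α) : α :=
  force (P + 3) fun w => force (2 ^ w) fun M => force (2 * P + 22) fun w2 =>
  force (repack P P (spBil w M w2 T6 U V 64) P 64) fun W6 =>
  force (repack P P (spBil w M w2 T0 U V 64) P 64) fun W0 =>
  force (repack P P (spBil w M w2 T5 U V 64) P 64) fun W5 =>
  force (spBil w M w2 T7 U W6 64 + spBil w M w2 T11 U W6 64 + spBil w M w2 T9 U W6 64 +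
    spBil w M w2 T13 U W6 64 + spBil w M w2 T1 U W0 64 + spBil w M w2 T3 U W0 64 +
    spBil w M w2 T1 U W5 64 + spBil w M w2 T3 U W5 64) fun A =>
  force (spBil w M w2 T8 V W6 64 + spBil w M w2 T12 V W6 64 + spBil w M w2 T10 V W6 64 +
    spBil w M w2 T14 V W6 64 + spBil w M w2 T2 V W0 64 + spBil w M w2 T4 V W0 64 +
    spBil w M w2 T2 V W5 64 + spBil w M w2 T4 V W5 64) fun B =>
  force (repack P Q A (2 * P + 3 - Q) 64) fun U' =>
  force (repack P Q B (2 * P + 3 - Q) 64) fun V' => g U' V'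

theorem spStep_eq {α : Type} (P Q U V : ℕ) (g : ℕ → ℕ → α) :
    spStep P Q U V g = stepK P Q U V g := by
  simp only [spStep, stepK, one8, force_eq, spBil_eq, TM, TF, TB]

def spRun : List ℕ → ℕ → ℕ → ℕ → Bool
  | [], P, U, V =>
    decide (tailSum P U 64 * 2 ^ 2404 ≤ 2 ^ P) && decide (tailSum P V 64 * 2 ^ 2404 ≤ 2 ^ P)
  | Q :: l, P, U, V => decide (Q ≤ 2 * P + 3) && spStep P Q U V fun U' V' => spRun l Q U' V'

theorem spRun_eq (l : List ℕ) (P U V : ℕ) : spRun l P U V = runUV l P U V := by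
  induction l generalizing P U V with
  | nil => rfl
  | cons Q l ih => simp only [spRun, runUV, spStep_eq, ih]

theorem cert_run : runUV sched 40 U0 V0 = true := by
  rw [← spRun_eq]
  decide +kernel

end Pool.Agent.TC
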