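import Mathlib
import Pool.Agent.Work.MP_0b08b2_co.Tab

set_option autoImplicit false

/-!
Definitions for: every graph of maximum degree at most 3 and large girth has a total 4-colouring.
See `team-store` file `h13_0b08b2_writeup.md` for the mathematics.
-/

namespace Pool.Agent.TC

/-! ## Words and structures -/

/-- Letters: `S` successor, `P` predecessor, `M` matching partner. -/
inductive L | S | P | M
  deriving DecidableEq

instance : Fintype L := ⟨{L.S, L.P, L.M}, by intro x; cases x <;> simp⟩

def L.inv : L → L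
  | .S => .P
  | .P => .S
  | .M => .M

/-- A permutation `s` (oriented 2-factor) and an involution `m` (perfect matching). -/
structure Str (V : Type) where
  s : Equiv.Perm V
  m : Equiv.Perm V
  mm : ∀ x, m (m x) = x

def Str.ap {V : Type} (G : Str V) : L → V → V
  | .S, x => G.s x
  | .P, x => G.s.symm x
  | .M, x => G.m x

/-- Endpoint of the word `W` started at `z`; the head of the list is the LAST letter applied. -/
def Str.ev {V : Type} (G : Str V) (z : V) : List L → V
  | [] => z
  | l :: W => G.ap l (G.ev z W)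

/-- Reduced (non-backtracking) words. -/
def Red : List L → Prop
  | [] => True
  | [_] => True
  | a :: b :: W => b ≠ a.inv ∧ Red (b :: W)

/-- No nonempty reduced word of length at most `g` has a fixed point. -/
def Str.Free {V : Type} (G : Str V) (g : ℕ) : Prop :=
  ∀ z W, Red W → W ≠ [] → W.length ≤ g → G.ev z W ≠ z

/-- Total 4-colouring of the structure: vertex colour, colour of the arc entering `x`,
colour of the matching edge at `x`. -/
def Str.Col {V : Type} (G : Str V) : Prop :=
  ∃ cv ca cm : V → Fin 4, (∀ x, cm (G.m x) = cm x) ∧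
    ∀ x, [cv x, ca x, ca (G.s x), cm x].Nodup ∧ cv x ≠ cv (G.s x) ∧ cv x ≠ cv (G.m x)

def Str.tau {V : Type} (G : Str V) (x : V) : V := G.s (G.m (G.s.symm x))

/-- Number of letters different from `M`. -/
def wt : List L → ℕ
  | [] => 0
  | .M :: W => wt W
  | .S :: W => wt W + 1
  | .P :: W => wt W + 1

/-- Cons with cancellation. -/
def cc (l : L) : List L → List L
  | [] => [l]
  | a :: W => if a = l.inv then W else l :: a :: W

/-- Canonical representative of the line (orbit of `m` and `tau`) through a reduced word. -/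
def ell : List L → List L
  | [] => []
  | .M :: W => ell W
  | .P :: W => .P :: W
  | [.S] => [.S]
  | .S :: .S :: W => .S :: .S :: W
  | .S :: .P :: W => .S :: .P :: W
  | [.S, .M] => [.S]
  | .S :: .M :: .P :: W => ell W
  | .S :: .M :: .S :: W => .S :: .S :: W
  | .S :: .M :: .M :: W => .S :: .M :: W

def wordsLe : ℕ → Finset (List L)
  | 0 => {[]}
  | r + 1 => insert [] (Finset.univ.biUnion fun l : L => (wordsLe r).image (List.cons l))

/-! ## Probability by counting -/

open Classical in
noncomputable def pr {Ω : Type} [Fintype Ω] (E : Ω → Prop) : ℝ :=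
  ((Finset.univ.filter E).card : ℝ) / (Fintype.card Ω : ℝ)

/-- Sample space: candidate variables, private classes, private bits. -/
abbrev Om3 (V : Type) (n : ℕ) : Type :=
  (V → Fin (n + 1)) × (V → Bool) × (V × Bool → Bool)

def Agree {V : Type} {n : ℕ} (ω ω' : Om3 V n) (S : Finset V) : Prop :=
  ∀ v ∈ S, ω.1 v = ω'.1 v ∧ ω.2.1 v = ω'.2.1 v ∧ ∀ i, ω.2.2 (v, i) = ω'.2.2 (v, i)

/-! ## The abstract process on trees -/

/-- State of a vertex: class (`false` = A, `true` = B) and the two bits. -/
abbrev St : Type := Bool × Bool × Bool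

def b2f (b : Bool) : Fin 4 := if b then 1 else 0
def b2g (b : Bool) : Fin 4 := if b then 3 else 2

/-- Vertex colour. -/
def cvS (σ : St) : Fin 4 := if σ.1 then b2g σ.2.2 else b2f σ.2.1
/-- Colour of the entering arc. -/
def caS (σ : St) : Fin 4 := if σ.1 then b2f σ.2.1 else b2g σ.2.2
/-- Colour of the matching edge, `y` being the class of the successor. -/
def cmS (y : Bool) (β : Bool × Bool) : Fin 4 := if y then b2g (!β.2) else b2f (!β.1)
def oth : Fin 4 → Fin 4 := ![1, 0, 3, 2]
/-- Normalised colours to true colours. -/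
def gS (σ : St) : Fin 4 → Fin 4 := ![cvS σ, oth (cvS σ), caS σ, oth (caS σ)]

def turn (i k y : Bool) : Bool := (k != y) && (k != i)

def nb (k y : Bool) (own other : Bool × Bool) : Bool × Bool :=
  (!(if turn false k y then other.1 else own.1), !(if turn true k y then other.2 else own.2))

def rel (y : Bool) (β β' : Bool × Bool) : Bool × Bool :=
  if y then (xor β.2 β'.2, xor β.1 β'.1) else (xor β.1 β'.1, xor β.2 β'.2)

def tab (T j1 j2 : ℕ) : ℕ := (T >>> (6 * (64 * j1 + j2))) % 64

def mem (j : ℕ) (a c : Fin 4) : Bool := NM.testBit (16 * j + 4 * a.val + c.val)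

/-- Message number `j` relative to the state `σ` allows edge colour `A` and parent colour `C`. -/
def sem (σ : St) (j : ℕ) (A C : Fin 4) : Prop :=
  ∃ a c, mem j a c = true ∧ gS σ a = A ∧ gS σ c = C

def Cmb (T T1 T2 : Fin 4 → Fin 4 → Prop) : Prop :=
  ∀ A C, T A C → ∃ Z A1 A2, [A, Z, A1, A2].Nodup ∧ Z ≠ C ∧ T1 A1 Z ∧ T2 A2 Z

/-- Sample space of the forward (`true`) and backward (`false`) subtree of depth `d`. -/
def Om : ℕ → Bool → Type
  | 0, true => Bool × Bool
  | 0, false => Bool
  | d + 1, true => Bool × Om d true × Om d true × Om d false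
  | d + 1, false => Bool × Om d true × Om d false × Om d false

instance instFintypeOm : (d : ℕ) → (f : Bool) → Fintype (Om d f)
  | 0, true => inferInstanceAs (Fintype (Bool × Bool))
  | 0, false => inferInstanceAs (Fintype Bool)
  | d + 1, true =>
    letI := instFintypeOm d true
    letI := instFintypeOm d false
    inferInstanceAs (Fintype (Bool × Om d true × Om d true × Om d false))
  | d + 1, false =>
    letI := instFintypeOm d true
    letI := instFintypeOm d false
    inferInstanceAs (Fintype (Bool × Om d true × Om d false × Om d false))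

/-- Both output maps at once. -/
def outP : (d : ℕ) → (Bool → Om d true → (Bool × Bool) × ℕ) × (St → Om d false → ℕ)
  | 0 => (fun _ (β : Bool × Bool) => (β, jF), fun σ (k : Bool) => if k = σ.1 then jB1 else jB3)
  | d + 1 =>
    (fun k (ω : Bool × Om d true × Om d true × Om d false) =>
      (nb k ω.1 ((outP d).1 ω.1 ω.2.1).1 ((outP d).1 ω.1 ω.2.2.1).1,
        tab (TF (k == ω.1) (rel ω.1 ((outP d).1 ω.1 ω.2.1).1 ((outP d).1 ω.1 ω.2.2.1).1))
          ((outP d).1 ω.1 ω.2.1).2
          (tab (TM (k == ω.1) (rel ω.1 ((outP d).1 ω.1 ω.2.1).1 ((outP d).1 ω.1 ω.2.2.1).1))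
            ((outP d).1 ω.1 ω.2.2.1).2
            ((outP d).2 (!k, nb (!k) ω.1 ((outP d).1 ω.1 ω.2.2.1).1 ((outP d).1 ω.1 ω.2.1).1)
              ω.2.2.2))),
     fun σ (ω : Bool × Om d true × Om d false × Om d false) =>
      tab (TB (ω.1 == σ.1) (rel σ.1 σ.2 ((outP d).1 σ.1 ω.2.1).1))
        ((outP d).2 (ω.1, nb ω.1 σ.1 σ.2 ((outP d).1 σ.1 ω.2.1).1) ω.2.2.1)
        (tab (TM (ω.1 == σ.1) (rel σ.1 σ.2 ((outP d).1 σ.1 ω.2.1).1))
          ((outP d).1 σ.1 ω.2.1).2
          ((outP d).2 (!ω.1, nb (!ω.1) σ.1 ((outP d).1 σ.1 ω.2.1).1 σ.2) ω.2.2.2)))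

def outF (d : ℕ) (k : Bool) (ω : Om d true) : (Bool × Bool) × ℕ := (outP d).1 k ω
def outB (d : ℕ) (σ : St) (ω : Om d false) : ℕ := (outP d).2 σ ω

theorem outF_zero (k : Bool) (β : Bool × Bool) : outF 0 k β = (β, jF) := rfl
theorem outB_zero (σ : St) (k : Bool) : outB 0 σ k = if k = σ.1 then jB1 else jB3 := rfl
theorem outF_succ (d : ℕ) (k y : Bool) (ω1 ω2 : Om d true) (ω3 : Om d false) :
    outF (d + 1) k ((y, ω1, ω2, ω3) : Bool × Om d true × Om d true × Om d false) =
      (nb k y (outF d y ω1).1 (outF d y ω2).1,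
        tab (TF (k == y) (rel y (outF d y ω1).1 (outF d y ω2).1)) (outF d y ω1).2
          (tab (TM (k == y) (rel y (outF d y ω1).1 (outF d y ω2).1)) (outF d y ω2).2
            (outB d (!k, nb (!k) y (outF d y ω2).1 (outF d y ω1).1) ω3))) := rfl
theorem outB_succ (d : ℕ) (y : Bool) (β : Bool × Bool) (k : Bool) (ω2 : Om d true)
    (ω1 ω3 : Om d false) :
    outB (d + 1) (y, β) ((k, ω2, ω1, ω3) : Bool × Om d true × Om d false × Om d false) =
      tab (TB (k == y) (rel y β (outF d y ω2).1)) (outB d (k, nb k y β (outF d y ω2).1) ω1)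
        (tab (TM (k == y) (rel y β (outF d y ω2).1)) (outF d y ω2).2
          (outB d (!k, nb (!k) y (outF d y ω2).1 β) ω3)) := rfl

/-- The message is not the full one (index 1) for some input. -/
def bad (d : ℕ) : (f : Bool) → Om d f → Prop
  | true, ω => ∃ k, (outF d k ω).2 ≠ 1
  | false, ω => ∃ σ, outB d σ ω ≠ 1

/-- Reading the free coordinates of the subtree at `x` from fields `κ`, `b`. -/
def Str.rd {V : Type} (G : Str V) (κ : V → Bool) (b : V → Bool × Bool) :
    (d : ℕ) → (f : Bool) → V → Om d f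
  | 0, true, x => b x
  | 0, false, x => κ x
  | d + 1, true, x =>
    ((κ (G.s x), rd G κ b d true (G.s x), rd G κ b d true (G.s (G.m x)),
      rd G κ b d false (G.s.symm (G.m x))) : Bool × Om d true × Om d true × Om d false)
  | d + 1, false, x =>
    ((κ x, rd G κ b d true (G.s (G.m x)), rd G κ b d false (G.s.symm x),
      rd G κ b d false (G.s.symm (G.m x))) : Bool × Om d true × Om d false × Om d false)

/-- Words carrying the class coordinates of the subtree with root word `W`. -/
def cI : ℕ → Bool → List L → List (List L)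
  | 0, true, _ => []
  | 0, false, W => [W]
  | d + 1, true, W => (.S :: W) ::
      (cI d true (.S :: W) ++ cI d true (.S :: .M :: W) ++ cI d false (.P :: .M :: W))
  | d + 1, false, W => W ::
      (cI d true (.S :: .M :: W) ++ cI d false (.P :: W) ++ cI d false (.P :: .M :: W))

/-- Words carrying the bit coordinates (forward leaves). -/
def cJ : ℕ → Bool → List L → List (List L)
  | 0, true, W => [W]
  | 0, false, _ => []
  | d + 1, true, W => cJ d true (.S :: W) ++ cJ d true (.S :: .M :: W) ++ cJ d false (.P :: .M :: W)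
  | d + 1, false, W => cJ d true (.S :: .M :: W) ++ cJ d false (.P :: W) ++ cJ d false (.P :: .M :: W)

def hd (f : Bool) : L := if f then .S else .P
def Str.base {V : Type} (G : Str V) (f : Bool) (x : V) : V := if f then G.s.symm x else G.s x

/-! ## Chains (generic in the class field `κ` and the set `a` of active vertices) -/

def Str.nx {V : Type} (G : Str V) (t : Bool) (x : V) : V := if t then G.s (G.m x) else G.s x

open Classical in
noncomputable def Str.ch {V : Type} (G : Str V) (a : V → Prop) (κ : V → Bool) (i : Bool) :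
    ℕ → V → Bool → V × Bool
  | 0, x, _ => (x, false)
  | j + 1, x, k =>
    if a x then (x, false) else
      ((ch G a κ i j (G.nx (turn i k (κ (G.s x))) x) (κ (G.s x))).1,
        !(ch G a κ i j (G.nx (turn i k (κ (G.s x))) x) (κ (G.s x))).2)

def Str.stop {V : Type} (G : Str V) (a : V → Prop) (κ : V → Bool) (i : Bool) :
    ℕ → V → Bool → Prop
  | 0, _, _ => False
  | j + 1, x, k => a x ∨ stop G a κ i j (G.nx (turn i k (κ (G.s x))) x) (κ (G.s x))

/-- Position of the route after `t` steps. -/
def Str.rt {V : Type} (G : Str V) (κ : V → Bool) (i : Bool) : ℕ → V → Bool → V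
  | 0, x, _ => x
  | t + 1, x, k => rt G κ i t (G.nx (turn i k (κ (G.s x))) x) (κ (G.s x))

/-- Route prescribed by a list of classes. -/
def Str.dr {V : Type} (G : Str V) (i : Bool) : List Bool → V → Bool → V
  | [], x, _ => x
  | y :: ys, x, k => dr G i ys (G.nx (turn i k y) x) y

/-- The classes met along the route are those of the list. -/
def Str.mt {V : Type} (G : Str V) (κ : V → Bool) (i : Bool) : List Bool → V → Bool → Prop
  | [], _, _ => True
  | y :: ys, x, k => κ (G.s x) = y ∧ mt G κ i ys (G.nx (turn i k y) x) y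

/-- Coordinate words and targets of `mt`. -/
def rw_ (i : Bool) : List Bool → List L → Bool → List (List L × Bool)
  | [], _, _ => []
  | y :: ys, W, k => (.S :: W, y) :: rw_ i ys (if turn i k y then .S :: .M :: W else .S :: W) y

/-- The local relations at a non-active vertex. -/
def Str.Rel {V : Type} (G : Str V) (κ : V → Bool) (b : V → Bool × Bool) (x : V) : Prop :=
  κ (G.m x) = !κ x ∧ κ (G.s (G.m x)) = κ (G.s x) ∧
    b x = nb (κ x) (κ (G.s x)) (b (G.s x)) (b (G.s (G.m x)))

/-! ## Recolouring on words -/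

def kids : L → L × L
  | .S => (.S, .M)
  | .P => (.P, .M)
  | .M => (.S, .P)

/-- Properness at a word; `e W` is the colour of the edge from `W` to its tail. -/
def PU (v e : List L → Fin 4) : List L → Prop
  | [] => [v [], e [.S], e [.P], e [.M]].Nodup ∧ v [.S] ≠ v [] ∧ v [.P] ≠ v [] ∧ v [.M] ≠ v []
  | l :: W => [v (l :: W), e (l :: W), e ((kids l).1 :: l :: W), e ((kids l).2 :: l :: W)].Nodup ∧
      v ((kids l).1 :: l :: W) ≠ v (l :: W) ∧ v ((kids l).2 :: l :: W) ≠ v (l :: W)

/-- Base colour of the edge from a word to its tail (used for heads `S` and `P`). -/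
def Str.e0 {V : Type} (G : Str V) (κ : V → Bool) (b : V → Bool × Bool) (z : V) : List L → Fin 4
  | .S :: W => caS (κ (G.ev z (.S :: W)), b (G.ev z (.S :: W)))
  | .P :: W => caS (κ (G.ev z W), b (G.ev z W))
  | _ => 0

/-- `v, e` are proper on the words extending `W` of weight below `w` and agree with the base
colouring on the leaves of weight `w`. -/
def Str.Inner {V : Type} (G : Str V) (κ : V → Bool) (b : V → Bool × Bool) (z : V)
    (v e : List L → Fin 4) (W : List L) (w : ℕ) : Prop :=
  ∀ X, Red X → W <:+ X →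
    (wt X < w → PU v e X) ∧
    (wt X = w → X.head? ≠ some .M →
      v X = cvS (κ (G.ev z X), b (G.ev z X)) ∧ e X = G.e0 κ b z X)

/-! ## The random fields -/

/-- Structure with an orientation of the lines and three parameters. -/
structure Frame (V : Type) extends Str V where
  o : V → Bool
  om : ∀ x, o (m x) = !o x
  ot : ∀ x, o (toStr.tau x) = !o x
  D : ℕ
  Lb : ℕ
  Lc : ℕ

section fields
variable {V : Type} [Fintype V] [DecidableEq V] {n : ℕ}

def Str.ball (G : Str V) (r : ℕ) (x : V) : Finset V := (wordsLe r).image (G.ev x)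

def Frame.act0 (F : Frame V) (c : V → Fin (n + 1)) (x : V) : Prop :=
  c x = 0 ∧ ∀ y ∈ F.toStr.ball F.D x, y ≠ x → c y ≠ 0

def Frame.act (F : Frame V) (c : V → Fin (n + 1)) (x : V) : Prop :=
  F.act0 c x ∨ F.act0 c (F.m x)

def Frame.bk (F : Frame V) (x : V) : V := if F.o x then F.m x else F.toStr.tau x

open Classical in
noncomputable def Frame.lb (F : Frame V) (c : V → Fin (n + 1)) : ℕ → V → V × Bool
  | 0, x => (x, false)
  | j + 1, x =>
    if F.o x = true ∧ F.act c x then (x, false)
    else ((lb F c j (F.bk x)).1, xor (F.o x) (lb F c j (F.bk x)).2)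

def Frame.found (F : Frame V) (c : V → Fin (n + 1)) : ℕ → V → Prop
  | 0, _ => False
  | j + 1, x => (F.o x = true ∧ F.act c x) ∨ found F c j (F.bk x)

noncomputable def Frame.kap (F : Frame V) (c : V → Fin (n + 1)) (p : V → Bool) (x : V) : Bool :=
  xor (p (F.lb c F.Lb x).1) (F.lb c F.Lb x).2

noncomputable def Frame.bitv (F : Frame V) (c : V → Fin (n + 1)) (p : V → Bool)
    (β : V × Bool → Bool) (i : Bool) (x : V) : Bool :=
  xor (β ((F.toStr.ch (F.act c) (F.kap c p) i F.Lc x (F.kap c p x)).1, i))
    (F.toStr.ch (F.act c) (F.kap c p) i F.Lc x (F.kap c p x)).2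

noncomputable def Frame.bits (F : Frame V) (c : V → Fin (n + 1)) (p : V → Bool)
    (β : V × Bool → Bool) (x : V) : Bool × Bool :=
  (F.bitv c p β false x, F.bitv c p β true x)

def Frame.gap (F : Frame V) (x : V) (ω : Om3 V n) : Prop := ¬ F.found ω.1 (F.Lb - 1) x

def Frame.long (F : Frame V) (i k : Bool) (x : V) (ω : Om3 V n) : Prop :=
  ¬ F.toStr.stop (F.act ω.1) (F.kap ω.1 ω.2.1) i (F.Lc - 1) x k

def Frame.fail (F : Frame V) (d : ℕ) (f : Bool) (x : V) (ω : Om3 V n) : Prop :=
  bad d f (F.toStr.rd (F.kap ω.1 ω.2.1) (F.bits ω.1 ω.2.1 ω.2.2) d f x)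

def Frame.QL (F : Frame V) (x : V) : Finset V :=
  (Finset.range (F.Lb + 1)).biUnion fun j => F.toStr.ball (F.D + 1) (F.bk^[j] x)

def Frame.Qloc (F : Frame V) (x : V) : Finset V := F.QL x ∪ F.QL (F.s x)

noncomputable def Frame.Qch (F : Frame V) (i k : Bool) (x : V) (ω : Om3 V n) : Finset V :=
  (Finset.range (F.Lc + 1)).biUnion fun t => F.Qloc (F.toStr.rt (F.kap ω.1 ω.2.1) i t x k)

noncomputable def Frame.Qf (F : Frame V) (d : ℕ) (f : Bool) (x : V) (ω : Om3 V n) : Finset V :=
  insert x (((cI d f [hd f]).toFinset.biUnion fun W => F.QL (F.toStr.ev (F.toStr.base f x) W)) ∪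
    ((cJ d f [hd f]).toFinset.biUnion fun W => (Finset.univ : Finset (Bool × Bool)).biUnion
      fun ik => F.Qch ik.1 ik.2 (F.toStr.ev (F.toStr.base f x) W) ω))

/-- Bad events. -/
def Frame.Bad (F : Frame V) (d : ℕ) : V ⊕ ((Bool × Bool) × V) ⊕ (Bool × V) → Om3 V n → Prop
  | .inl x => F.gap x
  | .inr (.inl (ik, x)) => F.long ik.1 ik.2 x
  | .inr (.inr (f, x)) => F.fail d f x

/-- Their query sets. -/
noncomputable def Frame.Q (F : Frame V) (d : ℕ) :
    V ⊕ ((Bool × Bool) × V) ⊕ (Bool × V) → Om3 V n → Finset V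
  | .inl x => fun _ => F.QL x
  | .inr (.inl (ik, x)) => F.Qch ik.1 ik.2 x
  | .inr (.inr (f, x)) => F.Qf d f x

/-- Size bound for `QL`. -/
def Frame.KL (F : Frame V) : ℕ := (F.Lb + 1) * 3 ^ (F.D + 2)
/-- Size bound for all query sets. -/
def Frame.MM (F : Frame V) (d : ℕ) : ℕ := 10 * 3 ^ (d + 1) * (F.Lc + 1) * F.KL

end fields

/-! ## Incomplete structures and graphs -/

/-- Every step of the word uses an old edge. -/
def Str.OldW {X : Type} (G : Str X) (old : X → Prop) (z : X) : List L → Prop
  | [] => True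
  | .S :: W => old (G.ev z W) ∧ OldW G old z W
  | .P :: W => old (G.s.symm (G.ev z W)) ∧ OldW G old z W
  | .M :: W => G.m (G.ev z W) ≠ G.ev z W ∧ OldW G old z W

/-- Total 4-colouring of a simple graph, as in the frozen statements. -/
def TC4 {X : Type} (H : SimpleGraph X) : Prop :=
  ∃ (f : X → Fin 4) (c : X → X → Fin 4), (∀ u v, c u v = c v u) ∧
    (∀ u v, H.Adj u v → f u ≠ f v) ∧ (∀ u v, H.Adj u v → c u v ≠ f u) ∧
    ∀ u v w, H.Adj u v → H.Adj u w → v ≠ w → c u v ≠ c u w

def GirthGe {X : Type} (H : SimpleGraph X) (g : ℕ) : Prop :=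
  ∀ u (p : H.Walk u u), p.IsCycle → g ≤ p.length

end Pool.Agent.TC
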