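import Pool.Agent.Work.MP_0b08b2_co.Defs

set_option autoImplicit false

/-! Reduction to graphs without a bridge cutting off vertices of degree 3.

Fix `X`; strong induction on the number of edges (e.g. `H.edgeSet.ncard`, or the number of adjacent
ordered pairs) for all graphs `H` on `X`; subgraphs inherit the degree bound and `GirthGe`
(`Walk.mapLe`, `IsCycle.mapLe` / `Walk.transfer`). If `hbase` does not apply there is `S` with
exactly one edge `x y` leaving it (`x ∈ S`, `y ∉ S`) and `x` has degree 3, so `x` has a neighbour in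
`S`. Let `H1` = edges inside `S` plus `x y`, `H2` = edges inside `Sᶜ` plus `x y`; `H2` has fewer
edges. If `y` has a second neighbour then `H1` has fewer edges too: colour both, compose the second
colouring with a permutation of `Fin 4` sending `(f2 x, c2 x y, f2 y)` to `(f1 x, c1 x y, f1 y)`
(three distinct colours each; existence by `decide` or `Equiv.Perm.exists_extending_pair`), and put
`f v = if v ∈ S then f1 v else f2 v`, `c u v = if u ∈ S ∧ v ∈ S then c1 u v else c2 u v`
(note `c1 x y = c2 x y` after the permutation). If `x` is the only neighbour of `y`, colour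
`H` minus the edge `x y`, give `x y` a colour different from `f x` and the at most two other edges
at `x`, then recolour `y` with a colour different from `f x` and `c x y`. -/

namespace Pool.Agent.TC

/-- the edges with both ends in `T` -/
def induct_res {X : Type} (H : SimpleGraph X) (T : Set X) : SimpleGraph X where
  Adj u v := H.Adj u v ∧ u ∈ T ∧ v ∈ T
  symm := ⟨fun _ _ h => ⟨h.1.symm, h.2.2, h.2.1⟩⟩
  loopless := ⟨fun _ h => h.1.ne rfl⟩

theorem induct_lt {X : Type} {H : SimpleGraph X} {T : Set X} {u v : X} (h : H.Adj u v)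
    (hv : v ∉ T) : induct_res H T < H :=
  lt_of_le_of_ne (fun _ _ e => e.1) fun e => hv (e.ge h).2.2

theorem induct_inj : ∀ a b c : Fin 4, a ≠ b → a ≠ c → b ≠ c → Function.Injective ![a, b, c] := by
  decide

theorem induct_third : ∀ a b : Fin 4, ∃ c, c ≠ a ∧ c ≠ b := by decide

theorem induct_glue {X : Type} {H : SimpleGraph X} {S : Set X} {x y : X} (hx : x ∈ S) (hy : y ∉ S)
    (hxy : H.Adj x y) (hu : ∀ u v, u ∈ S → v ∉ S → H.Adj u v → u = x ∧ v = y)
    (h1 : TC4 (induct_res H (insert y S))) (h2 : TC4 (induct_res H (insert x Sᶜ))) : TC4 H := by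
  classical
  obtain ⟨f1, c1, s1, p1, q1, r1⟩ := h1
  obtain ⟨f2, c2, s2, p2, q2, r2⟩ := h2
  have a1 : (induct_res H (insert y S)).Adj x y := ⟨hxy, Or.inr hx, Or.inl rfl⟩
  have a2 : (induct_res H (insert x Sᶜ)).Adj x y := ⟨hxy, Or.inl rfl, Or.inr hy⟩
  obtain ⟨σ, hσ⟩ := Equiv.Perm.exists_extending_pair _ _
    (induct_inj (f2 x) (f2 y) (c2 x y) (p2 _ _ a2) (q2 _ _ a2).symm
      (s2 x y ▸ (q2 _ _ a2.symm).symm))
    (induct_inj (f1 x) (f1 y) (c1 x y) (p1 _ _ a1) (q1 _ _ a1).symm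
      (s1 x y ▸ (q1 _ _ a1.symm).symm))
  have e0 : σ (f2 x) = f1 x := hσ 0
  have e1 : σ (f2 y) = f1 y := hσ 1
  have e2 : σ (c2 x y) = c1 x y := hσ 2
  obtain ⟨f, hf⟩ : ∃ f : X → Fin 4, ∀ v, f v = if v ∈ S then f1 v else σ (f2 v) := ⟨_, fun _ => rfl⟩
  obtain ⟨c, hc⟩ : ∃ c : X → X → Fin 4, ∀ u v,
    c u v = if u ∈ S ∧ v ∈ S then c1 u v else σ (c2 u v) := ⟨_, fun _ _ => rfl⟩
  have A : ∀ u v, u ∈ S → H.Adj u v → (induct_res H (insert y S)).Adj u v ∧ f u = f1 u ∧
      f v = f1 v ∧ c u v = c1 u v := fun u v h e => by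
    by_cases h' : v ∈ S
    · exact ⟨⟨e, Or.inr h, Or.inr h'⟩, by rw [hf, if_pos h], by rw [hf, if_pos h'],
        by rw [hc, if_pos ⟨h, h'⟩]⟩
    · obtain ⟨rfl, rfl⟩ := hu u v h h' e
      exact ⟨a1, by rw [hf, if_pos h], by rw [hf, if_neg h', e1],
        by rw [hc, if_neg fun k => h' k.2, e2]⟩
  have B : ∀ u v, u ∉ S → H.Adj u v → (induct_res H (insert x Sᶜ)).Adj u v ∧ f u = σ (f2 u) ∧
      f v = σ (f2 v) ∧ c u v = σ (c2 u v) := fun u v h e => by
    refine ⟨⟨e, Or.inr h, ?_⟩, by rw [hf, if_neg h], ?_, by rw [hc, if_neg fun k => h k.1]⟩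
    · by_cases h' : v ∈ S
      · exact Or.inl (hu v u h' h e.symm).1
      · exact Or.inr h'
    · by_cases h' : v ∈ S
      · rw [(hu v u h' h e.symm).1, hf, if_pos hx, e0]
      · rw [hf, if_neg h']
  refine ⟨f, c, fun u v => ?_, fun u v e => ?_, fun u v e => ?_, fun u v w e e' hvw => ?_⟩
  · rw [hc, hc, s1 u v, s2 u v]
    exact if_congr and_comm rfl rfl
  · by_cases h : u ∈ S
    · obtain ⟨k, k1, k2, -⟩ := A u v h e
      rw [k1, k2]; exact p1 _ _ k
    · obtain ⟨k, k1, k2, -⟩ := B u v h e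
      rw [k1, k2]; exact σ.injective.ne (p2 _ _ k)
  · by_cases h : u ∈ S
    · obtain ⟨k, k1, -, k3⟩ := A u v h e
      rw [k1, k3]; exact q1 _ _ k
    · obtain ⟨k, k1, -, k3⟩ := B u v h e
      rw [k1, k3]; exact σ.injective.ne (q2 _ _ k)
  · by_cases h : u ∈ S
    · obtain ⟨k, -, -, k3⟩ := A u v h e
      obtain ⟨k', -, -, k4⟩ := A u w h e'
      rw [k3, k4]; exact r1 _ _ _ k k' hvw
    · obtain ⟨k, -, -, k3⟩ := B u v h e
      obtain ⟨k', -, -, k4⟩ := B u w h e'
      rw [k3, k4]; exact σ.injective.ne (r2 _ _ _ k k' hvw)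

theorem induct_pendant {X : Type} [Finite X] {H : SimpleGraph X} {x y : X} (hxy : H.Adj x y)
    (hu : ∀ v, H.Adj y v → v = x) (hd : (H.neighborSet x).ncard ≤ 3)
    (h : TC4 (induct_res H {y}ᶜ)) : TC4 H := by
  classical
  obtain ⟨f, c, s, p, q, r⟩ := h
  obtain ⟨a, ha⟩ : ∃ a, a ∉ insert (f x) (c x '' (H.neighborSet x \ {y})) := by
    rw [← Set.ne_univ_iff_exists_notMem]
    intro e
    have h1 := Set.ncard_insert_le (f x) (c x '' (H.neighborSet x \ {y}))
    have h2 := Set.ncard_image_le (s := H.neighborSet x \ {y}) (f := c x)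
    have h3 := Set.ncard_sdiff_singleton_add_one (s := H.neighborSet x) (a := y) hxy
    rw [e, Set.ncard_univ, Nat.card_eq_fintype_card, Fintype.card_fin] at h1
    omega
  have a1 : a ≠ f x := fun e => ha (Or.inl e)
  have a2 : ∀ v, H.Adj x v → v ≠ y → a ≠ c x v := fun v e e' k => ha (Or.inr ⟨v, ⟨e, e'⟩, k.symm⟩)
  obtain ⟨b, b1, b2⟩ := induct_third (f x) a
  have hne : x ≠ y := hxy.ne
  refine ⟨fun v => if v = y then b else f v, fun u v => if u = y ∨ v = y then a else c u v,
    fun u v => ?_, fun u v e => ?_, fun u v e => ?_, fun u v w e e' hvw => ?_⟩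
  · simp only [s u v]
    exact if_congr or_comm rfl rfl
  · by_cases h : u = y
    · subst h
      rw [hu v e]
      simpa [hne] using b1
    · by_cases h' : v = y
      · subst h'
        rw [hu u e.symm]
        simpa [hne] using b1.symm
      · simpa [h, h'] using p u v ⟨e, h, h'⟩
  · by_cases h : u = y
    · simpa [h] using b2.symm
    · by_cases h' : v = y
      · subst h'
        rw [hu u e.symm]
        simpa [hne] using a1
      · simpa [h, h'] using q u v ⟨e, h, h'⟩
  · by_cases h : u = y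
    · subst h
      exact absurd ((hu v e).trans (hu w e').symm) hvw
    · by_cases h' : v = y
      · subst h'
        obtain rfl := hu u e.symm
        simpa [h, hvw.symm] using a2 w e' hvw.symm
      · by_cases h'' : w = y
        · subst h''
          obtain rfl := hu u e'.symm
          simpa [h, h'] using (a2 v e h').symm
        · simpa [h, h', h''] using r u v w ⟨e, h, h'⟩ ⟨e', h, h''⟩ hvw

theorem tc4_of_base (g : ℕ) (X : Type) [Fintype X]
    (hbase : ∀ H : SimpleGraph X, (∀ v, (H.neighborSet v).ncard ≤ 3) → GirthGe H g →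
      (∀ S : Set X, (∀ v ∈ S, (H.neighborSet v).ncard = 3) →
        {e : X × X | e.1 ∈ S ∧ e.2 ∉ S ∧ H.Adj e.1 e.2}.ncard ≠ 1) → TC4 H)
    (H : SimpleGraph X) (hdeg : ∀ v, (H.neighborSet v).ncard ≤ 3) (hg : GirthGe H g) :
    TC4 H := by
  induction H using WellFoundedLT.induction with
  | ind H ih =>
  have ih' : ∀ (T : Set X) u v, H.Adj u v → v ∉ T → TC4 (induct_res H T) := fun T u v e hv =>
    ih _ (induct_lt e hv)
      (fun w => (Set.ncard_le_ncard (t := H.neighborSet w) fun _ k => k.1).trans (hdeg w))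
      fun w p hp => by
        have := hg w (p.mapLe (induct_lt e hv).le) (hp.mapLe _)
        rwa [SimpleGraph.Walk.length_mapLe] at this
  by_contra hn
  have h0 := mt (hbase H hdeg hg) hn
  push Not at h0
  obtain ⟨S, hS, h1⟩ := h0
  obtain ⟨⟨x, y⟩, h1⟩ := Set.ncard_eq_one.1 h1
  obtain ⟨hx, hy, hxy⟩ : (x, y) ∈ {e : X × X | e.1 ∈ S ∧ e.2 ∉ S ∧ H.Adj e.1 e.2} := h1.ge rfl
  have hu : ∀ u v, u ∈ S → v ∉ S → H.Adj u v → u = x ∧ v = y := fun u v a b c =>
    Prod.mk.inj (h1.le (⟨a, b, c⟩ : (u, v) ∈ {e : X × X | e.1 ∈ S ∧ e.2 ∉ S ∧ H.Adj e.1 e.2}))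
  by_cases h2 : ∀ v, H.Adj y v → v = x
  · exact hn (induct_pendant hxy h2 (hdeg x) (ih' _ x y hxy fun e => e rfl))
  push Not at h2
  obtain ⟨y', h2, h3⟩ := h2
  obtain ⟨x', h4, h5⟩ := Set.exists_ne_of_one_lt_ncard
    (s := H.neighborSet x) (by rw [hS x hx]; norm_num) y
  refine hn (induct_glue hx hy hxy hu (ih' _ y y' h2 ?_) (ih' _ x x' h4 ?_))
  · rintro (e | e)
    · exact h2.ne e.symm
    · exact h3 (hu y' y e hy h2.symm).1
  · rintro (e | e)
    · exact (H.ne_of_adj h4) e.symm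
    · exact h5 (hu x x' hx e h4).2

end Pool.Agent.TC
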