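import Pool.Agent.Work.MP_0b08b2_co.Pack
import Pool.Agent.Work.MP_0b08b2_co.Prob

set_option autoImplicit false

/-! Whitening: the message of a subtree of depth 20 is full with overwhelming probability. -/

namespace Pool.Agent.TC

open Finset

noncomputable def fF (d : ℕ) (k : Bool) (β : Bool × Bool) (j : ℕ) : ℝ :=
  pr fun ω : Om d true => outF d k ω = (β, j)

noncomputable def fB (d : ℕ) (σ : St) (j : ℕ) : ℝ := pr fun ω : Om d false => outB d σ ω = j

noncomputable def fM (d : ℕ) (k y : Bool) (β1 β2 : Bool × Bool) (jm : ℕ) : ℝ :=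
  pr fun ω : Om d true × Om d false => (outF d y ω.1).1 = β2 ∧
    tab (TM (k == y) (rel y β1 β2)) (outF d y ω.1).2 (outB d (!k, nb (!k) y β2 β1) ω.2) = jm

theorem pr_inst {Ω : Type} (i1 i2 : Fintype Ω) (E : Ω → Prop) : @pr Ω i1 E = @pr Ω i2 E := by
  rw [Subsingleton.elim i1 i2]

theorem pr_single {Ω : Type} [Fintype Ω] (y : Ω) :
    pr (fun b : Ω => b = y) = 1 / (Fintype.card Ω : ℝ) := by
  classical
  unfold pr
  congr 1
  have : ∀ inst : DecidablePred fun b : Ω => b = y,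
      @Finset.filter Ω (fun b => b = y) inst univ = {y} := by
    intro inst
    ext b
    simp
  rw [this]
  simp

theorem pr_bool (y : Bool) : pr (fun b : Bool => b = y) = 1 / 2 := by
  rw [pr_single]; simp

theorem pr_bb (β : Bool × Bool) : pr (fun b : Bool × Bool => b = β) = 1 / 4 := by
  rw [pr_single]; simp

theorem pr_ite {Ω : Type} [Fintype Ω] (c : Prop) [Decidable c] (E : Ω → Prop) :
    pr (fun ω => c ∧ E ω) = if c then pr E else 0 := by
  split_ifs with h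
  · exact pr_congr fun ω => by simp [h]
  · exact pr_eq_zero fun ω => by simp [h]

theorem pr_mid {A B C : Type} [Fintype A] [Fintype B] [Fintype C] (E : B → Prop)
    (F : A × C → Prop) :
    pr (fun ω : A × B × C => E ω.2.1 ∧ F (ω.1, ω.2.2)) = pr E * pr F := by
  rw [← pr_prod_mul E F]
  let e : A × B × C ≃ B × A × C :=
    ⟨fun ω => (ω.2.1, ω.1, ω.2.2), fun ω => (ω.2.1, ω.1, ω.2.2), fun _ => rfl, fun _ => rfl⟩
  exact pr_equiv e (fun ω : B × A × C => E ω.1 ∧ F ω.2)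

theorem fM_le (d : ℕ) (k y : Bool) (β1 β2 : Bool × Bool) (jm : ℕ) :
    fM d k y β1 β2 jm ≤ ∑ j2 ∈ range 64, ∑ j3 ∈ range 64,
      if tab (TM (k == y) (rel y β1 β2)) j2 j3 = jm then
        fF d y β2 j2 * fB d (!k, nb (!k) y β2 β1) j3 else 0 := by
  unfold fM
  refine le_trans (pr_mono (E' := fun ω : Om d true × Om d false =>
    ∃ j2 ∈ range 64, ∃ j3 ∈ range 64, tab (TM (k == y) (rel y β1 β2)) j2 j3 = jm ∧
      (outF d y ω.1 = (β2, j2) ∧ outB d (!k, nb (!k) y β2 β1) ω.2 = j3)) ?_) ?_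
  · rintro ω ⟨h1, h2⟩
    exact ⟨(outF d y ω.1).2, mem_range.2 (outF_lt _ _ _), outB d (!k, nb (!k) y β2 β1) ω.2,
      mem_range.2 (outB_lt _ _ _), h2, Prod.ext h1 rfl, rfl⟩
  · refine (pr_exists_le _ _).trans (sum_le_sum fun j2 _ => ?_)
    refine (pr_exists_le _ _).trans (sum_le_sum fun j3 _ => le_of_eq ?_)
    rw [pr_ite]
    congr 1
    exact pr_prod_mul (fun ω => outF d y ω = (β2, j2))
      (fun ω => outB d (!k, nb (!k) y β2 β1) ω = j3)

theorem fF_succ_le (d : ℕ) (k : Bool) (β : Bool × Bool) (j : ℕ) :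
    fF (d + 1) k β j ≤ ∑ y : Bool, ∑ β1 : Bool × Bool, ∑ β2 : Bool × Bool,
      if nb k y β1 β2 = β then ∑ j1 ∈ range 64, ∑ jm ∈ range 64,
        (if tab (TF (k == y) (rel y β1 β2)) j1 jm = j then
          1 / 2 * (fF d y β1 j1 * fM d k y β1 β2 jm) else 0) else 0 := by
  have e : fF (d + 1) k β j = pr fun ω : Bool × Om d true × Om d true × Om d false =>
      outF (d + 1) k ω = (β, j) := pr_inst _ _ _
  rw [e]
  refine le_trans (pr_mono (E' := fun ω : Bool × Om d true × Om d true × Om d false =>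
    ∃ y ∈ (univ : Finset Bool), ∃ β1 ∈ (univ : Finset (Bool × Bool)),
      ∃ β2 ∈ (univ : Finset (Bool × Bool)), nb k y β1 β2 = β ∧
      ∃ j1 ∈ range 64, ∃ jm ∈ range 64, tab (TF (k == y) (rel y β1 β2)) j1 jm = j ∧
        (ω.1 = y ∧ (outF d y ω.2.1 = (β1, j1) ∧ ((outF d y ω.2.2.1).1 = β2 ∧
          tab (TM (k == y) (rel y β1 β2)) (outF d y ω.2.2.1).2
            (outB d (!k, nb (!k) y β2 β1) ω.2.2.2) = jm)))) ?_) ?_
  · rintro ⟨y, ω1, ω2, ω3⟩ h
    rw [outF_succ, Prod.mk.injEq] at h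
    exact ⟨y, mem_univ _, (outF d y ω1).1, mem_univ _, (outF d y ω2).1, mem_univ _, h.1,
      (outF d y ω1).2, mem_range.2 (outF_lt _ _ _), _, mem_range.2 (tab_lt _ _ _), h.2, rfl, rfl,
      rfl, rfl⟩
  · refine (pr_exists_le _ _).trans (sum_le_sum fun y _ => ?_)
    refine (pr_exists_le _ _).trans (sum_le_sum fun β1 _ => ?_)
    refine (pr_exists_le _ _).trans (sum_le_sum fun β2 _ => ?_)
    rw [pr_ite]
    split_ifs
    · refine (pr_exists_le _ _).trans (sum_le_sum fun j1 _ => ?_)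
      refine (pr_exists_le _ _).trans (sum_le_sum fun jm _ => le_of_eq ?_)
      rw [pr_ite]
      congr 1
      rw [← pr_bool y]
      unfold fF fM
      rw [← pr_prod_mul, ← pr_prod_mul]
    · exact le_rfl

theorem fB_succ_le (d : ℕ) (y : Bool) (β : Bool × Bool) (j : ℕ) :
    fB (d + 1) (y, β) j ≤ ∑ k : Bool, ∑ β2 : Bool × Bool, ∑ j1 ∈ range 64, ∑ jm ∈ range 64,
        (if tab (TB (k == y) (rel y β β2)) j1 jm = j then
          1 / 2 * (fB d (k, nb k y β β2) j1 * fM d k y β β2 jm) else 0) := by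
  have e : fB (d + 1) (y, β) j = pr fun ω : Bool × Om d true × Om d false × Om d false =>
      outB (d + 1) (y, β) ω = j := pr_inst _ _ _
  rw [e]
  refine le_trans (pr_mono (E' := fun ω : Bool × Om d true × Om d false × Om d false =>
    ∃ k ∈ (univ : Finset Bool), ∃ β2 ∈ (univ : Finset (Bool × Bool)),
      ∃ j1 ∈ range 64, ∃ jm ∈ range 64, tab (TB (k == y) (rel y β β2)) j1 jm = j ∧
        (ω.1 = k ∧ (outB d (k, nb k y β β2) ω.2.2.1 = j1 ∧ ((outF d y ω.2.1).1 = β2 ∧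
          tab (TM (k == y) (rel y β β2)) (outF d y ω.2.1).2
            (outB d (!k, nb (!k) y β2 β) ω.2.2.2) = jm)))) ?_) ?_
  · rintro ⟨k, ω2, ω1, ω3⟩ h
    rw [outB_succ] at h
    exact ⟨k, mem_univ _, (outF d y ω2).1, mem_univ _, _, mem_range.2 (outB_lt _ _ _), _,
      mem_range.2 (tab_lt _ _ _), h, rfl, rfl, rfl, rfl⟩
  · refine (pr_exists_le _ _).trans (sum_le_sum fun k _ => ?_)
    refine (pr_exists_le _ _).trans (sum_le_sum fun β2 _ => ?_)
    refine (pr_exists_le _ _).trans (sum_le_sum fun j1 _ => ?_)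
    refine (pr_exists_le _ _).trans (sum_le_sum fun jm _ => le_of_eq ?_)
    rw [pr_ite]
    congr 1
    rw [← pr_bool k]
    unfold fB fM
    rw [← pr_mid, ← pr_prod_mul]

def Inv (d P U V : ℕ) : Prop :=
  (∀ k β, ∀ j < 64, 4 * fF d k β j * 2 ^ P ≤ getw (P + 3) U j) ∧
    ∀ σ, ∀ j < 64, fB d σ j * 2 ^ P ≤ getw (P + 3) V j

theorem fF_nonneg (d k β j) : 0 ≤ fF d k β j := pr_nonneg _
theorem fB_nonneg (d σ j) : 0 ≤ fB d σ j := pr_nonneg _
theorem fM_nonneg (d k y β1 β2 j) : 0 ≤ fM d k y β1 β2 j := pr_nonneg _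

theorem co_bound (P T U V t : ℕ) (a b : ℕ → ℝ) (_ha0 : ∀ j, 0 ≤ a j) (hb0 : ∀ j, 0 ≤ b j)
    (ha : ∀ j < 64, a j ≤ getw (P + 3) U j) (hb : ∀ j < 64, b j ≤ getw (P + 3) V j) :
    (∑ j1 ∈ range 64, ∑ j2 ∈ range 64, if tab T j1 j2 = t then a j1 * b j2 else 0) ≤
      (co P T U V t : ℝ) := by
  unfold co
  push_cast
  refine sum_le_sum fun j1 h1 => sum_le_sum fun j2 h2 => ?_
  split_ifs
  · exact mul_le_mul (ha _ (mem_range.1 h1)) (hb _ (mem_range.1 h2)) (hb0 _) (Nat.cast_nonneg _)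
  · exact le_rfl

theorem sum_scale (T t : ℕ) (a b : ℕ → ℝ) (c x y z : ℝ) (h : c * z = x * y) :
    (∑ j1 ∈ range 64, ∑ j2 ∈ range 64, if tab T j1 j2 = t then c * (a j1 * b j2) else 0) * z =
      ∑ j1 ∈ range 64, ∑ j2 ∈ range 64,
        if tab T j1 j2 = t then (a j1 * x) * (b j2 * y) else 0 := by
  rw [sum_mul]
  refine sum_congr rfl fun j1 _ => ?_
  rw [sum_mul]
  refine sum_congr rfl fun j2 _ => ?_
  split_ifs
  · calc c * (a j1 * b j2) * z = (c * z) * (a j1 * b j2) := by ring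
      _ = _ := by rw [h]; ring
  · simp

theorem inv_M {d P U V : ℕ} (h : Inv d P U V) (k y : Bool) (β1 β2 : Bool × Bool) (jm : ℕ)
    (hj : jm < 64) :
    fM d k y β1 β2 jm * (4 * 2 ^ P) ≤ getw (P + 3) (wv P U V (k == y) (rel y β1 β2)) jm := by
  rw [getw_wv _ _ _ _ _ _ hj]
  have h1 := le_rnd P (co P (TM (k == y) (rel y β1 β2)) U V jm) P (4 * fM d k y β1 β2 jm)
    (by have : fM d k y β1 β2 jm ≤ 1 := pr_le_one _
        linarith) (by
      have h2 := mul_le_mul_of_nonneg_right (fM_le d k y β1 β2 jm)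
        (show (0 : ℝ) ≤ 4 * 2 ^ P * 2 ^ P by positivity)
      have h3 := sum_scale (TM (k == y) (rel y β1 β2)) jm (fF d y β2)
        (fB d (!k, nb (!k) y β2 β1)) 1 (4 * 2 ^ P) (2 ^ P) (4 * 2 ^ P * 2 ^ P) (by ring)
      simp only [one_mul] at h3
      rw [h3] at h2
      have h4 := co_bound P (TM (k == y) (rel y β1 β2)) U V jm
        (fun j => fF d y β2 j * (4 * 2 ^ P)) (fun j => fB d (!k, nb (!k) y β2 β1) j * 2 ^ P)
        (fun j => mul_nonneg (fF_nonneg _ _ _ _) (by positivity))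
        (fun j => mul_nonneg (fB_nonneg _ _ _) (by positivity))
        (fun j hj => by have := h.1 y β2 j hj; linarith) (fun j hj => h.2 _ j hj)
      linarith)
  linarith

theorem reindexF (k : Bool) (β : Bool × Bool) (G : Bool → Bool × Bool → ℝ) :
    (∑ y : Bool, ∑ β1 : Bool × Bool, ∑ β2 : Bool × Bool,
      if nb k y β1 β2 = β then G (k == y) (rel y β1 β2) else 0) =
      ∑ s : Bool, ∑ δ : Bool × Bool, G s δ := by
  obtain ⟨b1, b2⟩ := β
  cases k <;> cases b1 <;> cases b2 <;>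
    simp [Fintype.sum_prod_type, nb, rel, turn] <;> ring

theorem reindexB (y : Bool) (β : Bool × Bool) (G : Bool → Bool × Bool → ℝ) :
    (∑ k : Bool, ∑ β2 : Bool × Bool, G (k == y) (rel y β β2)) =
      ∑ s : Bool, ∑ δ : Bool × Bool, G s δ := by
  obtain ⟨b1, b2⟩ := β
  cases y <;> cases b1 <;> cases b2 <;>
    simp [Fintype.sum_prod_type, rel] <;> ring

theorem pow_split {P Q : ℕ} (hQ : Q ≤ 2 * P + 3) :
    (2 : ℝ) ^ Q * 2 ^ (2 * P + 3 - Q) = 8 * 2 ^ P * 2 ^ P := by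
  rw [← pow_add, Nat.add_sub_cancel' hQ, show 2 * P + 3 = 3 + P + P by ring, pow_add, pow_add]
  norm_num

theorem inv_step {d P U V : ℕ} (h : Inv d P U V) {Q : ℕ} (hQ : Q ≤ 2 * P + 3) :
    Inv (d + 1) Q (nU P Q U V) (nV P Q U V) := by
  constructor
  · intro k β j hj
    rw [getw_nU _ _ _ _ _ hj]
    refine le_rnd Q _ _ (4 * fF (d + 1) k β j) (by
      have : fF (d + 1) k β j ≤ 1 := pr_le_one _
      linarith) ?_
    rw [mul_assoc, pow_split hQ]
    have h2 := mul_le_mul_of_nonneg_right (fF_succ_le d k β j)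
      (show (0 : ℝ) ≤ 32 * 2 ^ P * 2 ^ P by positivity)
    push_cast
    rw [← reindexF k β (fun s δ => (co P (TF s δ) U (wv P U V s δ) j : ℝ))]
    refine le_trans (le_of_eq (by ring)) (h2.trans ?_)
    rw [sum_mul]
    refine sum_le_sum fun y _ => ?_
    rw [sum_mul]
    refine sum_le_sum fun β1 _ => ?_
    rw [sum_mul]
    refine sum_le_sum fun β2 _ => ?_
    split_ifs
    · rw [sum_scale _ _ (fF d y β1) (fM d k y β1 β2) _ (4 * 2 ^ P) (4 * 2 ^ P) _ (by ring)]
      exact co_bound P _ U _ j (fun j => fF d y β1 j * (4 * 2 ^ P))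
        (fun j => fM d k y β1 β2 j * (4 * 2 ^ P))
        (fun j => mul_nonneg (fF_nonneg _ _ _ _) (by positivity))
        (fun j => mul_nonneg (fM_nonneg _ _ _ _ _ _) (by positivity))
        (fun j hj => by have := h.1 y β1 j hj; linarith) (fun j hj => inv_M h k y β1 β2 j hj)
    · simp
  · rintro ⟨y, β⟩ j hj
    rw [getw_nV _ _ _ _ _ hj]
    refine le_rnd Q _ _ (fB (d + 1) (y, β) j) (by
      have : fB (d + 1) (y, β) j ≤ 1 := pr_le_one _
      linarith) ?_
    rw [mul_assoc, pow_split hQ]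
    have h2 := mul_le_mul_of_nonneg_right (fB_succ_le d y β j)
      (show (0 : ℝ) ≤ 8 * 2 ^ P * 2 ^ P by positivity)
    push_cast
    rw [← reindexB y β (fun s δ => (co P (TB s δ) V (wv P U V s δ) j : ℝ))]
    refine h2.trans ?_
    rw [sum_mul]
    refine sum_le_sum fun k _ => ?_
    rw [sum_mul]
    refine sum_le_sum fun β2 _ => ?_
    rw [sum_scale _ _ (fB d (k, nb k y β β2)) (fM d k y β β2) _ (2 ^ P) (4 * 2 ^ P) _ (by ring)]
    exact co_bound P _ V _ j (fun j => fB d (k, nb k y β β2) j * 2 ^ P)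
      (fun j => fM d k y β β2 j * (4 * 2 ^ P))
      (fun j => mul_nonneg (fB_nonneg _ _ _) (by positivity))
      (fun j => mul_nonneg (fM_nonneg _ _ _ _ _ _) (by positivity))
      (fun j hj => h.2 _ j hj) (fun j hj => inv_M h k y β β2 j hj)

theorem U0_val : ∀ j < 64, getw 43 U0 j = if j = jF then 2 ^ 40 else 0 := by decide +kernel
theorem V0_val : ∀ j < 64, getw 43 V0 j =
    (if j = jB1 then 2 ^ 39 else 0) + if j = jB3 then 2 ^ 39 else 0 := by decide +kernel

theorem inv_zero : Inv 0 40 U0 V0 := by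
  constructor
  · intro k β j hj
    rw [U0_val j hj]
    have e : fF 0 k β j = pr fun b : Bool × Bool => jF = j ∧ b = β := by
      unfold fF
      refine (pr_inst _ _ _).trans (pr_congr (Ω := Bool × Bool) fun b => ?_)
      show (b, jF) = (β, j) ↔ _
      rw [Prod.mk.injEq, and_comm]
    rw [e, pr_ite, pr_bb]
    by_cases h : j = jF
    · rw [if_pos h.symm, if_pos h]; norm_num
    · rw [if_neg (fun e => h e.symm), if_neg h]; norm_num
  · intro σ j hj
    rw [V0_val j hj]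
    have e : fB 0 σ j ≤ pr fun b : Bool => (jB1 = j ∧ b = σ.1) ∨ (jB3 = j ∧ b = !σ.1) := by
      unfold fB
      refine (le_of_eq (pr_inst _ _ _)).trans (pr_mono (Ω := Bool) fun b hb => ?_)
      have hb' : (if b = σ.1 then jB1 else jB3) = j := hb
      split_ifs at hb' with h
      · exact Or.inl ⟨hb', h⟩
      · exact Or.inr ⟨hb', by revert h; cases b <;> cases σ.1 <;> simp⟩
    have e2 := e.trans (pr_or_le _ _)
    rw [pr_ite, pr_ite, pr_bool, pr_bool] at e2
    have e3 := mul_le_mul_of_nonneg_right e2 (show (0 : ℝ) ≤ 2 ^ 40 by positivity)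
    refine e3.trans (le_of_eq ?_)
    push_cast
    simp only [eq_comm (a := j)]
    split_ifs <;> norm_num

theorem bad_le {d P U V : ℕ} (h : Inv d P U V) (hU : tailSum P U 64 * 2 ^ 2404 ≤ 2 ^ P)
    (hV : tailSum P V 64 * 2 ^ 2404 ≤ 2 ^ P) (f : Bool) : pr (bad d f) ≤ (1 / 2 : ℝ) ^ 2400 := by
  have key : ∀ (W : ℕ) (a : ℕ → ℝ), tailSum P W 64 * 2 ^ 2404 ≤ 2 ^ P →
      (∀ j < 64, a j * 2 ^ P ≤ getw (P + 3) W j) →
      8 * ∑ j ∈ (range 64).erase 1, a j ≤ (1 / 2 : ℝ) ^ 2400 := by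
    intro W a hW ha
    have h1 : (∑ j ∈ (range 64).erase 1, a j) * 2 ^ P ≤ (tailSum P W 64 : ℝ) := by
      rw [tailSum_eq, sum_mul, ← sum_erase (range 64) (a := 1) (by simp)]
      push_cast
      refine sum_le_sum fun j hj => ?_
      rw [if_neg (mem_erase.1 hj).1]
      exact ha j (mem_range.1 (mem_erase.1 hj).2)
    have h2 : (tailSum P W 64 : ℝ) * 2 ^ 2404 ≤ 2 ^ P := by exact_mod_cast hW
    have hP : (0 : ℝ) < 2 ^ P := by positivity
    generalize (∑ j ∈ (range 64).erase 1, a j) = x at h1 ⊢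
    have e : (2 : ℝ) ^ 2404 = 16 * 2 ^ 2400 := by rw [show 2404 = 4 + 2400 by rfl, pow_add]; norm_num
    rw [e] at h2
    rw [one_div_pow]
    have hz : (0 : ℝ) < 2 ^ 2400 := by positivity
    generalize (2 : ℝ) ^ 2400 = z at h2 hz ⊢
    rw [le_div_iff₀ hz]
    have h3 : x * (16 * z) * 2 ^ P ≤ 1 * 2 ^ P := by nlinarith
    have h4 := le_of_mul_le_mul_right h3 hP
    linarith
  cases f
  · have h1 : pr (bad d false) ≤ ∑ σ : St, ∑ j ∈ (range 64).erase 1, fB d σ j := by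
      refine le_trans (pr_mono (E' := fun ω : Om d false => ∃ σ ∈ (univ : Finset St),
        ∃ j ∈ (range 64).erase 1, outB d σ ω = j) ?_) ?_
      · rintro ω ⟨σ, hσ⟩
        exact ⟨σ, mem_univ _, _, mem_erase.2 ⟨hσ, mem_range.2 (outB_lt _ _ _)⟩, rfl⟩
      · exact (pr_exists_le _ _).trans (sum_le_sum fun σ _ => pr_exists_le _ _)
    refine h1.trans ?_
    have h2 : ∀ σ : St, ∑ j ∈ (range 64).erase 1, fB d σ j ≤ (1 / 2 : ℝ) ^ 2400 / 8 := fun σ => by
      have := key V (fB d σ) hV (h.2 σ)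
      rw [le_div_iff₀ (by norm_num), mul_comm]
      exact this
    refine (sum_le_sum fun σ _ => h2 σ).trans (le_of_eq ?_)
    generalize (1 / 2 : ℝ) ^ 2400 = z
    simp
    ring
  · have h1 : pr (bad d true) ≤ ∑ σ : St, ∑ j ∈ (range 64).erase 1, fF d σ.1 σ.2 j := by
      refine le_trans (pr_mono (E' := fun ω : Om d true => ∃ σ ∈ (univ : Finset St),
        ∃ j ∈ (range 64).erase 1, outF d σ.1 ω = (σ.2, j)) ?_) ?_
      · rintro ω ⟨k, hk⟩
        exact ⟨(k, (outF d k ω).1), mem_univ _, _,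
          mem_erase.2 ⟨hk, mem_range.2 (outF_lt _ _ _)⟩, rfl⟩
      · exact (pr_exists_le _ _).trans (sum_le_sum fun σ _ => pr_exists_le _ _)
    refine h1.trans ?_
    have h2 : ∀ σ : St, ∑ j ∈ (range 64).erase 1, fF d σ.1 σ.2 j ≤ (1 / 2 : ℝ) ^ 2400 / 8 :=
      fun σ => by
      have := key U (fF d σ.1 σ.2) hU (fun j hj => by
        have h3 := h.1 σ.1 σ.2 j hj
        have h4 : 0 ≤ fF d σ.1 σ.2 j * 2 ^ P := mul_nonneg (fF_nonneg _ _ _ _) (by positivity)
        linarith)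
      rw [le_div_iff₀ (by norm_num), mul_comm]
      exact this
    refine (sum_le_sum fun σ _ => h2 σ).trans (le_of_eq ?_)
    generalize (1 / 2 : ℝ) ^ 2400 = z
    simp
    ring

theorem run_sound (l : List ℕ) : ∀ d P U V, Inv d P U V → runUV l P U V = true →
    ∀ f, pr (bad (d + l.length) f) ≤ (1 / 2 : ℝ) ^ 2400 := by
  induction l with
  | nil =>
    intro d P U V h hr f
    simp only [runUV, Bool.and_eq_true, decide_eq_true_eq] at hr
    exact bad_le h hr.1 hr.2 f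
  | cons Q l ih =>
    intro d P U V h hr f
    simp only [runUV, Bool.and_eq_true, decide_eq_true_eq, stepK_eq] at hr
    have := ih (d + 1) Q _ _ (inv_step h hr.1) hr.2 f
    rwa [show d + 1 + l.length = d + (Q :: l).length by simp; ring] at this

theorem white (f : Bool) : pr (bad 20 f) ≤ (1 / 2 : ℝ) ^ 2400 :=
  run_sound sched 0 40 U0 V0 inv_zero cert_run f

end Pool.Agent.TC
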