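import Pool.Agent.Work.MP_0b08b2_co.Base
import Pool.Agent.Work.MP_0b08b2_co.White
import Pool.Agent.Work.MP_0b08b2_co.Induct

set_option autoImplicit false

namespace Pool.Agent.TC

theorem core : ∃ g : ℕ, ∀ (V : Type) [Fintype V] (G : Str V), G.Free g → G.Col :=
  core_of_white 20 2400 white (by decide +kernel)

theorem main : ∃ g : ℕ, ∀ (X : Type) [Fintype X] (H : SimpleGraph X),
    (∀ v, (H.neighborSet v).ncard ≤ 3) → GirthGe H g → TC4 H := by
  obtain ⟨g, hg⟩ := core
  exact ⟨g + 1, fun X _ H hd hH =>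
    tc4_of_base (g + 1) X (fun H' h1 h2 h3 => tc4_base g hg X H' h1 h2 h3) H hd hH⟩

end Pool.Agent.TC
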