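import Pool.Agent.Work.MP_0b08b2_co.Cert
import Pool.Agent.Work.MP_0b08b2_co.TabSound

set_option autoImplicit false

/-! Meaning of the packed arithmetic of the certificate. -/

namespace Pool.Agent.TC

open Finset

def pk (w : ℕ) (a : ℕ → ℕ) (n : ℕ) : ℕ := ∑ j ∈ range n, a j * 2 ^ (w * j)

theorem pk_lt (w : ℕ) (a : ℕ → ℕ) (n : ℕ) (h : ∀ j < n, a j < 2 ^ w) : pk w a n < 2 ^ (w * n) := by
  induction n with
  | zero => simp [pk]
  | succ n ih =>
    have h1 := ih (fun j hj => h j (by omega))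
    have h2 := h n (by omega)
    unfold pk at h1 ⊢
    rw [sum_range_succ]
    have h3 : (a n + 1) * 2 ^ (w * n) ≤ 2 ^ w * 2 ^ (w * n) := Nat.mul_le_mul_right _ h2
    have h4 : 2 ^ (w * (n + 1)) = 2 ^ w * 2 ^ (w * n) := by rw [← pow_add]; congr 1; ring
    rw [h4]
    nlinarith

theorem getw_pk (w : ℕ) (a : ℕ → ℕ) (n : ℕ) (h : ∀ j < n, a j < 2 ^ w) (j : ℕ) (hj : j < n) :
    getw w (pk w a n) j = a j := by
  induction n with
  | zero => omega
  | succ n ih =>
    have hlt := pk_lt w a n (fun j hj => h j (by omega))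
    have e : pk w a (n + 1) = pk w a n + a n * 2 ^ (w * n) := by unfold pk; rw [sum_range_succ]
    rw [e]
    unfold getw at ih ⊢
    rw [Nat.shiftRight_eq_div_pow] at ih ⊢
    rcases Nat.lt_succ_iff_lt_or_eq.1 hj with hj' | rfl
    · obtain ⟨t, rfl⟩ : ∃ t, n = j + 1 + t := ⟨n - (j + 1), by omega⟩
      have h4 : a (j + 1 + t) * 2 ^ (w * (j + 1 + t)) =
          2 ^ (w * j) * (2 ^ w * (a (j + 1 + t) * 2 ^ (w * t))) := by
        have : 2 ^ (w * (j + 1 + t)) = 2 ^ (w * j) * 2 ^ w * 2 ^ (w * t) := by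
          rw [← pow_add, ← pow_add]; congr 1; ring
        rw [this]; ring
      rw [h4, Nat.add_mul_div_left _ _ (by positivity), Nat.add_mul_mod_self_left]
      exact ih (fun j hj => h j (by omega)) hj'
    · rw [Nat.add_mul_div_right _ _ (by positivity), Nat.div_eq_of_lt hlt, zero_add,
        Nat.mod_eq_of_lt (h j hj)]

theorem getw_lt (w U j : ℕ) : getw w U j < 2 ^ w := Nat.mod_lt _ (by positivity)

/-- Coefficient of slot `t` in the bilinear form. -/
def co (P T U V t : ℕ) : ℕ :=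
  ∑ j1 ∈ range 64, ∑ j2 ∈ range 64,
    if tab T j1 j2 = t then getw (P + 3) U j1 * getw (P + 3) V j2 else 0

theorem rowSum_eq (P T V j1 n : ℕ) : rowSum P T V j1 n =
    ∑ j ∈ range n, getw (P + 3) V j * 2 ^ ((2 * P + 22) * tab T j1 j) := by
  induction n with
  | zero => simp [rowSum]
  | succ n ih =>
    rw [sum_range_succ, rowSum]
    split_ifs with h
    · rw [ih, h]; simp
    · rw [ih, Nat.shiftLeft_eq]

theorem bil_eq' (P T U V n : ℕ) : bil P T U V n =
    ∑ j ∈ range n, getw (P + 3) U j * rowSum P T V j 64 := by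
  induction n with
  | zero => simp [bil]
  | succ n ih =>
    rw [sum_range_succ, bil]
    split_ifs with h
    · rw [ih, h]; simp
    · rw [ih]

theorem bil_eq (P T U V : ℕ) : bil P T U V 64 = pk (2 * P + 22) (co P T U V) 64 := by
  rw [bil_eq']
  unfold pk co
  simp_rw [rowSum_eq, sum_mul, mul_sum]
  rw [sum_comm (s := range 64) (t := range 64)
    (f := fun t j1 => ∑ j2 ∈ range 64, (if tab T j1 j2 = t then
      getw (P + 3) U j1 * getw (P + 3) V j2 else 0) * 2 ^ ((2 * P + 22) * t))]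
  refine sum_congr rfl fun j1 _ => ?_
  rw [sum_comm]
  refine sum_congr rfl fun j2 _ => ?_
  rw [sum_eq_single (tab T j1 j2)]
  · simp [mul_assoc]
  · intro t _ ht
    rw [if_neg (fun e => ht e.symm), zero_mul]
  · intro h
    exact absurd (mem_range.2 (tab_lt _ _ _)) h

theorem co_le (P T U V t : ℕ) : co P T U V t ≤ 2 ^ (2 * P + 18) := by
  unfold co
  have h : ∀ j1 j2, (if tab T j1 j2 = t then getw (P + 3) U j1 * getw (P + 3) V j2 else 0) ≤
      2 ^ (2 * P + 6) := by
    intro j1 j2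
    split_ifs
    · have := Nat.mul_le_mul (getw_lt (P + 3) U j1).le (getw_lt (P + 3) V j2).le
      rw [← pow_add] at this
      convert this using 2
      ring
    · positivity
  calc _ ≤ ∑ j1 ∈ range 64, ∑ j2 ∈ range 64, 2 ^ (2 * P + 6) :=
        sum_le_sum fun j1 _ => sum_le_sum fun j2 _ => h j1 j2
    _ = 2 ^ (2 * P + 18) := by
        simp only [sum_const, card_range, smul_eq_mul]
        rw [show 2 * P + 18 = 12 + (2 * P + 6) by ring, pow_add 2 12]
        ring

theorem repack_eq (P Q A sh n : ℕ) : repack P Q A sh n =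
    pk (Q + 3) (fun j => rnd Q (getw (2 * P + 22) A j) sh) n := by
  induction n with
  | zero => simp [repack, pk]
  | succ n ih =>
    unfold pk at ih ⊢
    rw [sum_range_succ, repack, ih, Nat.shiftLeft_eq]

theorem rnd_lt (Q x sh : ℕ) : rnd Q x sh < 2 ^ (Q + 3) := by
  unfold rnd
  split_ifs
  · positivity
  · exact lt_of_le_of_lt (min_le_left _ _) (Nat.pow_lt_pow_right (by norm_num) (by omega))

theorem getw_repack (P Q A sh j : ℕ) (hj : j < 64) :
    getw (Q + 3) (repack P Q A sh 64) j = rnd Q (getw (2 * P + 22) A j) sh := by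
  rw [repack_eq, getw_pk _ _ _ (fun j _ => rnd_lt _ _ _) j hj]

theorem le_rnd (Q x sh : ℕ) (p : ℝ) (h4 : p ≤ 4) (hx : p * 2 ^ Q * 2 ^ sh ≤ x) :
    p * 2 ^ Q ≤ rnd Q x sh := by
  have hs : (0 : ℝ) < 2 ^ sh := by positivity
  unfold rnd
  split_ifs with h
  · subst h
    have : p * 2 ^ Q * 2 ^ sh ≤ 0 * 2 ^ sh := by simpa using hx
    simpa using le_of_mul_le_mul_right this hs
  · rw [Nat.cast_min]
    refine le_min ?_ ?_
    · push_cast
      rw [pow_add]
      have : (0 : ℝ) < 2 ^ Q := by positivity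
      nlinarith
    · rw [Nat.shiftRight_eq_div_pow]
      have h1 : x < (x / 2 ^ sh + 1) * 2 ^ sh := by
        have := Nat.lt_div_mul_add (a := x) (b := 2 ^ sh) (by positivity)
        nlinarith
      have h2 : (x : ℝ) < ((x / 2 ^ sh + 1 : ℕ) : ℝ) * 2 ^ sh := by exact_mod_cast h1
      exact le_of_mul_le_mul_right (hx.trans h2.le) hs

/-- The intermediate vector of a variant. -/
def wv (P U V : ℕ) (s : Bool) (δ : Bool × Bool) : ℕ := repack P P (bil P (TM s δ) U V 64) P 64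

theorem getw_wv (P U V : ℕ) (s : Bool) (δ : Bool × Bool) (j : ℕ) (hj : j < 64) :
    getw (P + 3) (wv P U V s δ) j = rnd P (co P (TM s δ) U V j) P := by
  unfold wv
  rw [getw_repack _ _ _ _ _ hj, bil_eq, getw_pk _ _ _ (fun t _ => lt_of_le_of_lt (co_le _ _ _ _ _)
    (Nat.pow_lt_pow_right (by norm_num) (by omega))) j hj]

def nU (P Q U V : ℕ) : ℕ := repack P Q
  (∑ s : Bool, ∑ δ : Bool × Bool, bil P (TF s δ) U (wv P U V s δ) 64) (2 * P + 3 - Q) 64
def nV (P Q U V : ℕ) : ℕ := repack P Q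
  (∑ s : Bool, ∑ δ : Bool × Bool, bil P (TB s δ) V (wv P U V s δ) 64) (2 * P + 3 - Q) 64

theorem stepK_eq {α : Type} (P Q U V : ℕ) (g : ℕ → ℕ → α) :
    stepK P Q U V g = g (nU P Q U V) (nV P Q U V) := by
  unfold stepK one8 nU nV wv
  simp only [force_eq, Fintype.sum_bool, Fintype.sum_prod_type]
  congr 2 <;> ring

theorem getw_sum8 (P : ℕ) (T A B : Bool → Bool × Bool → ℕ) (j : ℕ) (hj : j < 64) :
    getw (2 * P + 22) (∑ s : Bool, ∑ δ : Bool × Bool, bil P (T s δ) (A s δ) (B s δ) 64) j =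
      ∑ s : Bool, ∑ δ : Bool × Bool, co P (T s δ) (A s δ) (B s δ) j := by
  have e : (∑ s : Bool, ∑ δ : Bool × Bool, bil P (T s δ) (A s δ) (B s δ) 64) =
      pk (2 * P + 22) (fun t => ∑ s : Bool, ∑ δ : Bool × Bool, co P (T s δ) (A s δ) (B s δ) t)
        64 := by
    simp_rw [bil_eq]
    unfold pk
    simp_rw [sum_mul]
    rw [sum_comm (s := range 64)]
    refine sum_congr rfl fun s _ => ?_
    rw [sum_comm]
  rw [e, getw_pk _ _ _ _ j hj]
  intro t _
  calc _ ≤ ∑ s : Bool, ∑ δ : Bool × Bool, 2 ^ (2 * P + 18) :=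
        sum_le_sum fun s _ => sum_le_sum fun δ _ => co_le _ _ _ _ _
    _ = 2 ^ (2 * P + 21) := by
        simp only [sum_const, card_univ, Fintype.card_prod, Fintype.card_bool, smul_eq_mul]
        rw [show 2 * P + 21 = 3 + (2 * P + 18) by ring, pow_add 2 3]
        ring
    _ < 2 ^ (2 * P + 22) := Nat.pow_lt_pow_right (by norm_num) (by omega)

theorem getw_nU (P Q U V j : ℕ) (hj : j < 64) : getw (Q + 3) (nU P Q U V) j =
    rnd Q (∑ s : Bool, ∑ δ : Bool × Bool, co P (TF s δ) U (wv P U V s δ) j) (2 * P + 3 - Q) := by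
  unfold nU
  rw [getw_repack _ _ _ _ _ hj, getw_sum8 P TF (fun _ _ => U) (wv P U V) j hj]

theorem getw_nV (P Q U V j : ℕ) (hj : j < 64) : getw (Q + 3) (nV P Q U V) j =
    rnd Q (∑ s : Bool, ∑ δ : Bool × Bool, co P (TB s δ) V (wv P U V s δ) j) (2 * P + 3 - Q) := by
  unfold nV
  rw [getw_repack _ _ _ _ _ hj, getw_sum8 P TB (fun _ _ => V) (wv P U V) j hj]

theorem tailSum_eq (P U n : ℕ) : tailSum P U n =
    ∑ j ∈ range n, if j = 1 then 0 else getw (P + 3) U j := by
  induction n with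
  | zero => simp [tailSum]
  | succ n ih => rw [sum_range_succ, tailSum, ih]

end Pool.Agent.TC
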